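import Pool.Agent.H84.MN.Circ2

/-!
# Amalgams over an infinite cyclic group (the fundamental groups of connected sums)
-/

set_option autoImplicit false

namespace Pool.Agent.H84.MN

open Subgroup Monoid

/-- The number `mn` for a group `G`, an epimorphism `χ : G → ℤ` and an element `t` (a meridian):
conjugation by `t` on the kernel of `χ`. -/
noncomputable def mnG {G : Type*} [Group G] (χ : G →* Multiplicative ℤ) (t : G) : ℕ∞ :=
  mn (MulAut.conjNormal t : χ.ker ≃* χ.ker)

section

variable {ι : Type*} {G : ι → Type*} [∀ i, Group (G i)] (t : ∀ i, G i)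

/-- The amalgam of the groups `G i` in which all `t i` are identified. -/
abbrev Amal : Type _ := PushoutI fun i => zpowersHom (G i) (t i)

/-- The common image of the `t i`. -/
def tA : Amal t := PushoutI.base (fun i => zpowersHom (G i) (t i)) (Multiplicative.ofAdd 1)

variable (χ : ∀ i, G i →* Multiplicative ℤ) (hχ : ∀ i, χ i (t i) = Multiplicative.ofAdd 1)

include hχ in
theorem χ_zpow (i : ι) (a : Multiplicative ℤ) : χ i (zpowersHom (G i) (t i) a) = a := by
  rw [zpowersHom_apply, map_zpow, hχ]
  rw [← ofAdd_zsmul, smul_eq_mul, mul_one]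
  rfl

/-- The induced epimorphism. -/
def χA : Amal t →* Multiplicative ℤ :=
  PushoutI.lift χ (MonoidHom.id _) fun i => by
    ext
    simp [hχ]

theorem χA_of (i : ι) (g : G i) :
    χA t χ hχ (PushoutI.of (φ := fun i => zpowersHom (G i) (t i)) i g) = χ i g := by
  simp [χA]

theorem χA_base (a : Multiplicative ℤ) :
    χA t χ hχ (PushoutI.base (fun i => zpowersHom (G i) (t i)) a) = a := by
  simp [χA]

/-- The kernels. -/
abbrev Ker (i : ι) : Type _ := (χ i).ker

/-- The inclusion of a kernel in the free product. -/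
abbrev ofK (i : ι) : Ker χ i →* CoprodI (Ker χ) := CoprodI.of

/-- The action of `ℤ` on the free product of the kernels. -/
def θ : Multiplicative ℤ →* MulAut (CoprodI (Ker χ)) where
  toFun a := coprodAut fun i => (MulAut.conjNormal (zpowersHom (G i) (t i) a) : Ker χ i ≃* Ker χ i)
  map_one' := by
    ext x
    induction x using CoprodI.induction_on with
    | one => simp
    | of i x => rw [coprodAut_of]; simp
    | mul x y hx hy => rw [map_mul, hx, hy]; simp
  map_mul' a b := by
    ext x
    induction x using CoprodI.induction_on with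
    | one => simp
    | of i x =>
      rw [coprodAut_of, MulAut.mul_apply, coprodAut_of, coprodAut_of, map_mul, map_mul,
        MulAut.mul_apply]
    | mul x y hx hy => rw [map_mul, hx, hy, map_mul]

theorem θ_of (a : Multiplicative ℤ) (i : ι) (x : Ker χ i) :
    θ t χ a (ofK χ i x) =
      ofK χ i (MulAut.conjNormal (zpowersHom (G i) (t i) a) x) :=
  coprodAut_of _ i x

include hχ in
theorem mem_ker_aux (i : ι) (g : G i) :
    g * (zpowersHom (G i) (t i) (χ i g))⁻¹ ∈ (χ i).ker := by
  rw [MonoidHom.mem_ker, map_mul, map_inv, χ_zpow t χ hχ, mul_inv_cancel]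

/-- `G i` maps to the semidirect product. -/
def fi (i : ι) : G i →* CoprodI (Ker χ) ⋊[θ t χ] Multiplicative ℤ where
  toFun g := ⟨ofK χ i ⟨g * (zpowersHom (G i) (t i) (χ i g))⁻¹, mem_ker_aux t χ hχ i g⟩, χ i g⟩
  map_one' := by
    apply SemidirectProduct.ext
    · have : (⟨1 * (zpowersHom (G i) (t i) (χ i 1))⁻¹, mem_ker_aux t χ hχ i 1⟩ : Ker χ i) = 1 := by
        ext
        simp
      rw [this]
      simp
    · simp
  map_mul' g h := by
    apply SemidirectProduct.ext
    · rw [SemidirectProduct.mul_left, θ_of, ← map_mul (ofK χ i)]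
      refine congrArg (ofK χ i) ?_
      ext
      simp only [map_mul, MulMemClass.coe_mul, MulAut.conjNormal_apply, mul_inv_rev]
      group
    · simp

/-- The amalgam maps to the semidirect product. -/
def ff : Amal t →* CoprodI (Ker χ) ⋊[θ t χ] Multiplicative ℤ :=
  PushoutI.lift (fi t χ hχ) SemidirectProduct.inr fun i => by
    refine MonoidHom.ext fun a => ?_
    apply SemidirectProduct.ext
    · have : (⟨zpowersHom (G i) (t i) a * (zpowersHom (G i) (t i)
          (χ i (zpowersHom (G i) (t i) a)))⁻¹, mem_ker_aux t χ hχ i _⟩ : Ker χ i) = 1 := by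
        ext
        simp only [χ_zpow t χ hχ, mul_inv_cancel]
        rfl
      show ofK χ i ⟨zpowersHom (G i) (t i) a * (zpowersHom (G i) (t i)
          (χ i (zpowersHom (G i) (t i) a)))⁻¹, mem_ker_aux t χ hχ i _⟩ = _
      rw [this]
      simp
    · exact χ_zpow t χ hχ i a

/-- The free product of the kernels maps to the amalgam. -/
def kap : CoprodI (Ker χ) →* Amal t :=
  CoprodI.lift fun i =>
    (PushoutI.of (φ := fun i => zpowersHom (G i) (t i)) i).comp (χ i).ker.subtype

theorem kap_of (i : ι) (x : Ker χ i) :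
    kap t χ (ofK χ i x) = PushoutI.of (φ := fun i => zpowersHom (G i) (t i)) i (x : G i) := by
  simp [kap]

theorem ff_kap (x : CoprodI (Ker χ)) : ff t χ hχ (kap t χ x) = SemidirectProduct.inl x := by
  induction x using CoprodI.induction_on with
  | one => simp
  | of i x =>
    have h0 := kap_of t χ i x
    rw [h0]
    have h1 : χ i (x : G i) = 1 := x.2
    show ff t χ hχ (PushoutI.of i (x : G i)) = _
    rw [ff, PushoutI.lift_of]
    apply SemidirectProduct.ext
    · show ofK χ i ⟨(x : G i) * (zpowersHom (G i) (t i) (χ i (x : G i)))⁻¹,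
        mem_ker_aux t χ hχ i _⟩ = ofK χ i x
      refine congrArg (ofK χ i) ?_
      ext
      simp only [h1, map_one, inv_one, mul_one]
    · exact h1
  | mul x y hx hy => rw [map_mul, map_mul, hx, hy, map_mul]

include hχ in
theorem kap_injective : Function.Injective (kap t χ) := by
  intro x y hxy
  have h1 := ff_kap t χ hχ x
  rw [hxy, ff_kap] at h1
  exact (SemidirectProduct.inl_injective h1).symm

theorem kap_θ (a : Multiplicative ℤ) (x : CoprodI (Ker χ)) :
    kap t χ (θ t χ a x) = PushoutI.base (fun i => zpowersHom (G i) (t i)) a * kap t χ x *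
      (PushoutI.base (fun i => zpowersHom (G i) (t i)) a)⁻¹ := by
  induction x using CoprodI.induction_on with
  | one => simp
  | of i x =>
    have h0 := θ_of t χ a i x
    have h1 := kap_of t χ i x
    have h2 := kap_of t χ i (MulAut.conjNormal (zpowersHom (G i) (t i) a) x)
    rw [h0, h1, h2, ← PushoutI.of_apply_eq_base (fun i => zpowersHom (G i) (t i)) i a,
      ← map_inv, ← map_mul, ← map_mul, MulAut.conjNormal_apply]
  | mul x y hx hy =>
    rw [map_mul, map_mul, hx, hy, map_mul]
    group

include hχ in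
theorem exists_kap_base (g : Amal t) : ∃ x a,
    g = kap t χ x * PushoutI.base (fun i => zpowersHom (G i) (t i)) a := by
  induction g using PushoutI.induction_on with
  | of i g =>
    refine ⟨ofK χ i ⟨g * (zpowersHom (G i) (t i) (χ i g))⁻¹, mem_ker_aux t χ hχ i g⟩, χ i g, ?_⟩
    rw [kap_of, ← PushoutI.of_apply_eq_base (fun i => zpowersHom (G i) (t i)) i (χ i g), ← map_mul,
      inv_mul_cancel_right]
  | base a => exact ⟨1, a, by simp⟩
  | mul g h hg hh =>
    obtain ⟨x, a, rfl⟩ := hg
    obtain ⟨y, b, rfl⟩ := hh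
    refine ⟨x * θ t χ a y, a * b, ?_⟩
    rw [map_mul, map_mul, kap_θ]
    group

theorem χA_kap (x : CoprodI (Ker χ)) : χA t χ hχ (kap t χ x) = 1 := by
  induction x using CoprodI.induction_on with
  | one => simp
  | of i x =>
    have h0 := kap_of t χ i x
    rw [h0, χA_of]
    exact x.2
  | mul x y hx hy => rw [map_mul, map_mul, hx, hy, one_mul]

theorem kap_range : (kap t χ).range = (χA t χ hχ).ker := by
  apply le_antisymm
  · rintro _ ⟨x, rfl⟩
    exact χA_kap t χ hχ x
  · intro g hg
    obtain ⟨x, a, rfl⟩ := exists_kap_base t χ hχ g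
    rw [MonoidHom.mem_ker, map_mul, χA_kap, one_mul, χA_base] at hg
    rw [hg, map_one, mul_one]
    exact ⟨x, rfl⟩

/-- The kernel of the amalgam is the free product of the kernels. -/
noncomputable def kapE : CoprodI (Ker χ) ≃* (χA t χ hχ).ker :=
  (MonoidHom.ofInjective (kap_injective t χ hχ)).trans
    (MulEquiv.subgroupCongr (kap_range t χ hχ))

theorem kapE_coe (x : CoprodI (Ker χ)) : ((kapE t χ hχ x : (χA t χ hχ).ker) : Amal t) =
    kap t χ x := rfl

/-- **Additivity for amalgams over an infinite cyclic group.** -/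
theorem mnG_amalgam [Fintype ι] : mnG (χA t χ hχ) (tA t) = ∑ i, mnG (χ i) (t i) := by
  have h1 : mnG (χA t χ hχ) (tA t) =
      mn (coprodAut fun i => (MulAut.conjNormal (t i) : Ker χ i ≃* Ker χ i)) := by
    apply mn_eq_of_equiv (kapE t χ hχ)
    intro x
    apply Subtype.ext
    rw [kapE_coe, MulAut.conjNormal_apply, kapE_coe]
    have h2 := kap_θ t χ (Multiplicative.ofAdd 1) x
    have h3 : (θ t χ (Multiplicative.ofAdd 1)) x =
        coprodAut (fun i => (MulAut.conjNormal (t i) : Ker χ i ≃* Ker χ i)) x := by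
      show coprodAut (fun i => (MulAut.conjNormal
        (zpowersHom (G i) (t i) (Multiplicative.ofAdd 1)) : Ker χ i ≃* Ker χ i)) x = _
      have h4 : ∀ i, zpowersHom (G i) (t i) (Multiplicative.ofAdd 1) = t i := by
        intro i
        simp
      simp only [h4]
    rw [h3] at h2
    exact h2
  rw [h1, mn_coprod]
  rfl

end

end Pool.Agent.H84.MN
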