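import Pool.Agent.H84.MN.Fold

/-!
# The initial graph `B ×_{σP} σE` with additional nodes
-/

set_option autoImplicit false
set_option linter.unusedSectionVars false

namespace Pool.Agent.H84.MN

open Subgroup

variable {M : Type*} [Group M] {ι : Type*} 

/-- The hypotheses: `P` is generated by `σ P` and `S`; `E` is a `P`-invariant and `σ`-invariant
connected set of elements of `M` (a subtree of the Bass-Serre tree) with the finite set `nJ j` of
representatives modulo `P`. -/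
structure Core (σ : M ≃* M) (H : ι → Subgroup M) (P : Subgroup M) (S : Finset M) (E : Set M)
    {J : Type*} (nJ : J → M) : Prop where
  nf : UniqNF H
  σH : ∀ i, ∀ h ∈ H i, σ h ∈ H i
  σP : ∀ p ∈ P, σ p ∈ P
  SP : ∀ s ∈ S, s ∈ P
  gen : P ≤ P.map σ.toMonoidHom ⊔ closure (S : Set M)
  PE : ∀ p ∈ P, ∀ e ∈ E, p * e ∈ E
  σE : ∀ e ∈ E, σ e ∈ E
  one : (1 : M) ∈ E
  conn : ∀ e ∈ E, Relation.ReflTransGen (fun x y => y ∈ E ∧ ∃ i, x⁻¹ * y ∈ H i) 1 e
  nJE : ∀ j, nJ j ∈ E
  cov : ∀ e ∈ E, ∃ p ∈ P, ∃ j, e = p * nJ j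
  inj : ∀ j j', ∀ p ∈ P, p * nJ j = nJ j' → j = j'

variable {σ : M ≃* M} {H : ι → Subgroup M} {P : Subgroup M} {S : Finset M} {E : Set M}
  {J : Type*} {nJ : J → M}

/-- A path. -/
structure Pth (H : ι → Subgroup M) (E : Set M) (e : M) where
  len : ℕ
  x : ℕ → M
  i : ℕ → ι
  x_zero : x 0 = 1
  x_len : x len = e
  mem : ∀ t ≤ len, x t ∈ E
  step : ∀ t < len, (x t)⁻¹ * x (t + 1) ∈ H (i t)

theorem Core.path [Nonempty ι] (h : Core σ H P S E nJ) (e : M) (he : e ∈ E) :
    Nonempty (Pth H E e) := by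
  classical
  have h1 := h.conn e he
  clear he
  induction h1 with
  | refl =>
    exact ⟨{ len := 0, x := fun _ => 1, i := fun _ => Classical.arbitrary ι, x_zero := rfl,
             x_len := rfl, mem := fun _ _ => h.one, step := by intro t ht; omega }⟩
  | @tail e e' _ h3 ih =>
    obtain ⟨p⟩ := ih
    obtain ⟨h4, k, h5⟩ := h3
    refine ⟨{ len := p.len + 1, x := fun t => if t ≤ p.len then p.x t else e',
              i := fun t => if t < p.len then p.i t else k, x_zero := ?_, x_len := ?_,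
              mem := ?_, step := ?_ }⟩
    · simp [p.x_zero]
    · simp
    · intro t ht
      split_ifs with h6
      · exact p.mem t h6
      · exact h4
    · intro t ht
      by_cases h6 : t < p.len
      · rw [if_pos h6.le, if_pos (by omega : t + 1 ≤ p.len), if_pos h6]
        exact p.step t h6
      · have h7 : t = p.len := by omega
        subst h7
        rw [if_pos (le_refl _), if_neg (by omega : ¬ p.len + 1 ≤ p.len), if_neg h6, p.x_len]
        exact h5

/-- Iterated steps. -/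
theorem iterate_steps [Fintype ι] {B : Subgroup M} {J₀ : Type*} [Fintype J₀] {n : J₀ → M}
    {V : ι → Set J₀} {Q : ι → J₀ → Subgroup M} {κ : Type*} (T : Finset κ)
    (C : κ → (∀ i, Dat B (H i) n) → Prop)
    (hC : ∀ k D D', Grow V Q D D' → C k D → C k D')
    (step : ∀ k D, ∃ D', Grow V Q D D' ∧ C k D' ∧ pot V Q D' ≤ pot V Q D + 1)
    (D : ∀ i, Dat B (H i) n) :
    ∃ D', Grow V Q D D' ∧ (∀ k ∈ T, C k D') ∧ pot V Q D' ≤ pot V Q D + (T.card : ℤ) := by
  classical
  induction T using Finset.induction_on with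
  | empty => exact ⟨D, Grow.refl D, by simp, by simp⟩
  | insert k T hk ih =>
    obtain ⟨D', h1, h2, h3⟩ := ih
    obtain ⟨D'', h4, h5, h6⟩ := step k D'
    refine ⟨D'', h1.trans h4, ?_, ?_⟩
    · intro k' hk'
      rcases Finset.mem_insert.1 hk' with rfl | hk'
      · exact h5
      · exact hC _ _ _ h4 (h2 k' hk')
    · rw [Finset.card_insert_of_notMem hk]
      push_cast
      linarith

/-- Representatives of the orbits of cosets. -/
theorem exists_reps (P : Subgroup M) (H : Subgroup M) (nJ : J → M) :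
    ∃ (ρ : J → J) (κ : J → M), (∀ j, ρ (ρ j) = ρ j) ∧ (∀ j, κ j ∈ P) ∧
      (∀ j, (nJ j)⁻¹ * κ j * nJ (ρ j) ∈ H) ∧ (∀ j, κ (ρ j) = 1) ∧
      ∀ j j', ∀ p ∈ P, (nJ j)⁻¹ * p * nJ j' ∈ H → ρ j = ρ j' := by
  classical
  let s : Setoid J :=
    { r := fun j j' => ∃ p ∈ P, (nJ j)⁻¹ * p * nJ j' ∈ H
      iseqv := by
        refine ⟨fun j => ⟨1, P.one_mem, by simp⟩, ?_, ?_⟩
        · rintro j j' ⟨p, h1, h2⟩
          refine ⟨p⁻¹, P.inv_mem h1, ?_⟩
          have : (nJ j')⁻¹ * p⁻¹ * nJ j = ((nJ j)⁻¹ * p * nJ j')⁻¹ := by group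
          rw [this]
          exact H.inv_mem h2
        · rintro j j' j'' ⟨p, h1, h2⟩ ⟨q, h3, h4⟩
          refine ⟨p * q, P.mul_mem h1 h3, ?_⟩
          have : (nJ j)⁻¹ * (p * q) * nJ j'' =
              ((nJ j)⁻¹ * p * nJ j') * ((nJ j')⁻¹ * q * nJ j'') := by group
          rw [this]
          exact H.mul_mem h2 h4 }
  let ρ : J → J := fun j => (Quotient.mk s j).out
  have h1 : ∀ j, ∃ p ∈ P, (nJ j)⁻¹ * p * nJ (ρ j) ∈ H := by
    intro j
    have : s.r j (ρ j) := s.symm (Quotient.mk_out (s := s) j)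
    exact this
  have h2 : ∀ j, ρ (ρ j) = ρ j := by
    intro j
    show (Quotient.mk s (Quotient.mk s j).out).out = (Quotient.mk s j).out
    rw [Quotient.out_eq]
  choose κ h3 h4 using h1
  refine ⟨ρ, fun j => if ρ j = j then 1 else κ j, h2, ?_, ?_, ?_, ?_⟩
  · intro j
    dsimp only
    split_ifs
    · exact P.one_mem
    · exact h3 j
  · intro j
    dsimp only
    split_ifs with h
    · rw [h]
      simp
    · exact h4 j
  · intro j
    dsimp only
    rw [if_pos (h2 j)]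
  · intro j j' p hp hj
    have : Quotient.mk s j = Quotient.mk s j' := Quotient.sound ⟨p, hp, hj⟩
    show (Quotient.mk s j).out = (Quotient.mk s j').out
    rw [this]

/-- Full data: the stabilisers. -/
theorem Dat.St_le {B H : Subgroup M} {J₀ : Type*} {n : J₀ → M} {V : Set J₀}
    {Q : J₀ → Subgroup M} (D : Dat B H n)
    (hfull : ∀ x y : B × J₀, (pt n x)⁻¹ * pt n y ∈ H → D.rel V Q x y) {w : J₀}
    (hw : D.a w = w) : St B H (n w) ≤ D.S V Q w := by
  rintro h ⟨h1, h2⟩
  have h3 := D.βH w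
  rw [hw] at h3
  have h4 : D.β w * h * (D.β w)⁻¹ ∈ B := B.mul_mem (B.mul_mem (D.βB w) h1) (B.inv_mem (D.βB w))
  have h5 := hfull (1, w) (⟨_, h4⟩, w) (by
    simp only [pt, OneMemClass.coe_one, one_mul]
    have : (n w)⁻¹ * (D.β w * h * (D.β w)⁻¹ * n w) = ((n w)⁻¹ * D.β w * n w) *
        ((n w)⁻¹ * h * n w) * ((n w)⁻¹ * D.β w * n w)⁻¹ := by group
    rw [this]
    exact H.mul_mem (H.mul_mem h3 h2) (H.inv_mem h3))
  obtain ⟨-, h6⟩ := h5
  simp only [hw, OneMemClass.coe_one, one_mul] at h6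
  have : (D.β w)⁻¹ * (D.β w * h * (D.β w)⁻¹ * D.β w) = h := by group
  rw [this] at h6
  exact h6

end Pool.Agent.H84.MN
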