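import Pool.Agent.H84.MN.Coprod

/-!
# Circular decompositions
-/

set_option autoImplicit false

namespace Pool.Agent.H84.MN

open Subgroup Monoid

variable {N : Type*} [Group N]

/-- A circular decomposition of `(N, σ)`: finitely generated subgroups `A ≤ W` of `N` with
`σ(A) ≤ W`, such that the translates `σ^k(W)`, `k ∈ ℤ`, generate `N`, `W` is generated by `A` and
at most `m₁` elements, and `W` is generated by `σ(A)` and at most `m₃` elements. -/
def HasCirc (σ : N ≃* N) (m₁ m₃ : ℕ) : Prop :=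
  ∃ A W : Subgroup N, A.FG ∧ W.FG ∧ A ≤ W ∧ A.map σ.toMonoidHom ≤ W ∧
    closure {y | ∃ k : ℕ, ∃ w ∈ W, y = σ^[k] w ∨ y = σ.symm^[k] w} = ⊤ ∧
    (∃ S : Finset N, S.card ≤ m₁ ∧ W = A ⊔ closure (S : Set N)) ∧
    ∃ S : Finset N, S.card ≤ m₃ ∧ W = A.map σ.toMonoidHom ⊔ closure (S : Set N)

/-- The least value of `2 (m₁ + m₃)` over all circular decompositions. -/
noncomputable def mn (σ : N ≃* N) : ℕ∞ :=
  ⨅ (m₁ : ℕ) (m₃ : ℕ) (_ : HasCirc σ m₁ m₃), ((2 * (m₁ + m₃) : ℕ) : ℕ∞)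

theorem iter_symm (σ : N ≃* N) (k : ℕ) (x : N) : σ^[k] (σ.symm^[k] x) = x := by
  induction k generalizing x with
  | zero => rfl
  | succ k ih =>
    rw [Function.iterate_succ_apply, Function.iterate_succ_apply', MulEquiv.apply_symm_apply, ih]

theorem map_symm_map (σ : N ≃* N) (A : Subgroup N) :
    (A.map σ.toMonoidHom).map σ.symm.toMonoidHom = A := by
  rw [Subgroup.map_map]
  have : σ.symm.toMonoidHom.comp σ.toMonoidHom = MonoidHom.id N := by
    ext x
    simp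
  rw [this, Subgroup.map_id]

theorem HasCirc.symm {σ : N ≃* N} {m₁ m₃ : ℕ} (h : HasCirc σ m₁ m₃) : HasCirc σ.symm m₃ m₁ := by
  classical
  obtain ⟨A, W, ⟨X, hX⟩, h2, h3, h4, h5, ⟨S, h6, h7⟩, T, h8, h9⟩ := h
  refine ⟨A.map σ.toMonoidHom, W, ⟨X.image σ, ?_⟩, h2, h4, ?_, ?_, ⟨T, h8, h9⟩, S, h6, ?_⟩
  · rw [Finset.coe_image, ← hX, MonoidHom.map_closure]
    rfl
  · rw [map_symm_map]
    exact h3
  · rw [← h5]
    congr 1
    ext y
    constructor
    · rintro ⟨k, w, hw, hy⟩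
      exact ⟨k, w, hw, hy.symm⟩
    · rintro ⟨k, w, hw, hy⟩
      exact ⟨k, w, hw, hy.symm⟩
  · rw [map_symm_map]
    exact h7

theorem HasCirc.c_le {σ : N ≃* N} {m₁ m₃ : ℕ} (h : HasCirc σ m₁ m₃) : c σ ≤ m₃ := by
  classical
  obtain ⟨A, W, h1, ⟨X, hX⟩, h3, h4, h5, -, T, h8, h9⟩ := h
  set P : Subgroup N := closure {y | ∃ k : ℕ, ∃ x ∈ X, y = σ^[k] x} with hP
  have hσP : ∀ p ∈ P, σ p ∈ P := by
    have : P ≤ P.comap σ.toMonoidHom := by
      conv_lhs => rw [hP]
      rw [closure_le]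
      rintro _ ⟨k, x, hx, rfl⟩
      apply Subgroup.subset_closure
      exact ⟨k + 1, x, hx, by rw [Function.iterate_succ_apply']; rfl⟩
    exact this
  have hWP : W ≤ P := by
    rw [← hX, closure_le]
    intro x hx
    exact Subgroup.subset_closure ⟨0, x, hx, rfl⟩
  refine MN.c_le (P := P) ⟨⟨X, rfl⟩, ?_⟩ ⟨T, h8, ?_⟩
  · -- exhaustion
    let Q : Subgroup N :=
      { carrier := {n | ∃ k : ℕ, σ^[k] n ∈ P}
        mul_mem' := by
          rintro a b ⟨k, hk⟩ ⟨l, hl⟩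
          refine ⟨max k l, ?_⟩
          rw [iterate_map_mul]
          exact P.mul_mem (σ_iter_mem hσP hk (le_max_left _ _))
            (σ_iter_mem hσP hl (le_max_right _ _))
        one_mem' := ⟨0, P.one_mem⟩
        inv_mem' := by
          rintro a ⟨k, hk⟩
          refine ⟨k, ?_⟩
          rw [iterate_map_inv]
          exact P.inv_mem hk }
    have hQ : (⊤ : Subgroup N) ≤ Q := by
      rw [← h5, closure_le]
      rintro y ⟨k, w, hw, rfl | rfl⟩
      · exact ⟨0, σ_iter_mem hσP (k := 0) (hWP hw) (Nat.zero_le k)⟩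
      · refine ⟨k, ?_⟩
        rw [iter_symm]
        exact hWP hw
    exact fun n => hQ (Subgroup.mem_top n)
  · apply le_antisymm
    · conv_lhs => rw [hP]
      rw [closure_le]
      rintro _ ⟨k, x, hx, rfl⟩
      cases k with
      | zero =>
        have h10 : x ∈ W := by
          rw [← hX]
          exact Subgroup.subset_closure hx
        rw [h9] at h10
        have h11 : A.map σ.toMonoidHom ⊔ closure (T : Set N) ≤
            P.map σ.toMonoidHom ⊔ closure (T : Set N) :=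
          sup_le_sup_right (Subgroup.map_mono (h3.trans hWP)) _
        exact h11 h10
      | succ k =>
        apply Subgroup.mem_sup_left
        refine ⟨σ^[k] x, Subgroup.subset_closure ⟨k, x, hx, rfl⟩, ?_⟩
        rw [Function.iterate_succ_apply']
        rfl
    · refine sup_le ?_ ?_
      · rintro _ ⟨p, hp, rfl⟩
        exact hσP p hp
      · refine le_trans ?_ hWP
        rw [h9]
        exact le_sup_right

/-- The groups generated by `σ^j(Y)`, `j ≤ K`. -/
def Wf (σ : N ≃* N) (Y : Finset N) (K : ℕ) : Subgroup N :=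
  closure {y | ∃ j : ℕ, j ≤ K ∧ ∃ x ∈ Y, y = σ^[j] x}

theorem Wf_mono (σ : N ≃* N) (Y : Finset N) {K L : ℕ} (h : K ≤ L) : Wf σ Y K ≤ Wf σ Y L :=
  Subgroup.closure_mono fun _ ⟨j, hj, x, hx, hy⟩ => ⟨j, hj.trans h, x, hx, hy⟩

theorem Wf_fg (σ : N ≃* N) (Y : Finset N) (K : ℕ) : (Wf σ Y K).FG := by
  classical
  refine ⟨(Finset.range (K + 1) ×ˢ Y).image fun q => σ^[q.1] q.2, ?_⟩
  rw [Wf]
  congr 1
  ext y
  simp only [Finset.coe_image, Set.mem_image, Finset.mem_coe, Finset.mem_product,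
    Finset.mem_range, Prod.exists, Set.mem_ofPred_eq]
  constructor
  · rintro ⟨j, x, ⟨hj, hx⟩, rfl⟩
    exact ⟨j, by omega, x, hx, rfl⟩
  · rintro ⟨j, hj, x, hx, rfl⟩
    exact ⟨j, x, ⟨by omega, hx⟩, rfl⟩

theorem mem_closure_iff_Wf (σ : N ≃* N) (Y : Finset N) {n : N} :
    n ∈ closure {y | ∃ k : ℕ, ∃ x ∈ Y, y = σ^[k] x} ↔ ∃ K, n ∈ Wf σ Y K := by
  constructor
  · intro hn
    have hdir : Directed (· ≤ ·) (Wf σ Y) := by
      intro K L
      exact ⟨max K L, Wf_mono σ Y (le_max_left _ _), Wf_mono σ Y (le_max_right _ _)⟩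
    have h1 : closure {y | ∃ k : ℕ, ∃ x ∈ Y, y = σ^[k] x} ≤ ⨆ K, Wf σ Y K := by
      rw [closure_le]
      rintro _ ⟨k, x, hx, rfl⟩
      exact (le_iSup (Wf σ Y) k) (Subgroup.subset_closure ⟨k, le_refl _, x, hx, rfl⟩)
    exact (Subgroup.mem_iSup_of_directed hdir).1 (h1 hn)
  · rintro ⟨K, hK⟩
    refine Subgroup.closure_mono ?_ hK
    rintro _ ⟨j, _, x, hx, hy⟩
    exact ⟨j, x, hx, hy⟩

theorem Wf_map_le (σ : N ≃* N) (Y : Finset N) (K : ℕ) :
    (Wf σ Y K).map σ.toMonoidHom ≤ Wf σ Y (K + 1) := by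
  rw [Wf, MonoidHom.map_closure, closure_le]
  rintro _ ⟨_, ⟨j, hj, x, hx, rfl⟩, rfl⟩
  apply Subgroup.subset_closure
  refine ⟨j + 1, by omega, x, hx, ?_⟩
  rw [Function.iterate_succ_apply']
  rfl

/-- For large `K` the relative rank of `P` is attained by `Wf σ Y K`. -/
theorem Wf_stable (σ : N ≃* N) (Y S : Finset N) {P : Subgroup N}
    (hP : P = closure {y | ∃ k : ℕ, ∃ x ∈ Y, y = σ^[k] x})
    (hS : P = P.map σ.toMonoidHom ⊔ closure (S : Set N)) :
    ∃ K₀, ∀ K ≥ K₀, Wf σ Y (K + 1) = (Wf σ Y K).map σ.toMonoidHom ⊔ closure (S : Set N) := by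
  classical
  have hSP : ∀ s ∈ S, ∃ K, s ∈ Wf σ Y K := by
    intro s hs
    rw [← mem_closure_iff_Wf, ← hP, hS]
    exact Subgroup.mem_sup_right (Subgroup.subset_closure hs)
  have hYP : ∀ y ∈ Y, ∃ K, y ∈ (Wf σ Y K).map σ.toMonoidHom ⊔ closure (S : Set N) := by
    intro y hy
    have h1 : y ∈ P := by
      rw [hP]
      exact Subgroup.subset_closure ⟨0, y, hy, rfl⟩
    rw [hS] at h1
    have h2 : P.map σ.toMonoidHom ⊔ closure (S : Set N) ≤
        ⨆ K, ((Wf σ Y K).map σ.toMonoidHom ⊔ closure (S : Set N)) := by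
      refine sup_le ?_ ?_
      · rintro _ ⟨p, hp, rfl⟩
        rw [SetLike.mem_coe, hP, mem_closure_iff_Wf] at hp
        obtain ⟨K, hK⟩ := hp
        exact (le_iSup (fun K => (Wf σ Y K).map σ.toMonoidHom ⊔ closure (S : Set N)) K)
          (Subgroup.mem_sup_left ⟨p, hK, rfl⟩)
      · exact le_trans le_sup_right
          (le_iSup (fun K => (Wf σ Y K).map σ.toMonoidHom ⊔ closure (S : Set N)) 0)
    have hdir : Directed (· ≤ ·)
        (fun K => (Wf σ Y K).map σ.toMonoidHom ⊔ closure (S : Set N)) := by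
      intro K L
      exact ⟨max K L, sup_le_sup_right (Subgroup.map_mono (Wf_mono σ Y (le_max_left _ _))) _,
        sup_le_sup_right (Subgroup.map_mono (Wf_mono σ Y (le_max_right _ _))) _⟩
    exact (Subgroup.mem_iSup_of_directed hdir).1 (h2 h1)
  choose! a ha using hSP
  choose! b hb using hYP
  refine ⟨max (S.sup a) (Y.sup b), fun K hK => ?_⟩
  apply le_antisymm
  · conv_lhs => rw [Wf]
    rw [closure_le]
    rintro _ ⟨j, hj, x, hx, rfl⟩
    cases j with
    | zero =>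
      have h1 : b x ≤ K := (Finset.le_sup hx).trans ((le_max_right _ _).trans hK)
      exact (sup_le_sup_right (Subgroup.map_mono (Wf_mono σ Y h1)) _) (hb x hx)
    | succ j =>
      apply Subgroup.mem_sup_left
      refine ⟨σ^[j] x, Subgroup.subset_closure ⟨j, by omega, x, hx, rfl⟩, ?_⟩
      rw [Function.iterate_succ_apply']
      rfl
  · refine sup_le (Wf_map_le σ Y K) ?_
    rw [closure_le]
    intro s hs
    have h1 : a s ≤ K := (Finset.le_sup hs).trans ((le_max_left _ _).trans hK)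
    exact Wf_mono σ Y (h1.trans (Nat.le_succ K)) (ha s hs)

/-- `σ^k` as an automorphism. -/
def itE (σ : N ≃* N) : ℕ → (N ≃* N)
  | 0 => MulEquiv.refl N
  | k + 1 => (itE σ k).trans σ

theorem itE_apply (σ : N ≃* N) (k : ℕ) (x : N) : itE σ k x = σ^[k] x := by
  induction k with
  | zero => rfl
  | succ k ih =>
    rw [Function.iterate_succ_apply', ← ih]
    rfl

theorem iter_symm_of_le (σ : N ≃* N) {j K : ℕ} (h : j ≤ K) (x : N) :
    σ^[K] (σ.symm^[j] x) = σ^[K - j] x := by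
  have : K = (K - j) + j := by omega
  conv_lhs => rw [this]
  rw [Function.iterate_add_apply, iter_symm]

theorem Wf_symm (σ : N ≃* N) (Y : Finset N) (K : ℕ) :
    (Wf σ.symm Y K).map (itE σ K).toMonoidHom = Wf σ Y K := by
  rw [Wf, MonoidHom.map_closure, Wf]
  congr 1
  ext y
  constructor
  · rintro ⟨_, ⟨j, hj, x, hx, rfl⟩, rfl⟩
    refine ⟨K - j, by omega, x, hx, ?_⟩
    show itE σ K (σ.symm^[j] x) = _
    rw [itE_apply, iter_symm_of_le σ hj]
  · rintro ⟨j, hj, x, hx, rfl⟩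
    refine ⟨σ.symm^[K - j] x, ⟨K - j, by omega, x, hx, rfl⟩, ?_⟩
    show itE σ K (σ.symm^[K - j] x) = _
    rw [itE_apply, iter_symm_of_le σ (by omega)]
    congr 2
    omega

end Pool.Agent.H84.MN
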