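import Pool.Agent.H84.MN.Circ

/-!
# Circular decompositions: existence; additivity
-/

set_option autoImplicit false

namespace Pool.Agent.H84.MN

open Subgroup Monoid

variable {N : Type*} [Group N]

theorem comm_symm (σ : N ≃* N) (k a : ℕ) (x : N) :
    σ^[k] (σ.symm^[a] x) = σ.symm^[a] (σ^[k] x) := by
  have h : Function.Commute σ σ.symm := fun x => by simp
  exact h.iterate_iterate k a x

/-- Changing the half by a power of `σ` and enlarging the set of generators. -/
theorem shift_half (σ : N ≃* N) {P : Subgroup N} {X : Finset N} (S : Finset N)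
    (hX : P = closure {y | ∃ k : ℕ, ∃ x ∈ X, y = σ^[k] x})
    (hS : P = P.map σ.toMonoidHom ⊔ closure (S : Set N)) (a : ℕ) (Y : Finset N)
    (hXY : ∀ x ∈ X, σ.symm^[a] x ∈ Y)
    (hY : ∀ y ∈ Y, σ^[a] y ∈ P) :
    ∃ S₁ : Finset N, S₁.card ≤ S.card ∧
      (closure {y | ∃ k : ℕ, ∃ x ∈ Y, y = σ^[k] x} : Subgroup N) =
        (closure {y | ∃ k : ℕ, ∃ x ∈ Y, y = σ^[k] x} : Subgroup N).map σ.toMonoidHom ⊔
          closure (S₁ : Set N) ∧
      ∀ p ∈ P, σ.symm^[a] p ∈ closure {y | ∃ k : ℕ, ∃ x ∈ Y, y = σ^[k] x} := by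
  classical
  have hσP : ∀ p ∈ P, σ p ∈ P := by
    intro p hp
    rw [hS]
    exact Subgroup.mem_sup_left ⟨p, hp, rfl⟩
  have h1 : (closure {y | ∃ k : ℕ, ∃ x ∈ Y, y = σ^[k] x} : Subgroup N) =
      P.map (itE σ.symm a).toMonoidHom := by
    apply le_antisymm
    · rw [closure_le]
      rintro _ ⟨k, y, hy, rfl⟩
      refine ⟨σ^[k] (σ^[a] y), ?_, ?_⟩
      · exact σ_iter_mem hσP (k := 0) (hY y hy) (Nat.zero_le k)
      · show itE σ.symm a (σ^[k] (σ^[a] y)) = σ^[k] y
        rw [itE_apply, ← comm_symm]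
        congr 1
        exact iter_symm σ.symm a y
    · conv_lhs => rw [hX]
      rw [MonoidHom.map_closure, closure_le]
      rintro _ ⟨_, ⟨k, x, hx, rfl⟩, rfl⟩
      apply Subgroup.subset_closure
      refine ⟨k, _, hXY x hx, ?_⟩
      show itE σ.symm a (σ^[k] x) = _
      rw [itE_apply, comm_symm]
  refine ⟨S.image (itE σ.symm a), Finset.card_image_le, ?_, ?_⟩
  · rw [h1]
    conv_lhs => rw [hS]
    rw [Subgroup.map_sup, MonoidHom.map_closure, Subgroup.map_map, Subgroup.map_map,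
      Finset.coe_image]
    congr 1
    congr 1
    ext x
    show itE σ.symm a (σ x) = σ (itE σ.symm a x)
    rw [itE_apply, itE_apply]
    exact (comm_symm σ 1 a x).symm
  · intro p hp
    rw [h1]
    exact ⟨p, hp, itE_apply σ.symm a p⟩

theorem exists_circ {σ : N ≃* N} {P P' : Subgroup N} {m₁ m₃ : ℕ} (h1 : IsHalf σ P)
    (h2 : RelGen σ P m₃) (h3 : IsHalf σ.symm P') (h4 : RelGen σ.symm P' m₁) :
    HasCirc σ m₁ m₃ := by
  classical
  obtain ⟨⟨X, hX⟩, hcof⟩ := h1
  obtain ⟨S, hS, hS'⟩ := h2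
  obtain ⟨⟨X', hX'⟩, hcof'⟩ := h3
  obtain ⟨T, hT, hT'⟩ := h4
  have hσP : ∀ p ∈ P, σ p ∈ P := by
    intro p hp
    rw [hS']
    exact Subgroup.mem_sup_left ⟨p, hp, rfl⟩
  have hσP' : ∀ p ∈ P', σ.symm p ∈ P' := by
    intro p hp
    rw [hT']
    exact Subgroup.mem_sup_left ⟨p, hp, rfl⟩
  choose k hk using hcof
  choose k' hk' using hcof'
  set a := max (X'.sup k) (X.sup k') with ha
  have h5 : ∀ x ∈ X', σ^[a] (σ^[a] x) ∈ P := by
    intro x hx
    rw [← Function.iterate_add_apply]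
    exact σ_iter_mem hσP (hk x)
      (((Finset.le_sup hx).trans (le_max_left _ _)).trans (Nat.le_add_left _ _))
  have h6 : ∀ x ∈ X, σ.symm^[a] (σ.symm^[a] x) ∈ P' := by
    intro x hx
    rw [← Function.iterate_add_apply]
    exact σ_iter_mem hσP' (hk' x)
      (((Finset.le_sup hx).trans (le_max_right _ _)).trans (Nat.le_add_left _ _))
  have hXP : ∀ x ∈ X, x ∈ P := by
    intro x hx
    rw [hX]
    exact Subgroup.subset_closure ⟨0, x, hx, rfl⟩
  have hXP' : ∀ x ∈ X', x ∈ P' := by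
    intro x hx
    rw [hX']
    exact Subgroup.subset_closure ⟨0, x, hx, rfl⟩
  set Y : Finset N := X.image (σ.symm^[a]) ∪ X'.image (σ^[a]) with hY
  obtain ⟨S₁, s1, s2, s3⟩ := shift_half σ S hX hS' a Y
    (fun x hx => Finset.mem_union_left _ (Finset.mem_image_of_mem _ hx)) (by
      intro y hy
      rcases Finset.mem_union.1 hy with hy | hy
      · obtain ⟨x, hx, rfl⟩ := Finset.mem_image.1 hy
        rw [iter_symm]
        exact hXP x hx
      · obtain ⟨x, hx, rfl⟩ := Finset.mem_image.1 hy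
        exact h5 x hx)
  obtain ⟨T₁, t1, t2, t3⟩ := shift_half σ.symm T hX' hT' a Y
    (fun x hx => Finset.mem_union_right _ (Finset.mem_image_of_mem _ hx)) (by
      intro y hy
      rcases Finset.mem_union.1 hy with hy | hy
      · obtain ⟨x, hx, rfl⟩ := Finset.mem_image.1 hy
        exact h6 x hx
      · obtain ⟨x, hx, rfl⟩ := Finset.mem_image.1 hy
        have := iter_symm σ.symm a x
        rw [MulEquiv.symm_symm] at this
        rw [this]
        exact hXP' x hx)
  obtain ⟨K₁, g1⟩ := Wf_stable σ Y S₁ rfl s2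
  obtain ⟨K₂, g2⟩ := Wf_stable σ.symm Y T₁ rfl t2
  set K := max K₁ K₂ with hK
  have g3 := g1 K (le_max_left _ _)
  have g4 := g2 K (le_max_right _ _)
  refine ⟨Wf σ Y K, Wf σ Y (K + 1), Wf_fg σ Y K, Wf_fg σ Y (K + 1), Wf_mono σ Y (Nat.le_succ K),
    Wf_map_le σ Y K, ?_, ⟨T₁.image (itE σ (K + 1)), ?_, ?_⟩, ⟨S₁, s1.trans hS, g3⟩⟩
  · -- generation
    set C : Subgroup N :=
      closure {y | ∃ k : ℕ, ∃ w ∈ Wf σ Y (K + 1), y = σ^[k] w ∨ y = σ.symm^[k] w} with hC
    have c1 : ∀ z ∈ C, σ z ∈ C := by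
      have : C ≤ C.comap σ.toMonoidHom := by
        conv_lhs => rw [hC]
        rw [closure_le]
        rintro z ⟨k, w, hw, rfl | rfl⟩
        · apply Subgroup.subset_closure
          refine ⟨k + 1, w, hw, Or.inl ?_⟩
          rw [Function.iterate_succ_apply']
          rfl
        · apply Subgroup.subset_closure
          cases k with
          | zero => exact ⟨1, w, hw, Or.inl rfl⟩
          | succ k =>
            refine ⟨k, w, hw, Or.inr ?_⟩
            show σ (σ.symm^[k + 1] w) = _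
            rw [Function.iterate_succ_apply', MulEquiv.apply_symm_apply]
      exact this
    have c2 : ∀ z ∈ C, σ.symm z ∈ C := by
      have : C ≤ C.comap σ.symm.toMonoidHom := by
        conv_lhs => rw [hC]
        rw [closure_le]
        rintro z ⟨k, w, hw, rfl | rfl⟩
        · apply Subgroup.subset_closure
          cases k with
          | zero => exact ⟨1, w, hw, Or.inr rfl⟩
          | succ k =>
            refine ⟨k, w, hw, Or.inl ?_⟩
            show σ.symm (σ^[k + 1] w) = _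
            rw [Function.iterate_succ_apply', MulEquiv.symm_apply_apply]
        · apply Subgroup.subset_closure
          refine ⟨k + 1, w, hw, Or.inr ?_⟩
          rw [Function.iterate_succ_apply']
          rfl
      exact this
    have c3 : ∀ y ∈ Y, y ∈ C := fun y hy => Subgroup.subset_closure
      ⟨0, y, Subgroup.subset_closure ⟨0, Nat.zero_le _, y, hy, rfl⟩, Or.inl rfl⟩
    have c4 : closure {y | ∃ k : ℕ, ∃ x ∈ Y, y = σ^[k] x} ≤ C := by
      rw [closure_le]
      rintro _ ⟨k, x, hx, rfl⟩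
      exact σ_iter_mem (σ := σ) c1 (k := 0) (c3 x hx) (Nat.zero_le k)
    rw [eq_top_iff]
    intro n _
    have c5 := c4 (s3 _ (hk n))
    have c6 := σ_iter_mem (σ := σ) c1 (k := 0) c5 (Nat.zero_le a)
    rw [iter_symm] at c6
    have c7 := σ_iter_mem (σ := σ.symm) c2 (k := 0) c6 (Nat.zero_le (k n))
    have c8 := iter_symm σ.symm (k n) n
    rw [MulEquiv.symm_symm] at c8
    rw [c8] at c7
    exact c7
  · exact Finset.card_image_le.trans (t1.trans hT)
  · have g5 := congrArg (Subgroup.map (itE σ (K + 1)).toMonoidHom) g4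
    rw [Wf_symm, Subgroup.map_sup, MonoidHom.map_closure, Subgroup.map_map] at g5
    have g6 : (itE σ (K + 1)).toMonoidHom.comp σ.symm.toMonoidHom = (itE σ K).toMonoidHom := by
      ext x
      show itE σ (K + 1) (σ.symm x) = itE σ K x
      rw [itE_apply, itE_apply, Function.iterate_succ_apply, MulEquiv.apply_symm_apply]
    rw [g6, Wf_symm] at g5
    rw [Finset.coe_image]
    exact g5

theorem mn_le {σ : N ≃* N} {m₁ m₃ : ℕ} (h : HasCirc σ m₁ m₃) :
    mn σ ≤ ((2 * (m₁ + m₃) : ℕ) : ℕ∞) := by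
  rw [mn]
  exact (iInf_le _ m₁).trans ((iInf_le _ m₃).trans (iInf_le _ h))

/-- The minimum over circular decompositions in terms of the two one-sided invariants. -/
theorem mn_eq (σ : N ≃* N) : mn σ = 2 * (c σ.symm + c σ) := by
  apply le_antisymm
  · by_cases h1 : c σ = ⊤
    · rw [h1, add_top]
      simp
    by_cases h2 : c σ.symm = ⊤
    · rw [h2, top_add]
      simp
    obtain ⟨m₃, e3, P, p1, p2⟩ := exists_of_c_ne_top h1
    obtain ⟨m₁, e1, P', p3, p4⟩ := exists_of_c_ne_top h2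
    refine (mn_le (exists_circ p1 p2 p3 p4)).trans ?_
    rw [e3, e1]
    push_cast
    exact le_refl _
  · rw [mn]
    refine le_iInf fun m₁ => le_iInf fun m₃ => le_iInf fun h => ?_
    have h1 := h.c_le
    have h2 := h.symm.c_le
    calc 2 * (c σ.symm + c σ) ≤ 2 * ((m₁ : ℕ∞) + m₃) := by gcongr
      _ = _ := by push_cast; rfl

theorem coprodAut_symm {ι : Type*} {N : ι → Type*} [∀ i, Group (N i)] (σ : ∀ i, N i ≃* N i) :
    (coprodAut σ).symm = coprodAut fun i => (σ i).symm := rfl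

/-- **Additivity.** -/
theorem mn_coprod {ι : Type*} [Fintype ι] {N : ι → Type*} [∀ i, Group (N i)]
    (σ : ∀ i, N i ≃* N i) : mn (coprodAut σ) = ∑ i, mn (σ i) := by
  rw [mn_eq, coprodAut_symm, c_coprod, c_coprod, ← Finset.sum_add_distrib, Finset.mul_sum]
  exact Finset.sum_congr rfl fun i _ => (mn_eq (σ i)).symm

/-- Transport along an equivariant isomorphism. -/
theorem mn_eq_of_equiv {N' : Type*} [Group N'] (f : N ≃* N') {σ : N ≃* N} {τ : N' ≃* N'}
    (hf : ∀ n, f (σ n) = τ (f n)) : mn τ = mn σ := by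
  rw [mn_eq, mn_eq, c_eq_of_equiv f hf, c_eq_of_equiv f (σ := σ.symm) (τ := τ.symm) (by
    intro n
    apply τ.injective
    rw [← hf, MulEquiv.apply_symm_apply, MulEquiv.apply_symm_apply])]

end Pool.Agent.H84.MN
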