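import Pool.Agent.H84.MN.Amalgam

/-!
# Independence of the meridian; vanishing
-/

set_option autoImplicit false

namespace Pool.Agent.H84.MN

open Subgroup Monoid

variable {N : Type*} [Group N]

/-- The automorphism `x ↦ n σ(x) n⁻¹`. -/
def twist (σ : N ≃* N) (n : N) : N ≃* N := σ.trans (MulAut.conj n)

theorem twist_apply (σ : N ≃* N) (n x : N) : twist σ n x = n * σ x * n⁻¹ := rfl

theorem c_twist_le (σ : N ≃* N) (n : N) : c (twist σ n) ≤ c σ := by
  classical
  by_cases h : c σ = ⊤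
  · rw [h]
    exact le_top
  obtain ⟨m, hm, P, ⟨⟨X, hX⟩, hcof⟩, S, hS, hS'⟩ := exists_of_c_ne_top h
  rw [hm]
  obtain ⟨a, ha⟩ := hcof n
  have hσP : ∀ p ∈ P, σ p ∈ P := by
    intro p hp
    rw [hS']
    exact Subgroup.mem_sup_left ⟨p, hp, rfl⟩
  have hXP : ∀ x ∈ X, x ∈ P := by
    intro x hx
    rw [hX]
    exact Subgroup.subset_closure ⟨0, x, hx, rfl⟩
  -- a half which contains `n`
  set Y : Finset N := insert n (X.image (σ.symm^[a])) with hY
  obtain ⟨S₁, s1, s2, s3⟩ := shift_half σ S hX hS' a Y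
    (fun x hx => Finset.mem_insert_of_mem (Finset.mem_image_of_mem _ hx)) (by
      intro y hy
      rcases Finset.mem_insert.1 hy with rfl | hy
      · exact ha
      · obtain ⟨x, hx, rfl⟩ := Finset.mem_image.1 hy
        rw [iter_symm]
        exact hXP x hx)
  set Q : Subgroup N := closure {y | ∃ k : ℕ, ∃ x ∈ Y, y = σ^[k] x} with hQ
  have hn : n ∈ Q := Subgroup.subset_closure ⟨0, n, Finset.mem_insert_self _ _, rfl⟩
  have hσQ : ∀ q ∈ Q, σ q ∈ Q := by
    intro q hq
    rw [s2]
    exact Subgroup.mem_sup_left ⟨q, hq, rfl⟩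
  have hτQ : ∀ q ∈ Q, twist σ n q ∈ Q := by
    intro q hq
    rw [twist_apply]
    exact Q.mul_mem (Q.mul_mem hn (hσQ q hq)) (Q.inv_mem hn)
  refine c_le (P := Q) ⟨⟨Y, ?_⟩, ?_⟩ ⟨S₁.image fun s => n * s * n⁻¹, ?_, ?_⟩
  · -- generation
    set C : Subgroup N := closure {y | ∃ k : ℕ, ∃ x ∈ Y, y = (twist σ n)^[k] x} with hC
    have c0 : n ∈ C := Subgroup.subset_closure ⟨0, n, Finset.mem_insert_self _ _, rfl⟩
    have c1 : ∀ z ∈ C, twist σ n z ∈ C := by
      have : C ≤ C.comap (twist σ n).toMonoidHom := by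
        conv_lhs => rw [hC]
        rw [closure_le]
        rintro _ ⟨k, x, hx, rfl⟩
        apply Subgroup.subset_closure
        exact ⟨k + 1, x, hx, by rw [Function.iterate_succ_apply']; rfl⟩
      exact this
    have c2 : ∀ z ∈ C, σ z ∈ C := by
      intro z hz
      have h1 : σ z = n⁻¹ * twist σ n z * n := by
        rw [twist_apply]
        group
      rw [h1]
      exact C.mul_mem (C.mul_mem (C.inv_mem c0) (c1 z hz)) c0
    apply le_antisymm
    · rw [hQ, closure_le]
      rintro _ ⟨k, x, hx, rfl⟩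
      exact σ_iter_mem c2 (k := 0) (Subgroup.subset_closure ⟨0, x, hx, rfl⟩) (Nat.zero_le k)
    · rw [hC, closure_le]
      rintro _ ⟨k, x, hx, rfl⟩
      exact σ_iter_mem hτQ (k := 0) (Subgroup.subset_closure ⟨0, x, hx, rfl⟩) (Nat.zero_le k)
  · -- exhaustion
    intro z
    have h1 : ∀ k : ℕ, ∃ q ∈ Q, (twist σ n)^[k] z = q * σ^[k] z * q⁻¹ := by
      intro k
      induction k with
      | zero => exact ⟨1, Q.one_mem, by simp⟩
      | succ k ih =>
        obtain ⟨q, hq, hq'⟩ := ih
        refine ⟨n * σ q, Q.mul_mem hn (hσQ q hq), ?_⟩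
        rw [Function.iterate_succ_apply', hq', twist_apply, Function.iterate_succ_apply']
        simp only [map_mul, map_inv]
        group
    obtain ⟨k, hk⟩ := hcof (σ^[a] z)
    have h2 := s3 _ hk
    rw [← comm_symm, ] at h2
    have h3 : σ.symm^[a] (σ^[a] z) = z := iter_symm σ.symm a z
    rw [h3] at h2
    obtain ⟨q, hq, hq'⟩ := h1 k
    refine ⟨k, ?_⟩
    rw [hq']
    exact Q.mul_mem (Q.mul_mem hq h2) (Q.inv_mem hq)
  · exact Finset.card_image_le.trans (s1.trans hS)
  · apply le_antisymm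
    · intro q hq
      have h1 : n⁻¹ * q * n ∈ Q := Q.mul_mem (Q.mul_mem (Q.inv_mem hn) hq) hn
      rw [s2] at h1
      have h2 : Q.map σ.toMonoidHom ⊔ closure (S₁ : Set N) ≤
          (Q.map (twist σ n).toMonoidHom ⊔
            closure ((S₁.image fun s => n * s * n⁻¹ : Finset N) : Set N)).comap
            (MulAut.conj n).toMonoidHom := by
        refine sup_le ?_ ?_
        · rintro _ ⟨z, hz, rfl⟩
          exact Subgroup.mem_sup_left ⟨z, hz, rfl⟩
        · rw [closure_le]
          intro s hs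
          apply Subgroup.mem_sup_right
          apply Subgroup.subset_closure
          exact Finset.mem_coe.2 (Finset.mem_image_of_mem _ hs)
      have h3 := h2 h1
      have h4 : (MulAut.conj n).toMonoidHom (n⁻¹ * q * n) = q := by
        show n * (n⁻¹ * q * n) * n⁻¹ = q
        group
      rw [Subgroup.mem_comap, h4] at h3
      exact h3
    · refine sup_le ?_ ?_
      · rintro _ ⟨q, hq, rfl⟩
        exact hτQ q hq
      · rw [closure_le]
        intro s hs
        obtain ⟨s, hs', rfl⟩ := Finset.mem_image.1 (Finset.mem_coe.1 hs)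
        have h1 : s ∈ Q := by
          rw [s2]
          exact Subgroup.mem_sup_right (Subgroup.subset_closure hs')
        exact Q.mul_mem (Q.mul_mem hn h1) (Q.inv_mem hn)

theorem c_twist (σ : N ≃* N) (n : N) : c (twist σ n) = c σ := by
  apply le_antisymm (c_twist_le σ n)
  have h := c_twist_le (twist σ n) n⁻¹
  have h1 : twist (twist σ n) n⁻¹ = σ := by
    ext x
    rw [twist_apply, twist_apply]
    group
  rwa [h1] at h

theorem mn_twist (σ : N ≃* N) (n : N) : mn (twist σ n) = mn σ := by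
  rw [mn_eq, mn_eq, c_twist]
  have h1 : (twist σ n).symm = twist σ.symm (σ.symm n⁻¹) := by
    ext x
    apply (twist σ n).injective
    rw [MulEquiv.apply_symm_apply, twist_apply, twist_apply]
    simp only [map_mul, map_inv, MulEquiv.apply_symm_apply]
    group
  rw [h1, c_twist]

/-- `mnG` does not depend on the choice of the meridian. -/
theorem mnG_indep {G : Type*} [Group G] (χ : G →* Multiplicative ℤ) {t t' : G}
    (h : χ t = χ t') : mnG χ t = mnG χ t' := by
  have hn : t * t'⁻¹ ∈ χ.ker := by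
    rw [MonoidHom.mem_ker, map_mul, map_inv, h, mul_inv_cancel]
  have h1 : (MulAut.conjNormal t : χ.ker ≃* χ.ker) =
      twist (MulAut.conjNormal t' : χ.ker ≃* χ.ker) ⟨t * t'⁻¹, hn⟩ := by
    ext x
    rw [twist_apply]
    simp only [MulAut.conjNormal_apply, Subgroup.coe_mul, Subgroup.coe_inv]
    group
  rw [mnG, mnG, h1, mn_twist]

theorem mn_eq_zero_iff (σ : N ≃* N) : mn σ = 0 ↔ Group.FG N := by
  classical
  constructor
  · intro h
    rw [mn_eq] at h
    have h1 : c σ.symm + c σ = 0 := by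
      rcases mul_eq_zero.1 h with h | h
      · exact absurd h (by norm_num)
      · exact h
    obtain ⟨h2, h3⟩ := add_eq_zero.1 h1
    obtain ⟨m₃, e3, P, p1, p2⟩ := exists_of_c_ne_top (σ := σ) (by rw [h3]; simp)
    obtain ⟨m₁, e1, P', p3, p4⟩ := exists_of_c_ne_top (σ := σ.symm) (by rw [h2]; simp)
    have h4 : m₃ = 0 := by
      rw [h3] at e3
      exact_mod_cast e3.symm
    have h5 : m₁ = 0 := by
      rw [h2] at e1
      exact_mod_cast e1.symm
    subst h4 h5
    obtain ⟨A, W, -, h6, h7, h8, h9, ⟨S, hS, hS'⟩, T, hT, hT'⟩ := exists_circ p1 p2 p3 p4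
    rw [Finset.card_eq_zero.1 (Nat.le_zero.1 hS)] at hS'
    rw [Finset.card_eq_zero.1 (Nat.le_zero.1 hT)] at hT'
    simp only [Finset.coe_empty, Subgroup.closure_empty, sup_bot_eq] at hS' hT'
    have h10 : ∀ w ∈ W, σ w ∈ W := by
      intro w hw
      rw [hT', ← hS']
      exact ⟨w, hw, rfl⟩
    have h11 : ∀ w ∈ W, σ.symm w ∈ W := by
      intro w hw
      rw [hT', ← hS'] at hw
      obtain ⟨z, hz, rfl⟩ := hw
      show σ.symm (σ z) ∈ W
      rw [MulEquiv.symm_apply_apply]
      exact hz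
    have h12 : W = ⊤ := by
      rw [eq_top_iff, ← h9, closure_le]
      rintro y ⟨k, w, hw, rfl | rfl⟩
      · exact σ_iter_mem h10 (k := 0) hw (Nat.zero_le k)
      · exact σ_iter_mem h11 (k := 0) hw (Nat.zero_le k)
    rw [h12] at h6
    exact ⟨h6⟩
  · rintro ⟨hfg⟩
    have h : HasCirc σ 0 0 := by
      refine ⟨⊤, ⊤, hfg, hfg, le_refl _, le_top, ?_, ⟨∅, by simp, by simp⟩, ∅, by simp, ?_⟩
      · rw [eq_top_iff]
        intro n _
        exact Subgroup.subset_closure ⟨0, n, Subgroup.mem_top _, Or.inl rfl⟩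
      · rw [← MonoidHom.range_eq_map]
        simp
    have := mn_le h
    simpa using this

theorem mnG_eq_zero_iff {G : Type*} [Group G] (χ : G →* Multiplicative ℤ) (t : G) :
    mnG χ t = 0 ↔ χ.ker.FG := by
  rw [mnG, mn_eq_zero_iff, Group.fg_iff_subgroup_fg]

end Pool.Agent.H84.MN
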