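import Mathlib

/-!
# The invariant `c(N, σ)`
-/

set_option autoImplicit false

namespace Pool.Agent.H84.MN

open Subgroup

variable {N : Type*} [Group N]

/-- `P` is generated by the images `σ^k(x)`, `k ≥ 0`, of the elements `x` of a finite set, and
every element of `N` is moved into `P` by some nonnegative power of `σ`. (For the kernel `N` of
`π₁(K) → ℤ` and conjugation `σ` by a meridian these are the images of the fundamental groups of
halves of the infinite cyclic covering.) -/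
def IsHalf (σ : N ≃* N) (P : Subgroup N) : Prop :=
  (∃ X : Finset N, P = closure {y | ∃ k : ℕ, ∃ x ∈ X, y = σ^[k] x}) ∧ ∀ n, ∃ k : ℕ, σ^[k] n ∈ P

/-- `P` is generated by `σ(P)` and at most `m` elements. -/
def RelGen (σ : N ≃* N) (P : Subgroup N) (m : ℕ) : Prop :=
  ∃ S : Finset N, S.card ≤ m ∧ P = P.map σ.toMonoidHom ⊔ closure (S : Set N)

/-- `c(N, σ)`: the least number `m` such that some half is generated by its image under `σ` and
`m` elements. -/
noncomputable def c (σ : N ≃* N) : ℕ∞ :=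
  ⨅ (m : ℕ) (_ : ∃ P : Subgroup N, IsHalf σ P ∧ RelGen σ P m), (m : ℕ∞)

theorem c_le {σ : N ≃* N} {P : Subgroup N} {m : ℕ} (h1 : IsHalf σ P) (h2 : RelGen σ P m) :
    c σ ≤ m := iInf₂_le m ⟨P, h1, h2⟩

theorem exists_of_c_ne_top {σ : N ≃* N} (h : c σ ≠ ⊤) :
    ∃ m : ℕ, c σ = m ∧ ∃ P : Subgroup N, IsHalf σ P ∧ RelGen σ P m := by
  classical
  have hex : ∃ m : ℕ, ∃ P : Subgroup N, IsHalf σ P ∧ RelGen σ P m := by
    by_contra hne
    push Not at hne
    apply h
    rw [c, iInf₂_eq_top]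
    rintro m ⟨P, h1, h2⟩
    exact absurd h2 (hne m P h1)
  refine ⟨Nat.find hex, ?_, Nat.find_spec hex⟩
  apply le_antisymm
  · obtain ⟨P, h1, h2⟩ := Nat.find_spec hex
    exact c_le h1 h2
  · rw [c, le_iInf₂_iff]
    intro m hm
    exact_mod_cast Nat.find_min' hex hm

/-- Transport along an equivariant isomorphism. -/
theorem c_le_of_equiv {N' : Type*} [Group N'] (f : N ≃* N') {σ : N ≃* N} {τ : N' ≃* N'}
    (hf : ∀ n, f (σ n) = τ (f n)) : c τ ≤ c σ := by
  classical
  by_cases h : c σ = ⊤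
  · rw [h]
    exact le_top
  obtain ⟨m, hm, P, ⟨⟨X, hX⟩, hcof⟩, S, hS, hS'⟩ := exists_of_c_ne_top h
  rw [hm]
  have hk : ∀ (k : ℕ) n, f (σ^[k] n) = τ^[k] (f n) := by
    intro k n
    induction k with
    | zero => rfl
    | succ k ih => rw [Function.iterate_succ_apply', Function.iterate_succ_apply', hf, ih]
  refine c_le (P := P.map f.toMonoidHom) ⟨⟨X.image f, ?_⟩, ?_⟩ ⟨S.image f, ?_, ?_⟩
  · conv_lhs => rw [hX]
    rw [MonoidHom.map_closure]
    congr 1
    ext y
    constructor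
    · rintro ⟨_, ⟨k, x, hx, rfl⟩, rfl⟩
      exact ⟨k, f x, Finset.mem_image_of_mem _ hx, hk k x⟩
    · rintro ⟨k, y, hy, rfl⟩
      obtain ⟨x, hx, rfl⟩ := Finset.mem_image.1 hy
      exact ⟨σ^[k] x, ⟨k, x, hx, rfl⟩, hk k x⟩
  · intro n
    obtain ⟨k, hk'⟩ := hcof (f.symm n)
    refine ⟨k, σ^[k] (f.symm n), hk', ?_⟩
    show f (σ^[k] (f.symm n)) = _
    rw [hk, MulEquiv.apply_symm_apply]
  · exact Finset.card_image_le.trans hS
  · conv_lhs => rw [hS']
    rw [Subgroup.map_sup, MonoidHom.map_closure, Subgroup.map_map, Subgroup.map_map]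
    congr 1
    · congr 1
      ext n
      exact hf n
    · rw [Finset.coe_image]
      rfl

theorem c_eq_of_equiv {N' : Type*} [Group N'] (f : N ≃* N') {σ : N ≃* N} {τ : N' ≃* N'}
    (hf : ∀ n, f (σ n) = τ (f n)) : c τ = c σ := by
  apply le_antisymm (c_le_of_equiv f hf)
  apply c_le_of_equiv f.symm
  intro n
  apply f.injective
  rw [hf, MulEquiv.apply_symm_apply, MulEquiv.apply_symm_apply]

end Pool.Agent.H84.MN
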