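import Pool.Agent.H84.MN.Exists
import Pool.Agent.H84.MN.Def

/-!
# The Grushko theorem for free products with an automorphism
-/

set_option autoImplicit false

namespace Pool.Agent.H84.MN

open Subgroup Monoid

variable {ι : Type*} {N : ι → Type*} [∀ i, Group (N i)]

/-- The automorphism of the free product induced by automorphisms of the factors. -/
def coprodAut (σ : ∀ i, N i ≃* N i) : CoprodI N ≃* CoprodI N :=
  MonoidHom.toMulEquiv
    (CoprodI.lift fun i => (CoprodI.of : N i →* CoprodI N).comp (σ i).toMonoidHom)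
    (CoprodI.lift fun i => (CoprodI.of : N i →* CoprodI N).comp (σ i).symm.toMonoidHom)
    (by
      ext i x
      simp)
    (by
      ext i x
      simp)

theorem coprodAut_of (σ : ∀ i, N i ≃* N i) (i : ι) (x : N i) :
    coprodAut σ (CoprodI.of x) = CoprodI.of (σ i x) := by
  simp [coprodAut]

theorem coprodAut_iter_of (σ : ∀ i, N i ≃* N i) (k : ℕ) (i : ι) (x : N i) :
    (coprodAut σ)^[k] (CoprodI.of x) = CoprodI.of ((σ i)^[k] x) := by
  induction k with
  | zero => rfl
  | succ k ih => rw [Function.iterate_succ_apply', Function.iterate_succ_apply', ih, coprodAut_of]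

/-- The factors. -/
def fac (N : ι → Type*) [∀ i, Group (N i)] (i : ι) : Subgroup (CoprodI N) :=
  (CoprodI.of : N i →* CoprodI N).range

theorem exists_word (l : List (ι × CoprodI N)) (hl : Red (fac N) l) :
    ∃ w : CoprodI.Word N, w.toList.map (fun a => (a.1, CoprodI.of a.2)) = l := by
  induction l with
  | nil => exact ⟨CoprodI.Word.empty, rfl⟩
  | cons q l ih =>
    obtain ⟨w, hw⟩ := ih hl.tail
    obtain ⟨i, m⟩ := q
    obtain ⟨⟨y, hy⟩, hne⟩ : m ∈ fac N i ∧ m ≠ 1 := hl.1 (i, m) (by simp)
    subst hy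
    have hy1 : y ≠ 1 := by
      rintro rfl
      exact hne (map_one _)
    have hfst : w.fstIdx ≠ some i := by
      rw [CoprodI.Word.fstIdx_ne_iff]
      intro a ha hia
      have h1 := hl.2
      rw [List.isChain_cons] at h1
      have h2 : (a.1, (CoprodI.of a.2 : CoprodI N)) ∈ l.head? := by
        rw [← hw, List.head?_map]
        simp only [Option.mem_def] at ha ⊢
        rw [ha]
        rfl
      exact h1.1 _ h2 hia
    refine ⟨CoprodI.Word.cons y w hfst hy1, ?_⟩
    simp [CoprodI.Word.cons, hw]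

theorem fac_uniq : UniqNF (fac N) := by
  classical
  intro l l' hl hl' h
  obtain ⟨w, rfl⟩ := exists_word l hl
  obtain ⟨w', rfl⟩ := exists_word l' hl'
  have h1 : ∀ w : CoprodI.Word N,
      lprod (w.toList.map (fun a => (a.1, (CoprodI.of a.2 : CoprodI N)))) = w.prod := by
    intro w
    simp only [lprod, CoprodI.Word.prod, List.map_map]
    rfl
  rw [h1, h1] at h
  have h2 : w = w' := CoprodI.Word.equiv.symm.injective h
  rw [h2]

theorem fac_conn (m : CoprodI N) :
    Relation.ReflTransGen (fun x y => ∃ i, x⁻¹ * y ∈ fac N i) 1 m := by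
  have hmul : ∀ (p : CoprodI N) {x y : CoprodI N},
      Relation.ReflTransGen (fun x y => ∃ i, x⁻¹ * y ∈ fac N i) x y →
      Relation.ReflTransGen (fun x y => ∃ i, x⁻¹ * y ∈ fac N i) (p * x) (p * y) := by
    intro p x y hxy
    induction hxy with
    | refl => exact Relation.ReflTransGen.refl
    | @tail a b _ h2 ih =>
      obtain ⟨i, hi⟩ := h2
      refine Relation.ReflTransGen.tail ih ⟨i, ?_⟩
      have : (p * a)⁻¹ * (p * b) = a⁻¹ * b := by group
      rw [this]
      exact hi
  induction m using CoprodI.induction_on with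
  | one => exact Relation.ReflTransGen.refl
  | of i x => exact Relation.ReflTransGen.single ⟨i, by rw [inv_one, one_mul]; exact ⟨x, rfl⟩⟩
  | mul x y hx hy =>
    have := hmul x hy
    rw [mul_one] at this
    exact hx.trans this

theorem fac_freeFam (σ : ∀ i, N i ≃* N i) : FreeFam (coprodAut σ) (fac N) where
  nf := fac_uniq
  σH := by
    rintro i _ ⟨x, rfl⟩
    exact ⟨σ i x, (coprodAut_of σ i x).symm⟩
  conn := fac_conn
  retr := by
    classical
    intro i
    refine ⟨CoprodI.lift fun j => if j = i then (CoprodI.of : N j →* CoprodI N) else 1, ?_, ?_, ?_⟩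
    · intro m
      induction m using CoprodI.induction_on with
      | one =>
        rw [map_one]
        exact (fac N i).one_mem
      | of j x =>
        rw [CoprodI.lift_of]
        split_ifs with h
        · subst h
          exact ⟨x, rfl⟩
        · exact (fac N i).one_mem
      | mul x y hx hy =>
        rw [map_mul]
        exact (fac N i).mul_mem hx hy
    · rintro _ ⟨x, rfl⟩
      rw [CoprodI.lift_of, if_pos rfl]
    · intro m
      induction m using CoprodI.induction_on with
      | one => simp only [map_one]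
      | of j x =>
        rw [coprodAut_of, CoprodI.lift_of, CoprodI.lift_of]
        split_ifs with h
        · rw [coprodAut_of]
        · simp
      | mul x y hx hy => rw [map_mul, map_mul, hx, hy, map_mul, map_mul]

/-- The lower bound. -/
theorem le_c_coprod [Fintype ι] (σ : ∀ i, N i ≃* N i) : ∑ i, c (σ i) ≤ c (coprodAut σ) := by
  classical
  by_cases h : c (coprodAut σ) = ⊤
  · rw [h]
    exact le_top
  obtain ⟨m, hm, P, ⟨⟨X, hX⟩, hcof⟩, S, hS, hS'⟩ := exists_of_c_ne_top h
  rw [hm]
  obtain ⟨e, he, he'⟩ := (fac_freeFam σ).grushko hX hcof hS'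
  have h1 : ∀ i, c (σ i) ≤ e i := by
    intro i
    obtain ⟨Xi, Si, g1, g2, g3, g4, g5⟩ := he' i
    have hinj : Function.Injective (CoprodI.of : N i →* CoprodI N) := CoprodI.of_injective i
    have hmap : (P.comap (CoprodI.of : N i →* CoprodI N)).map (CoprodI.of : N i →* CoprodI N) =
        P ⊓ fac N i := by
      rw [Subgroup.map_comap_eq, inf_comm]
      rfl
    have hpre : ∀ Y : Finset (CoprodI N), (∀ y ∈ Y, y ∈ fac N i) →
        ∃ Z : Finset (N i), Z.card = Y.card ∧ Z.image (CoprodI.of : N i →* CoprodI N) = Y := by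
      intro Y hY
      refine ⟨Y.preimage (CoprodI.of : N i →* CoprodI N) hinj.injOn, ?_, ?_⟩
      · rw [Finset.card_preimage]
        congr 1
        exact Finset.filter_true_of_mem fun y hy => hY y hy
      · rw [Finset.image_preimage]
        exact Finset.filter_true_of_mem fun y hy => hY y hy
    obtain ⟨Z, hZ1, hZ2⟩ := hpre Xi g2
    obtain ⟨T, hT1, hT2⟩ := hpre Si g3
    refine c_le (P := P.comap (CoprodI.of : N i →* CoprodI N)) ⟨⟨Z, ?_⟩, ?_⟩ ⟨T, ?_, ?_⟩
    · apply Subgroup.map_injective hinj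
      rw [hmap, g4, MonoidHom.map_closure, ← hZ2]
      congr 1
      ext y
      constructor
      · rintro ⟨k, x, hx, rfl⟩
        obtain ⟨z, hz, rfl⟩ := Finset.mem_image.1 hx
        exact ⟨(σ i)^[k] z, ⟨k, z, hz, rfl⟩, (coprodAut_iter_of σ k i z).symm⟩
      · rintro ⟨_, ⟨k, z, hz, rfl⟩, rfl⟩
        exact ⟨k, CoprodI.of z, Finset.mem_image_of_mem _ hz, (coprodAut_iter_of σ k i z).symm⟩
    · intro n
      obtain ⟨k, hk⟩ := hcof (CoprodI.of n)
      refine ⟨k, ?_⟩
      rw [coprodAut_iter_of] at hk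
      exact hk
    · rw [hT1]
      exact g1
    · apply Subgroup.map_injective hinj
      have e1 : (P ⊓ fac N i).map (coprodAut σ).toMonoidHom =
          (P.comap (CoprodI.of : N i →* CoprodI N)).map
            ((CoprodI.of : N i →* CoprodI N).comp (σ i).toMonoidHom) := by
        rw [← hmap, Subgroup.map_map]
        refine congrArg (fun f => Subgroup.map f _) ?_
        ext n
        exact coprodAut_of σ i n
      rw [hmap, Subgroup.map_sup, MonoidHom.map_closure, Subgroup.map_map, ← e1,
        ← Finset.coe_image, hT2]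
      exact g5
  calc ∑ i, c (σ i) ≤ ∑ i, (e i : ℕ∞) := Finset.sum_le_sum fun i _ => h1 i
    _ = ((∑ i, e i : ℕ) : ℕ∞) := by push_cast; rfl
    _ ≤ (m : ℕ∞) := by exact_mod_cast he.trans hS

/-- The upper bound. -/
theorem c_coprod_le [Fintype ι] (σ : ∀ i, N i ≃* N i) : c (coprodAut σ) ≤ ∑ i, c (σ i) := by
  classical
  by_cases h : ∃ i, c (σ i) = ⊤
  · obtain ⟨i, hi⟩ := h
    have : ∑ i, c (σ i) = ⊤ := by
      apply le_antisymm le_top
      rw [← hi]
      exact Finset.single_le_sum (f := fun i => c (σ i)) (fun _ _ => by simp) (Finset.mem_univ i)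
    rw [this]
    exact le_top
  push Not at h
  choose m hm P hP S hS hS' using fun i => exists_of_c_ne_top (h i)
  choose hfg hcof using hP
  choose X hX using hfg
  have hsum : ∑ i, c (σ i) = ((∑ i, m i : ℕ) : ℕ∞) := by
    push_cast
    exact Finset.sum_congr rfl fun i _ => hm i
  rw [hsum]
  set Q : Subgroup (CoprodI N) := ⨆ i, (P i).map (CoprodI.of : N i →* CoprodI N) with hQ
  have hPQ : ∀ i, (P i).map (CoprodI.of : N i →* CoprodI N) ≤ Q := fun i =>
    le_iSup (fun i => (P i).map (CoprodI.of : N i →* CoprodI N)) i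
  have hPi : ∀ i, ∀ p ∈ P i, σ i p ∈ P i := by
    intro i p hp
    rw [hS' i]
    exact Subgroup.mem_sup_left ⟨p, hp, rfl⟩
  have hσQ : ∀ q ∈ Q, coprodAut σ q ∈ Q := by
    have : Q ≤ Q.comap (coprodAut σ).toMonoidHom := by
      conv_lhs => rw [hQ]
      refine iSup_le fun i => ?_
      rintro _ ⟨p, hp, rfl⟩
      apply hPQ i
      exact ⟨σ i p, hPi i p hp, (coprodAut_of σ i p).symm⟩
    exact this
  refine c_le (P := Q) ⟨⟨Finset.univ.biUnion fun i => (X i).image
    (CoprodI.of : N i →* CoprodI N), ?_⟩, ?_⟩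
    ⟨Finset.univ.biUnion fun i => (S i).image (CoprodI.of : N i →* CoprodI N), ?_, ?_⟩
  · apply le_antisymm
    · conv_lhs => rw [hQ]
      refine iSup_le fun i => ?_
      conv_lhs => rw [hX i]
      rw [MonoidHom.map_closure, closure_le]
      rintro _ ⟨_, ⟨k, x, hx, rfl⟩, rfl⟩
      apply Subgroup.subset_closure
      refine ⟨k, CoprodI.of x, ?_, (coprodAut_iter_of σ k i x).symm⟩
      exact Finset.mem_biUnion.2 ⟨i, Finset.mem_univ _, Finset.mem_image_of_mem _ hx⟩
    · rw [closure_le]
      rintro _ ⟨k, x, hx, rfl⟩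
      obtain ⟨i, -, hx⟩ := Finset.mem_biUnion.1 hx
      obtain ⟨x, hx', rfl⟩ := Finset.mem_image.1 hx
      rw [SetLike.mem_coe, coprodAut_iter_of]
      apply hPQ i
      refine ⟨(σ i)^[k] x, ?_, rfl⟩
      rw [SetLike.mem_coe, hX i]
      exact Subgroup.subset_closure ⟨k, x, hx', rfl⟩
  · intro n
    have hup : ∀ n (k l : ℕ), k ≤ l → (coprodAut σ)^[k] n ∈ Q → (coprodAut σ)^[l] n ∈ Q := by
      intro n k l hkl hk
      exact σ_iter_mem hσQ hk hkl
    induction n using CoprodI.induction_on with
    | one => exact ⟨0, Q.one_mem⟩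
    | of i x =>
      obtain ⟨k, hk⟩ := hcof i x
      refine ⟨k, ?_⟩
      rw [coprodAut_iter_of]
      exact hPQ i ⟨_, hk, rfl⟩
    | mul x y hx hy =>
      obtain ⟨k, hk⟩ := hx
      obtain ⟨l, hl⟩ := hy
      refine ⟨max k l, ?_⟩
      rw [iterate_map_mul]
      exact Q.mul_mem (hup _ _ _ (le_max_left _ _) hk) (hup _ _ _ (le_max_right _ _) hl)
  · refine Finset.card_biUnion_le.trans (Finset.sum_le_sum fun i _ => ?_)
    exact Finset.card_image_le.trans (hS i)
  · apply le_antisymm
    · conv_lhs => rw [hQ]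
      refine iSup_le fun i => ?_
      conv_lhs => rw [hS' i]
      rw [Subgroup.map_sup, MonoidHom.map_closure, Subgroup.map_map]
      refine sup_le ?_ ?_
      · rintro _ ⟨p, hp, rfl⟩
        apply Subgroup.mem_sup_left
        refine ⟨CoprodI.of p, hPQ i ⟨p, hp, rfl⟩, coprodAut_of σ i p⟩
      · rw [closure_le]
        rintro _ ⟨x, hx, rfl⟩
        apply Subgroup.mem_sup_right
        apply Subgroup.subset_closure
        exact Finset.mem_coe.2 (Finset.mem_biUnion.2
          ⟨i, Finset.mem_univ _, Finset.mem_image_of_mem _ hx⟩)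
    · refine sup_le ?_ ?_
      · rintro _ ⟨q, hq, rfl⟩
        exact hσQ q hq
      · rw [closure_le]
        intro x hx
        obtain ⟨i, -, hx⟩ := Finset.mem_biUnion.1 (Finset.mem_coe.1 hx)
        obtain ⟨x, hx', rfl⟩ := Finset.mem_image.1 hx
        apply hPQ i
        refine ⟨x, ?_, rfl⟩
        rw [SetLike.mem_coe, hS' i]
        exact Subgroup.mem_sup_right (Subgroup.subset_closure hx')

/-- **The Grushko theorem for free products with an automorphism.** -/
theorem c_coprod [Fintype ι] (σ : ∀ i, N i ≃* N i) : c (coprodAut σ) = ∑ i, c (σ i) :=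
  le_antisymm (c_coprod_le σ) (le_c_coprod σ)

end Pool.Agent.H84.MN
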