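import Mathlib

/-!
# The data of one type: relations on `B × J` with generated stabilisers
-/

set_option autoImplicit false

namespace Pool.Agent.H84.MN

open Subgroup

variable {M : Type*} [Group M]

/-- Data which describe a `B`-invariant relation on `B × J`: a representative `a j` of the class of
the orbit of `j`, a translation `β j` and generators `F w` of the stabilisers. -/
structure Dat (B H : Subgroup M) {J : Type*} (n : J → M) where
  a : J → J
  β : J → M
  F : J → Finset M
  idem : ∀ j, a (a j) = a j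
  βB : ∀ j, β j ∈ B
  βH : ∀ j, (n j)⁻¹ * β j * n (a j) ∈ H
  FB : ∀ w, ∀ f ∈ F w, f ∈ B ∧ (n w)⁻¹ * f * n w ∈ H

/-- The group `B ∩ m H m⁻¹`. -/
def St (B H : Subgroup M) (m : M) : Subgroup M where
  carrier := {x | x ∈ B ∧ m⁻¹ * x * m ∈ H}
  mul_mem' := by
    rintro x y ⟨hx, hx'⟩ ⟨hy, hy'⟩
    refine ⟨B.mul_mem hx hy, ?_⟩
    have : m⁻¹ * (x * y) * m = (m⁻¹ * x * m) * (m⁻¹ * y * m) := by group
    rw [this]
    exact H.mul_mem hx' hy'
  one_mem' := ⟨B.one_mem, by simp⟩
  inv_mem' := by
    rintro x ⟨hx, hx'⟩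
    refine ⟨B.inv_mem hx, ?_⟩
    have : m⁻¹ * x⁻¹ * m = (m⁻¹ * x * m)⁻¹ := by group
    rw [this]
    exact H.inv_mem hx'

theorem mem_St {B H : Subgroup M} {m x : M} : x ∈ St B H m ↔ x ∈ B ∧ m⁻¹ * x * m ∈ H := Iff.rfl

variable {B H : Subgroup M} {J : Type*} {n : J → M}

/-- The generators which come from the old stabilisers `Q v`, `v ∈ V`. -/
def Dat.old (D : Dat B H n) (V : Set J) (Q : J → Subgroup M) (w : J) : Set M :=
  {x | ∃ v ∈ V, D.a v = w ∧ D.β v * x * (D.β v)⁻¹ ∈ Q v}

/-- The stabiliser described by the data. -/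
def Dat.S (D : Dat B H n) (V : Set J) (Q : J → Subgroup M) (w : J) : Subgroup M :=
  closure ((D.F w : Set M) ∪ D.old V Q w)

/-- The relation described by the data. -/
def Dat.rel (D : Dat B H n) (V : Set J) (Q : J → Subgroup M) (x y : B × J) : Prop :=
  D.a x.2 = D.a y.2 ∧
    ((x.1 : M) * D.β x.2)⁻¹ * ((y.1 : M) * D.β y.2) ∈ D.S V Q (D.a x.2)

/-- The map to `M`. -/
def pt (n : J → M) (x : B × J) : M := (x.1 : M) * n x.2

variable {V : Set J} {Q : J → Subgroup M}

theorem Dat.S_le (hQ : ∀ v ∈ V, Q v ≤ St B H (n v)) (D : Dat B H n) (w : J) :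
    D.S V Q w ≤ St B H (n w) := by
  rw [Dat.S, closure_le]
  rintro x (hx | ⟨v, hv, rfl, hx⟩)
  · exact D.FB w x hx
  · obtain ⟨h1, h2⟩ := hQ v hv hx
    refine ⟨?_, ?_⟩
    · have : x = (D.β v)⁻¹ * (D.β v * x * (D.β v)⁻¹) * D.β v := by group
      rw [this]
      exact B.mul_mem (B.mul_mem (B.inv_mem (D.βB v)) h1) (D.βB v)
    · have : (n (D.a v))⁻¹ * x * n (D.a v) = ((n v)⁻¹ * D.β v * n (D.a v))⁻¹ *
          ((n v)⁻¹ * (D.β v * x * (D.β v)⁻¹) * n v) * ((n v)⁻¹ * D.β v * n (D.a v)) := by group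
      rw [this]
      exact H.mul_mem (H.mul_mem (H.inv_mem (D.βH v)) h2) (D.βH v)

theorem Dat.rel_equiv (D : Dat B H n) : Equivalence (D.rel V Q) := by
  refine ⟨fun x => ⟨rfl, by simp⟩, ?_, ?_⟩
  · rintro x y ⟨h1, h2⟩
    refine ⟨h1.symm, ?_⟩
    rw [← h1]
    have h3 := (D.S V Q (D.a x.2)).inv_mem h2
    have : (((y.1 : M) * D.β y.2)⁻¹ * ((x.1 : M) * D.β x.2)) =
        (((x.1 : M) * D.β x.2)⁻¹ * ((y.1 : M) * D.β y.2))⁻¹ := by group
    rw [this]
    exact h3
  · rintro x y z ⟨h1, h2⟩ ⟨h3, h4⟩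
    refine ⟨h1.trans h3, ?_⟩
    rw [← h1] at h4
    have : (((x.1 : M) * D.β x.2)⁻¹ * ((z.1 : M) * D.β z.2)) =
        (((x.1 : M) * D.β x.2)⁻¹ * ((y.1 : M) * D.β y.2)) *
          (((y.1 : M) * D.β y.2)⁻¹ * ((z.1 : M) * D.β z.2)) := by group
    rw [this]
    exact (D.S V Q (D.a x.2)).mul_mem h2 h4

theorem Dat.rel_pt (hQ : ∀ v ∈ V, Q v ≤ St B H (n v)) (D : Dat B H n) {x y : B × J}
    (h : D.rel V Q x y) : (pt n x)⁻¹ * pt n y ∈ H := by
  obtain ⟨h1, h2⟩ := h
  have h3 := (D.S_le hQ _ h2).2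
  have h4 := D.βH x.2
  have h5 := D.βH y.2
  rw [← h1] at h5
  have : (pt n x)⁻¹ * pt n y = ((n x.2)⁻¹ * D.β x.2 * n (D.a x.2)) *
      ((n (D.a x.2))⁻¹ * (((x.1 : M) * D.β x.2)⁻¹ * ((y.1 : M) * D.β y.2)) * n (D.a x.2)) *
      ((n y.2)⁻¹ * D.β y.2 * n (D.a x.2))⁻¹ := by
    simp only [pt]
    group
  rw [this]
  exact H.mul_mem (H.mul_mem h4 h3) (H.inv_mem h5)

theorem Dat.rel_smul (D : Dat B H n) (c : B) {x y : B × J} (h : D.rel V Q x y) :
    D.rel V Q (c * x.1, x.2) (c * y.1, y.2) := by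
  obtain ⟨h1, h2⟩ := h
  refine ⟨h1, ?_⟩
  simp only [Subgroup.coe_mul]
  have : ((c : M) * (x.1 : M) * D.β x.2)⁻¹ * ((c : M) * (y.1 : M) * D.β y.2) =
      (((x.1 : M) * D.β x.2)⁻¹ * ((y.1 : M) * D.β y.2)) := by group
  rw [this]
  exact h2

open Classical in
/-- The number of generators minus the number of classes. -/
noncomputable def Dat.cost [Fintype J] (D : Dat B H n) : ℤ :=
  ((∑ w, (D.F w).card : ℕ) : ℤ) - ((Finset.univ.image D.a).card : ℤ)

/-- Merge the class `u` into the class `w` by means of `c`. -/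
noncomputable def Dat.merge (D : Dat B H n) (w u : J) (c : M) (hw : D.a w = w) (hwu : w ≠ u)
    (hcB : c ∈ B) (hcH : (n w)⁻¹ * c * n u ∈ H) : Dat B H n := by
  classical
  exact
  { a := fun l => if D.a l = u then w else D.a l
    β := fun l => if D.a l = u then D.β l * c⁻¹ else D.β l
    F := fun l => if l = u then ∅ else if l = w then
        D.F w ∪ (D.F u).image (fun f => c * f * c⁻¹) else D.F l
    idem := by
      intro l
      by_cases h : D.a l = u
      · simp only [h, if_true, hw, if_neg hwu]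
      · simp only [if_neg h, D.idem]
    βB := by
      intro l
      split_ifs
      · exact B.mul_mem (D.βB l) (B.inv_mem hcB)
      · exact D.βB l
    βH := by
      intro l
      by_cases h : D.a l = u
      · rw [if_pos h, if_pos h]
        have h1 := D.βH l
        rw [h] at h1
        have : (n l)⁻¹ * (D.β l * c⁻¹) * n w = ((n l)⁻¹ * D.β l * n u) * ((n w)⁻¹ * c * n u)⁻¹ := by
          group
        rw [this]
        exact H.mul_mem h1 (H.inv_mem hcH)
      · rw [if_neg h, if_neg h]
        exact D.βH l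
    FB := by
      intro l f hf
      by_cases h : l = u
      · rw [if_pos h] at hf
        simp at hf
      rw [if_neg h] at hf
      by_cases h' : l = w
      · rw [if_pos h', Finset.mem_union, Finset.mem_image] at hf
        rw [h']
        rcases hf with hf | ⟨f, hf, rfl⟩
        · exact D.FB _ f hf
        · obtain ⟨h1, h2⟩ := D.FB _ f hf
          refine ⟨B.mul_mem (B.mul_mem hcB h1) (B.inv_mem hcB), ?_⟩
          have : (n w)⁻¹ * (c * f * c⁻¹) * n w = ((n w)⁻¹ * c * n u) * ((n u)⁻¹ * f * n u) *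
              ((n w)⁻¹ * c * n u)⁻¹ := by group
          rw [this]
          exact H.mul_mem (H.mul_mem hcH h2) (H.inv_mem hcH)
      · rw [if_neg h'] at hf
        exact D.FB _ f hf }

section merge

variable (D : Dat B H n) (w u : J) (c : M) (hw : D.a w = w) (hwu : w ≠ u)
    (hcB : c ∈ B) (hcH : (n w)⁻¹ * c * n u ∈ H)

open Classical in
theorem Dat.merge_a (l : J) :
    (D.merge w u c hw hwu hcB hcH).a l = if D.a l = u then w else D.a l := by
  simp only [Dat.merge]

open Classical in
theorem Dat.merge_β (l : J) :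
    (D.merge w u c hw hwu hcB hcH).β l = if D.a l = u then D.β l * c⁻¹ else D.β l := by
  simp only [Dat.merge]

open Classical in
theorem Dat.merge_F (l : J) :
    (D.merge w u c hw hwu hcB hcH).F l = if l = u then ∅ else if l = w then
        D.F w ∪ (D.F u).image (fun f => c * f * c⁻¹) else D.F l := by
  simp only [Dat.merge]

theorem Dat.merge_S_le (z : J) (hz : z ≠ u) :
    D.S V Q z ≤ (D.merge w u c hw hwu hcB hcH).S V Q z := by
  classical
  rw [Dat.S, closure_le]
  rintro x (hx | ⟨v, hv, rfl, hx⟩)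
  · apply Subgroup.subset_closure
    refine Or.inl ?_
    show x ∈ (D.merge w u c hw hwu hcB hcH).F z
    rw [Dat.merge_F, if_neg hz]
    split_ifs with h
    · subst h
      exact Finset.mem_union_left _ hx
    · exact hx
  · apply Subgroup.subset_closure
    refine Or.inr ⟨v, hv, ?_, ?_⟩
    · rw [Dat.merge_a, if_neg hz]
    · rw [Dat.merge_β, if_neg hz]
      exact hx

theorem Dat.merge_S_conj {x : M} (hx : x ∈ D.S V Q u) :
    c * x * c⁻¹ ∈ (D.merge w u c hw hwu hcB hcH).S V Q w := by
  classical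
  have h : D.S V Q u ≤ ((D.merge w u c hw hwu hcB hcH).S V Q w).comap
      (MulAut.conj c).toMonoidHom := by
    rw [Dat.S, closure_le]
    rintro x (hx | ⟨v, hv, hv', hx⟩)
    · show c * x * c⁻¹ ∈ (D.merge w u c hw hwu hcB hcH).S V Q w
      apply Subgroup.subset_closure
      refine Or.inl ?_
      show c * x * c⁻¹ ∈ (D.merge w u c hw hwu hcB hcH).F w
      rw [Dat.merge_F, if_neg hwu, if_pos rfl]
      exact Finset.mem_union_right _ (Finset.mem_image_of_mem _ hx)
    · show c * x * c⁻¹ ∈ (D.merge w u c hw hwu hcB hcH).S V Q w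
      apply Subgroup.subset_closure
      refine Or.inr ⟨v, hv, ?_, ?_⟩
      · rw [Dat.merge_a, if_pos hv']
      · rw [Dat.merge_β, if_pos hv']
        have : D.β v * c⁻¹ * (c * x * c⁻¹) * (D.β v * c⁻¹)⁻¹ = D.β v * x * (D.β v)⁻¹ := by group
        rw [this]
        exact hx
  exact h hx

theorem Dat.merge_rel {x y : B × J} (h : D.rel V Q x y) :
    (D.merge w u c hw hwu hcB hcH).rel V Q x y := by
  obtain ⟨h1, h2⟩ := h
  by_cases hu : D.a x.2 = u
  · refine ⟨?_, ?_⟩
    · rw [Dat.merge_a, Dat.merge_a, if_pos hu, if_pos (h1.symm.trans hu)]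
    · rw [Dat.merge_a, Dat.merge_β, Dat.merge_β, if_pos hu, if_pos hu, if_pos (h1.symm.trans hu)]
      rw [hu] at h2
      have := D.merge_S_conj w u c hw hwu hcB hcH h2
      have e : ((x.1 : M) * (D.β x.2 * c⁻¹))⁻¹ * ((y.1 : M) * (D.β y.2 * c⁻¹)) =
          c * (((x.1 : M) * D.β x.2)⁻¹ * ((y.1 : M) * D.β y.2)) * c⁻¹ := by group
      rw [e]
      exact this
  · have hu' : ¬ D.a y.2 = u := fun h => hu (h1.trans h)
    refine ⟨?_, ?_⟩
    · rw [Dat.merge_a, Dat.merge_a, if_neg hu, if_neg hu']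
      exact h1
    · rw [Dat.merge_a, Dat.merge_β, Dat.merge_β, if_neg hu, if_neg hu, if_neg hu']
      exact D.merge_S_le w u c hw hwu hcB hcH _ hu h2

theorem Dat.merge_cost [Fintype J] (hu : D.a u = u) :
    (D.merge w u c hw hwu hcB hcH).cost ≤ D.cost + 1 := by
  classical
  have h1 : (∑ z, ((D.merge w u c hw hwu hcB hcH).F z).card) ≤ ∑ z, (D.F z).card := by
    have hu' : u ∈ (Finset.univ.erase w) := Finset.mem_erase.2 ⟨hwu.symm, Finset.mem_univ _⟩
    rw [← Finset.add_sum_erase _ _ (Finset.mem_univ w),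
      ← Finset.add_sum_erase (Finset.univ) (fun z => (D.F z).card) (Finset.mem_univ w),
      ← Finset.add_sum_erase _ _ hu', ← Finset.add_sum_erase _ (fun z => (D.F z).card) hu']
    have h2 : ∑ x ∈ (Finset.univ.erase w).erase u, ((D.merge w u c hw hwu hcB hcH).F x).card =
        ∑ x ∈ (Finset.univ.erase w).erase u, (D.F x).card := by
      apply Finset.sum_congr rfl
      intro x hx
      have hx1 := Finset.ne_of_mem_erase hx
      have hx2 := Finset.ne_of_mem_erase (Finset.mem_of_mem_erase hx)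
      rw [Dat.merge_F, if_neg hx1, if_neg hx2]
    have h3 : ((D.merge w u c hw hwu hcB hcH).F w).card ≤ (D.F w).card + (D.F u).card := by
      rw [Dat.merge_F, if_neg hwu, if_pos rfl]
      exact (Finset.card_union_le _ _).trans (Nat.add_le_add_left Finset.card_image_le _)
    have h4 : ((D.merge w u c hw hwu hcB hcH).F u).card = 0 := by
      rw [Dat.merge_F, if_pos rfl, Finset.card_empty]
    rw [h2, h4]
    omega
  have h5 : Finset.univ.image (D.merge w u c hw hwu hcB hcH).a =
      (Finset.univ.image D.a).erase u := by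
    ext z
    simp only [Finset.mem_image, Finset.mem_univ, true_and, Finset.mem_erase]
    constructor
    · rintro ⟨l, rfl⟩
      rw [Dat.merge_a]
      split_ifs with h
      · exact ⟨hwu, w, hw⟩
      · exact ⟨h, l, rfl⟩
    · rintro ⟨h, l, rfl⟩
      exact ⟨l, by rw [Dat.merge_a, if_neg h]⟩
  have h6 : u ∈ Finset.univ.image D.a := Finset.mem_image.2 ⟨u, Finset.mem_univ _, hu⟩
  have h7 := Finset.card_erase_add_one h6
  have h8 : ((∑ z, ((D.merge w u c hw hwu hcB hcH).F z).card : ℕ) : ℤ) ≤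
      ((∑ w', (D.F w').card : ℕ) : ℤ) := by exact_mod_cast h1
  have h9 : ((Finset.univ.image D.a).card : ℤ) =
      (((Finset.univ.image D.a).erase u).card : ℤ) + 1 := by exact_mod_cast h7.symm
  simp only [Dat.cost]
  rw [h5, h9]
  linarith

end merge

theorem Dat.cost_eq [Fintype J] [inst : DecidableEq J] (D : Dat B H n) :
    D.cost = ((∑ w, (D.F w).card : ℕ) : ℤ) - ((Finset.univ.image D.a).card : ℤ) := by
  obtain rfl : inst = fun a b => Classical.propDecidable (a = b) := Subsingleton.elim _ _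
  rfl

theorem Dat.addPair [Fintype J] (D : Dat B H n) (x y : B × J)
    (hxy : (pt n x)⁻¹ * pt n y ∈ H) :
    ∃ D' : Dat B H n, (∀ u v, D.rel V Q u v → D'.rel V Q u v) ∧ D'.rel V Q x y ∧
      D'.cost ≤ D.cost + 1 := by
  classical
  obtain ⟨b, j⟩ := x
  obtain ⟨b', j'⟩ := y
  set w := D.a j with hw
  set u := D.a j' with hu
  set c : M := ((b : M) * D.β j)⁻¹ * ((b' : M) * D.β j') with hc
  have hcB : c ∈ B := B.mul_mem (B.inv_mem (B.mul_mem b.2 (D.βB j))) (B.mul_mem b'.2 (D.βB j'))
  have hcH : (n w)⁻¹ * c * n u ∈ H := by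
    have : (n w)⁻¹ * c * n u = ((n j)⁻¹ * D.β j * n w)⁻¹ *
        (((b : M) * n j)⁻¹ * ((b' : M) * n j')) * ((n j')⁻¹ * D.β j' * n u) := by
      rw [hc]
      group
    rw [this]
    exact H.mul_mem (H.mul_mem (H.inv_mem (D.βH j)) hxy) (D.βH j')
  by_cases hwu : w = u
  · -- a new generator
    refine ⟨{ D with
      F := Function.update D.F w (insert c (D.F w))
      FB := ?_ }, ?_, ?_, ?_⟩
    · intro w' f hf
      by_cases h : w' = w
      · subst h
        rw [Function.update_self, Finset.mem_insert] at hf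
        rcases hf with rfl | hf
        · refine ⟨hcB, ?_⟩
          rw [← hwu] at hcH
          exact hcH
        · exact D.FB _ f hf
      · rw [Function.update_of_ne h] at hf
        exact D.FB _ f hf
    · rintro u v ⟨h1, h2⟩
      refine ⟨h1, ?_⟩
      refine closure_mono ?_ h2
      apply Set.union_subset_union _ (le_refl _)
      intro z hz
      by_cases h : D.a u.2 = w
      · show z ∈ (Function.update D.F w (insert c (D.F w)) (D.a u.2) : Finset M)
        rw [h, Function.update_self, Finset.mem_insert]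
        rw [h] at hz
        exact Or.inr hz
      · show z ∈ (Function.update D.F w (insert c (D.F w)) (D.a u.2) : Finset M)
        rw [Function.update_of_ne h]
        exact hz
    · refine ⟨hwu, Subgroup.subset_closure (Or.inl ?_)⟩
      show c ∈ (Function.update D.F w (insert c (D.F w)) w : Finset M)
      rw [Function.update_self]
      exact Finset.mem_insert_self _ _
    · have h1 : (∑ w', (Function.update D.F w (insert c (D.F w)) w').card) ≤
          (∑ w', (D.F w').card) + 1 := by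
        rw [← Finset.add_sum_erase _ _ (Finset.mem_univ w),
          ← Finset.add_sum_erase (Finset.univ) (fun w' => (D.F w').card) (Finset.mem_univ w),
          Function.update_self]
        have h2 : ∑ x ∈ Finset.univ.erase w, (Function.update D.F w (insert c (D.F w)) x).card =
            ∑ x ∈ Finset.univ.erase w, (D.F x).card := by
          apply Finset.sum_congr rfl
          intro x hx
          rw [Function.update_of_ne (Finset.ne_of_mem_erase hx)]
        rw [h2]
        have h3 := Finset.card_insert_le c (D.F w)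
        omega
      have h2 : ((∑ w', (Function.update D.F w (insert c (D.F w)) w').card : ℕ) : ℤ) ≤
          ((∑ w', (D.F w').card : ℕ) : ℤ) + 1 := by exact_mod_cast h1
      simp only [Dat.cost]
      linarith
  · -- a merge
    have hww : D.a w = w := D.idem j
    have huu : D.a u = u := D.idem j'
    refine ⟨D.merge w u c hww hwu hcB hcH, fun x y h => D.merge_rel w u c hww hwu hcB hcH h, ?_,
      D.merge_cost w u c hww hwu hcB hcH huu⟩
    refine ⟨?_, ?_⟩
    · show (D.merge w u c hww hwu hcB hcH).a j = (D.merge w u c hww hwu hcB hcH).a j'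
      rw [Dat.merge_a, Dat.merge_a, if_pos hu.symm, if_neg (fun h => hwu (hw.trans h))]
    · show ((b : M) * (D.merge w u c hww hwu hcB hcH).β j)⁻¹ *
        ((b' : M) * (D.merge w u c hww hwu hcB hcH).β j') ∈ _
      rw [Dat.merge_β, Dat.merge_β, if_pos hu.symm, if_neg (fun h => hwu (hw.trans h))]
      have : ((b : M) * D.β j)⁻¹ * ((b' : M) * (D.β j' * c⁻¹)) = c * c⁻¹ := by
        rw [hc]
        group
      rw [this, mul_inv_cancel]
      exact Subgroup.one_mem _

end Pool.Agent.H84.MN
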