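import Pool.Agent.H84.MN.Dat

/-!
# From the functional graph of the orbits to the base group
-/

set_option autoImplicit false
set_option linter.unusedSectionVars false

namespace Pool.Agent.H84.MN

open Subgroup

variable {M : Type*} [Group M] {J : Type*}

/-- The transition map `y ↦ g⁻¹ σ(y) g`. -/
def tr (σ : M ≃* M) (g : J → M) (v : J) : M →* M :=
  (MulAut.conj (g v)⁻¹).toMonoidHom.comp σ.toMonoidHom

theorem tr_apply (σ : M ≃* M) (g : J → M) (v : J) (y : M) :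
    tr σ g v y = (g v)⁻¹ * σ y * g v := by
  show (g v)⁻¹ * σ y * ((g v)⁻¹)⁻¹ = _
  rw [inv_inv]

/-- The composed transition maps. -/
def trk (σ : M ≃* M) (g : J → M) (ψ : J → J) : ℕ → J → (M →* M)
  | 0, _ => MonoidHom.id M
  | k + 1, v => (trk σ g ψ k (ψ v)).comp (tr σ g v)

variable {σ : M ≃* M} {P H : Subgroup M} {nJ : J → M}

theorem tr_St (hσP : ∀ p ∈ P, σ p ∈ P) (hσH : ∀ h ∈ H, σ h ∈ H) {g : J → M} {ψ : J → J}
    (hgP : ∀ j, g j ∈ P) (hg : ∀ v, (σ (nJ v))⁻¹ * g v * nJ (ψ v) ∈ H) (v : J) {y : M}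
    (hy : y ∈ St P H (nJ v)) : tr σ g v y ∈ St P H (nJ (ψ v)) := by
  rw [tr_apply]
  refine ⟨P.mul_mem (P.mul_mem (P.inv_mem (hgP v)) (hσP _ hy.1)) (hgP v), ?_⟩
  have h1 := hσH _ hy.2
  have : (nJ (ψ v))⁻¹ * ((g v)⁻¹ * σ y * g v) * nJ (ψ v) =
      ((σ (nJ v))⁻¹ * g v * nJ (ψ v))⁻¹ * σ ((nJ v)⁻¹ * y * nJ v) *
        ((σ (nJ v))⁻¹ * g v * nJ (ψ v)) := by
    simp only [map_mul, map_inv]
    group
  rw [this]
  exact H.mul_mem (H.mul_mem (H.inv_mem (hg v)) h1) (hg v)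

theorem trk_St (hσP : ∀ p ∈ P, σ p ∈ P) (hσH : ∀ h ∈ H, σ h ∈ H) {g : J → M} {ψ : J → J}
    (hgP : ∀ j, g j ∈ P) (hg : ∀ v, (σ (nJ v))⁻¹ * g v * nJ (ψ v) ∈ H) (k : ℕ) (v : J) {y : M}
    (hy : y ∈ St P H (nJ v)) : trk σ g ψ k v y ∈ St P H (nJ (ψ^[k] v)) := by
  induction k generalizing v y with
  | zero => exact hy
  | succ k ih =>
    rw [Function.iterate_succ_apply]
    exact ih (ψ v) (tr_St hσP hσH hgP hg v hy)

theorem dyn [Fintype J] (hσP : ∀ p ∈ P, σ p ∈ P) (hσH : ∀ h ∈ H, σ h ∈ H)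
    {ρ ψ : J → J} {g : J → M} {F : J → Finset M}
    (hρeq : ∀ j j', ∀ p ∈ P, (nJ j)⁻¹ * p * nJ j' ∈ H → ρ j = ρ j')
    (hψ : ∀ j, ρ (ψ j) = ψ j) (hgP : ∀ j, g j ∈ P)
    (hg : ∀ v, (σ (nJ v))⁻¹ * g v * nJ (ψ v) ∈ H)
    (hF : ∀ w, ∀ f ∈ F w, f ∈ St P H (nJ w)) (hF0 : ∀ w, ρ w ≠ w → F w = ∅)
    (hgen : ∀ w, ρ w = w → St P H (nJ w) ≤ closure ((F w : Set M) ∪
        {y | ∃ v, ρ v = v ∧ ψ v = w ∧
          g v * y * (g v)⁻¹ ∈ (St P H (nJ v)).map σ.toMonoidHom}))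
    {d0 : M} (hd0 : d0 ∈ P) {v0 : J} (hv0 : ρ v0 = v0) (hd0H : d0 * nJ v0 ∈ H)
    (hcof : ∀ v, ∃ k, σ^[k] (nJ v) ∈ P) :
    ∃ F' : Finset M, F'.card ≤ ∑ v, (F v).card ∧ (∀ f ∈ F', f ∈ P ⊓ H) ∧
      P ⊓ H ≤ (P ⊓ H).map σ.toMonoidHom ⊔ closure (F' : Set M) := by
  classical
  -- iterates of the orbits
  have h1 : ∀ k v, ∃ G ∈ P, (σ^[k] (nJ v))⁻¹ * G * nJ (ψ^[k] v) ∈ H := by
    intro k
    induction k with
    | zero =>
      intro v
      exact ⟨1, P.one_mem, by simp⟩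
    | succ k ih =>
      intro v
      obtain ⟨G, hG, hG'⟩ := ih v
      refine ⟨σ G * g (ψ^[k] v), P.mul_mem (hσP _ hG) (hgP _), ?_⟩
      rw [Function.iterate_succ_apply', Function.iterate_succ_apply']
      have h2 := hσH _ hG'
      have h3 := hg (ψ^[k] v)
      have : (σ (σ^[k] (nJ v)))⁻¹ * (σ G * g (ψ^[k] v)) * nJ (ψ (ψ^[k] v)) =
          σ ((σ^[k] (nJ v))⁻¹ * G * nJ (ψ^[k] v)) *
            ((σ (nJ (ψ^[k] v)))⁻¹ * g (ψ^[k] v) * nJ (ψ (ψ^[k] v))) := by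
        simp only [map_mul, map_inv]
        group
      rw [this]
      exact H.mul_mem h2 h3
  -- `p * nJ u ∈ H` with `p ∈ P` characterises the root
  have h2 : ∀ u, ρ u = u → ∀ p ∈ P, p * nJ u ∈ H → u = v0 := by
    intro u hu p hp hpu
    have h3 := hρeq u v0 (p⁻¹ * d0) (P.mul_mem (P.inv_mem hp) hd0) (by
      have : (nJ u)⁻¹ * (p⁻¹ * d0) * nJ v0 = (p * nJ u)⁻¹ * (d0 * nJ v0) := by group
      rw [this]
      exact H.mul_mem (H.inv_mem hpu) hd0H)
    rw [hu, hv0] at h3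
    exact h3
  have hψk : ∀ k v, ρ v = v → ρ (ψ^[k] v) = ψ^[k] v := by
    intro k v hv
    cases k with
    | zero => exact hv
    | succ k =>
      rw [Function.iterate_succ_apply']
      exact hψ _
  have hψv0 : ψ v0 = v0 := by
    apply h2 _ (hψ v0) (σ d0 * g v0) (P.mul_mem (hσP _ hd0) (hgP _))
    have h3 := hσH _ hd0H
    have h4 := hg v0
    have : σ d0 * g v0 * nJ (ψ v0) = σ (d0 * nJ v0) * ((σ (nJ v0))⁻¹ * g v0 * nJ (ψ v0)) := by
      simp only [map_mul]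
      group
    rw [this]
    exact H.mul_mem h3 h4
  have hroot : ∀ v, ρ v = v → ∃ k, ψ^[k] v = v0 := by
    intro v hv
    obtain ⟨k, hk⟩ := hcof v
    obtain ⟨G, hG, hG'⟩ := h1 k v
    refine ⟨k, h2 _ (hψk k v hv) ((σ^[k] (nJ v))⁻¹ * G) (P.mul_mem (P.inv_mem hk) hG) hG'⟩
  -- the depth
  have hdep : ∃ d : J → ℕ, ∀ v, ρ v = v → ψ^[d v] v = v0 ∧ ∀ k, ψ^[k] v = v0 → d v ≤ k := by
    refine ⟨fun v => if h : ∃ k, ψ^[k] v = v0 then Nat.find h else 0, fun v hv => ?_⟩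
    have h := hroot v hv
    dsimp only
    rw [dif_pos h]
    exact ⟨Nat.find_spec h, fun k hk => Nat.find_min' h hk⟩
  obtain ⟨d, hd⟩ := hdep
  have hdv0 : d v0 = 0 := Nat.le_zero.1 ((hd v0 hv0).2 0 rfl)
  have hdsucc : ∀ u, ρ u = u → u ≠ v0 → d u = d (ψ u) + 1 := by
    intro u hu hne
    obtain ⟨h3, h4⟩ := hd u hu
    obtain ⟨h5, h6⟩ := hd (ψ u) (hψ u)
    apply le_antisymm
    · apply h4
      rw [Function.iterate_succ_apply]
      exact h5
    · rcases Nat.eq_zero_or_pos (d u) with h0 | h0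
      · rw [h0] at h3
        exact absurd h3 hne
      · obtain ⟨m, hm⟩ := Nat.exists_eq_succ_of_ne_zero h0.ne'
        rw [hm, Nat.succ_eq_add_one, Function.iterate_succ_apply] at h3
        have := h6 m h3
        omega
  -- the group
  set U : Subgroup M := closure ((((St P H (nJ v0)).map (tr σ g v0) : Subgroup M) : Set M) ∪
    ⋃ v, ((F v).image (fun f => trk σ g ψ (d v) v f) : Finset M)) with hU
  have hUF : ∀ v, ∀ f ∈ F v, trk σ g ψ (d v) v f ∈ U := by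
    intro v f hf
    apply Subgroup.subset_closure
    right
    rw [Set.mem_iUnion]
    exact ⟨v, Finset.mem_coe.2 (Finset.mem_image_of_mem _ hf)⟩
  have hmain : ∀ (t : ℕ) v, ρ v = v → v ≠ v0 → (Finset.univ.sup d) < d v + t →
      ∀ y ∈ St P H (nJ v), trk σ g ψ (d v) v y ∈ U := by
    intro t
    induction t with
    | zero =>
      intro v hv hne ht
      have := Finset.le_sup (f := d) (Finset.mem_univ v)
      omega
    | succ t ih =>
      intro v hv hne ht y hy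
      have h3 : St P H (nJ v) ≤ U.comap (trk σ g ψ (d v) v) := by
        refine (hgen v hv).trans ?_
        rw [closure_le]
        rintro z (hz | ⟨u, hu, hu', hz⟩)
        · exact hUF v z hz
        · have hune : u ≠ v0 := by
            rintro rfl
            exact hne (hu'.symm.trans hψv0)
          obtain ⟨z', hz', hz''⟩ := hz
          have hz3 : z = tr σ g u z' := by
            have : σ z' = g u * z * (g u)⁻¹ := hz''
            rw [tr_apply, this]
            group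
          have h4 := hdsucc u hu hune
          rw [hu'] at h4
          have h5 := ih u hu hune (by omega) z' hz'
          rw [h4] at h5
          show trk σ g ψ (d v) v z ∈ U
          rw [hz3]
          have h6 : trk σ g ψ (d v + 1) u z' = trk σ g ψ (d v) (ψ u) (tr σ g u z') := rfl
          rw [h6, hu'] at h5
          exact h5
      exact h3 hy
  have hrootU : St P H (nJ v0) ≤ U := by
    refine (hgen v0 hv0).trans ?_
    rw [closure_le]
    rintro z (hz | ⟨u, hu, hu', hz⟩)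
    · have := hUF v0 z hz
      rw [hdv0] at this
      exact this
    · obtain ⟨z', hz', hz''⟩ := hz
      have hz3 : z = tr σ g u z' := by
        have : σ z' = g u * z * (g u)⁻¹ := hz''
        rw [tr_apply, this]
        group
      by_cases hune : u = v0
      · subst hune
        apply Subgroup.subset_closure
        left
        exact ⟨z', hz', hz3.symm⟩
      · have h4 := hdsucc u hu hune
        rw [hu', hdv0] at h4
        have h5 := hmain (Finset.univ.sup d + 1) u hu hune (by omega) z' hz'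
        rw [h4] at h5
        have h6 : trk σ g ψ (0 + 1) u z' = tr σ g u z' := rfl
        rw [h6, ← hz3] at h5
        exact h5
  -- conjugation to the base point
  set e : M := σ d0 * g v0 * d0⁻¹ with he
  have heP : e ∈ P := P.mul_mem (P.mul_mem (hσP _ hd0) (hgP _)) (P.inv_mem hd0)
  have heH : e ∈ H := by
    have h3 := hσH _ hd0H
    have h4 := hg v0
    rw [hψv0] at h4
    have : e = σ (d0 * nJ v0) * ((σ (nJ v0))⁻¹ * g v0 * nJ v0) * (d0 * nJ v0)⁻¹ := by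
      rw [he]
      simp only [map_mul]
      group
    rw [this]
    exact H.mul_mem (H.mul_mem h3 h4) (H.inv_mem hd0H)
  have hStK : ∀ k, k ∈ P ⊓ H → d0⁻¹ * k * d0 ∈ St P H (nJ v0) := by
    rintro k ⟨hk, hk'⟩
    refine ⟨P.mul_mem (P.mul_mem (P.inv_mem hd0) hk) hd0, ?_⟩
    have : (nJ v0)⁻¹ * (d0⁻¹ * k * d0) * nJ v0 = (d0 * nJ v0)⁻¹ * k * (d0 * nJ v0) := by group
    rw [this]
    exact H.mul_mem (H.mul_mem (H.inv_mem hd0H) hk') hd0H
  have hKSt : ∀ y ∈ St P H (nJ v0), d0 * y * d0⁻¹ ∈ P ⊓ H := by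
    rintro y ⟨hy, hy'⟩
    refine ⟨P.mul_mem (P.mul_mem hd0 hy) (P.inv_mem hd0), ?_⟩
    have : d0 * y * d0⁻¹ = (d0 * nJ v0) * ((nJ v0)⁻¹ * y * nJ v0) * (d0 * nJ v0)⁻¹ := by group
    rw [this]
    exact H.mul_mem (H.mul_mem hd0H hy') (H.inv_mem hd0H)
  refine ⟨Finset.univ.biUnion (fun v => (F v).image
    (fun f => e * (d0 * trk σ g ψ (d v) v f * d0⁻¹) * e⁻¹)), ?_, ?_, ?_⟩
  · refine Finset.card_biUnion_le.trans (Finset.sum_le_sum fun v _ => Finset.card_image_le)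
  · intro f hf
    rw [Finset.mem_biUnion] at hf
    obtain ⟨v, -, hf⟩ := hf
    rw [Finset.mem_image] at hf
    obtain ⟨f, hf, rfl⟩ := hf
    have hv : ρ v = v := by
      by_contra hne
      rw [hF0 v hne] at hf
      simp at hf
    have h3 := trk_St hσP hσH hgP hg (d v) v (hF v f hf)
    rw [(hd v hv).1] at h3
    exact (P ⊓ H).mul_mem ((P ⊓ H).mul_mem ⟨heP, heH⟩ (hKSt _ h3)) ((P ⊓ H).inv_mem ⟨heP, heH⟩)
  · intro k hk
    have h3 := hStK _ ((P ⊓ H).mul_mem ((P ⊓ H).mul_mem ((P ⊓ H).inv_mem ⟨heP, heH⟩) hk)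
      ⟨heP, heH⟩)
    have h4 := hrootU h3
    have h5 : U ≤ ((P ⊓ H).map σ.toMonoidHom ⊔ closure ((Finset.univ.biUnion (fun v => (F v).image
        (fun f => e * (d0 * trk σ g ψ (d v) v f * d0⁻¹) * e⁻¹)) : Finset M) : Set M)).comap
        (MulAut.conj (e * d0)).toMonoidHom := by
      have hc : ∀ z, (MulAut.conj (e * d0)).toMonoidHom z = e * (d0 * z * d0⁻¹) * e⁻¹ := by
        intro z
        show (e * d0) * z * (e * d0)⁻¹ = _
        group
      rw [hU, closure_le]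
      rintro z (⟨z', hz', hz''⟩ | hz)
      · rw [SetLike.mem_coe, Subgroup.mem_comap, hc]
        apply Subgroup.mem_sup_left
        refine ⟨d0 * z' * d0⁻¹, hKSt _ hz', ?_⟩
        show σ (d0 * z' * d0⁻¹) = _
        rw [← hz'', tr_apply, he]
        simp only [map_mul, map_inv]
        group
      · rw [SetLike.mem_coe, Subgroup.mem_comap, hc]
        apply Subgroup.mem_sup_right
        apply Subgroup.subset_closure
        rw [Set.mem_iUnion] at hz
        obtain ⟨v, hz⟩ := hz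
        rw [Finset.mem_coe, Finset.mem_image] at hz
        obtain ⟨f, hf, rfl⟩ := hz
        rw [Finset.mem_coe, Finset.mem_biUnion]
        exact ⟨v, Finset.mem_univ _, Finset.mem_image.2 ⟨f, hf, rfl⟩⟩
    have h6 := h5 h4
    have h7 : (MulAut.conj (e * d0)).toMonoidHom (d0⁻¹ * (e⁻¹ * k * e) * d0) = k := by
      show (e * d0) * (d0⁻¹ * (e⁻¹ * k * e) * d0) * (e * d0)⁻¹ = k
      group
    rw [Subgroup.mem_comap, h7] at h6
    exact h6

end Pool.Agent.H84.MN
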