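import Pool.Agent.H84.MN.Rel
import Pool.Agent.H84.MN.Dyn

/-!
# Construction of the subtree; the Grushko theorem for an internal free product
-/

set_option autoImplicit false
set_option linter.unusedSectionVars false

namespace Pool.Agent.H84.MN

open Subgroup

variable {M : Type*} [Group M] {ι : Type*}

/-- `M` is the free product of the `σ`-invariant subgroups `H i`. -/
structure FreeFam (σ : M ≃* M) (H : ι → Subgroup M) : Prop where
  nf : UniqNF H
  σH : ∀ i, ∀ h ∈ H i, σ h ∈ H i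
  conn : ∀ m, Relation.ReflTransGen (fun x y => ∃ i, x⁻¹ * y ∈ H i) 1 m
  retr : ∀ i, ∃ π : M →* M, (∀ m, π m ∈ H i) ∧ (∀ h ∈ H i, π h = h) ∧ ∀ m, π (σ m) = σ (π m)

variable {σ : M ≃* M} {H : ι → Subgroup M}

theorem FreeFam.exists_finset (h : FreeFam σ H) (m : M) :
    ∃ L : Finset M, (1 : M) ∈ L ∧ m ∈ L ∧ ∀ e ∈ L,
      Relation.ReflTransGen (fun x y => x ∈ L ∧ y ∈ L ∧ ∃ i, x⁻¹ * y ∈ H i) 1 e := by
  classical
  induction h.conn m with
  | refl =>
    refine ⟨{1}, by simp, by simp, fun e he => ?_⟩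
    rw [Finset.mem_singleton.1 he]
  | @tail a b _ h2 ih =>
    obtain ⟨L, h3, h4, h5⟩ := ih
    have hmono : ∀ e ∈ L, Relation.ReflTransGen (fun x y => x ∈ insert b L ∧ y ∈ insert b L ∧
        ∃ i, x⁻¹ * y ∈ H i) 1 e := fun e he =>
      Relation.ReflTransGen.mono (r := fun x y => x ∈ L ∧ y ∈ L ∧ ∃ i, x⁻¹ * y ∈ H i)
        (fun x y hxy => ⟨Finset.mem_insert_of_mem hxy.1, Finset.mem_insert_of_mem hxy.2.1,
          hxy.2.2⟩) 1 e (h5 e he)
    refine ⟨insert b L, Finset.mem_insert_of_mem h3, Finset.mem_insert_self _ _, fun e he => ?_⟩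
    rcases Finset.mem_insert.1 he with rfl | he
    · exact Relation.ReflTransGen.tail (hmono a h4)
        ⟨Finset.mem_insert_of_mem h4, Finset.mem_insert_self _ _, h2⟩
    · exact hmono e he

theorem FreeFam.exists_finset' (h : FreeFam σ H) (X : Finset M) :
    ∃ L : Finset M, (1 : M) ∈ L ∧ (∀ x ∈ X, x ∈ L) ∧ ∀ e ∈ L,
      Relation.ReflTransGen (fun x y => x ∈ L ∧ y ∈ L ∧ ∃ i, x⁻¹ * y ∈ H i) 1 e := by
  classical
  choose L h1 h2 h3 using h.exists_finset
  refine ⟨insert 1 (X.biUnion L), Finset.mem_insert_self _ _, fun x hx =>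
    Finset.mem_insert_of_mem (Finset.mem_biUnion.2 ⟨x, hx, h2 x⟩), fun e he => ?_⟩
  rcases Finset.mem_insert.1 he with rfl | he
  · exact Relation.ReflTransGen.refl
  · obtain ⟨x, hx, hx'⟩ := Finset.mem_biUnion.1 he
    exact Relation.ReflTransGen.mono (r := fun a b => a ∈ L x ∧ b ∈ L x ∧ ∃ i, a⁻¹ * b ∈ H i)
        (fun a b hab => ⟨Finset.mem_insert_of_mem (Finset.mem_biUnion.2 ⟨x, hx, hab.1⟩),
          Finset.mem_insert_of_mem (Finset.mem_biUnion.2 ⟨x, hx, hab.2.1⟩),
          hab.2.2⟩) 1 e (h3 x e hx')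

/-- The subtree. -/
def tree (σ : M ≃* M) (P : Subgroup M) (L : Finset M) : Set M :=
  {m | ∃ p ∈ P, ∃ k : ℕ, ∃ e ∈ L, m = p * σ^[k] e}

variable {P : Subgroup M} {X S : Finset M}

theorem σ_iter_mem (hσP : ∀ p ∈ P, σ p ∈ P) {e : M} {k : ℕ} (h : σ^[k] e ∈ P) {l : ℕ}
    (hl : k ≤ l) : σ^[l] e ∈ P := by
  induction l, hl using Nat.le_induction with
  | base => exact h
  | succ l _ ih =>
    rw [Function.iterate_succ_apply']
    exact hσP _ ih

theorem σ_iter_H (hσH : ∀ i, ∀ h ∈ H i, σ h ∈ H i) (i : ι) (k : ℕ) {z : M} (hz : z ∈ H i) :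
    σ^[k] z ∈ H i := by
  induction k with
  | zero => exact hz
  | succ k ih =>
    rw [Function.iterate_succ_apply']
    exact hσH i _ ih

theorem FreeFam.exists_core (h : FreeFam σ H)
    (hX : P = closure {y | ∃ k : ℕ, ∃ x ∈ X, y = σ^[k] x})
    (hcof : ∀ m, ∃ k : ℕ, σ^[k] m ∈ P)
    (hS : P = P.map σ.toMonoidHom ⊔ closure (S : Set M)) :
    ∃ (E : Set M) (L : Finset M) (J : Set L) (nJ : J → M), Core σ H P S E nJ := by
  classical
  have hσP : ∀ p ∈ P, σ p ∈ P := by
    intro p hp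
    rw [hS]
    exact Subgroup.mem_sup_left ⟨p, hp, rfl⟩
  obtain ⟨L0, h1, h2, h3⟩ := h.exists_finset' X
  set E := tree σ P L0 with hE
  have hPE : ∀ p ∈ P, ∀ e ∈ E, p * e ∈ E := by
    rintro p hp _ ⟨q, hq, k, e, he, rfl⟩
    exact ⟨p * q, P.mul_mem hp hq, k, e, he, by rw [mul_assoc]⟩
  have hLE : ∀ k, ∀ e ∈ L0, σ^[k] e ∈ E := fun k e he => ⟨1, P.one_mem, k, e, he, by rw [one_mul]⟩
  have h1E : (1 : M) ∈ E := hLE 0 1 h1
  have hPE' : ∀ p ∈ P, p ∈ E := by
    intro p hp
    have := hPE p hp 1 h1E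
    rwa [mul_one] at this
  have hσE : ∀ e ∈ E, σ e ∈ E := by
    rintro _ ⟨q, hq, k, e, he, rfl⟩
    refine ⟨σ q, hσP q hq, k + 1, e, he, ?_⟩
    rw [map_mul, Function.iterate_succ_apply']
  -- connectedness
  set r : M → M → Prop := fun x y => x ∈ E ∧ y ∈ E ∧ ∃ i, x⁻¹ * y ∈ H i with hr
  have hsymm : ∀ {x y}, Relation.ReflTransGen r x y → Relation.ReflTransGen r y x := by
    intro x y hxy
    induction hxy with
    | refl => exact Relation.ReflTransGen.refl
    | @tail a b _ h2 ih =>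
      obtain ⟨ha, hb, i, hi⟩ := h2
      refine Relation.ReflTransGen.head ⟨hb, ha, i, ?_⟩ ih
      have : b⁻¹ * a = (a⁻¹ * b)⁻¹ := by group
      rw [this]
      exact (H i).inv_mem hi
  have hmul : ∀ p ∈ P, ∀ {x y}, Relation.ReflTransGen r x y →
      Relation.ReflTransGen r (p * x) (p * y) := by
    intro p hp x y hxy
    induction hxy with
    | refl => exact Relation.ReflTransGen.refl
    | @tail a b _ h2 ih =>
      obtain ⟨ha, hb, i, hi⟩ := h2
      refine Relation.ReflTransGen.tail ih ⟨hPE p hp _ ha, hPE p hp _ hb, i, ?_⟩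
      have : (p * a)⁻¹ * (p * b) = a⁻¹ * b := by group
      rw [this]
      exact hi
  have hL : ∀ k : ℕ, ∀ e ∈ L0, Relation.ReflTransGen r 1 (σ^[k] e) := by
    intro k e he
    have h4 := h3 e he
    have h5 : ∀ a, Relation.ReflTransGen (fun x y => x ∈ L0 ∧ y ∈ L0 ∧ ∃ i, x⁻¹ * y ∈ H i) 1 a →
        Relation.ReflTransGen r 1 (σ^[k] a) := by
      intro a ha
      induction ha with
      | refl => rw [iterate_map_one]
      | @tail a b _ h6 ih =>
        obtain ⟨ha, hb, i, hi⟩ := h6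
        refine Relation.ReflTransGen.tail ih ⟨hLE k a ha, hLE k b hb, i, ?_⟩
        have h7 : (σ^[k] a)⁻¹ * σ^[k] b = σ^[k] (a⁻¹ * b) := by
          rw [iterate_map_mul, iterate_map_inv]
        rw [h7]
        exact σ_iter_H h.σH i k hi
    exact h5 e h4
  have hK : ∀ p ∈ P, Relation.ReflTransGen r 1 p := by
    let K : Subgroup M :=
      { carrier := {p | p ∈ P ∧ Relation.ReflTransGen r 1 p}
        mul_mem' := by
          rintro a b ⟨ha, ha'⟩ ⟨hb, hb'⟩
          refine ⟨P.mul_mem ha hb, ha'.trans ?_⟩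
          have := hmul a ha hb'
          rwa [mul_one] at this
        one_mem' := ⟨P.one_mem, Relation.ReflTransGen.refl⟩
        inv_mem' := by
          rintro a ⟨ha, ha'⟩
          refine ⟨P.inv_mem ha, ?_⟩
          have := hmul a⁻¹ (P.inv_mem ha) ha'
          rw [mul_one, inv_mul_cancel] at this
          exact hsymm this }
    have hPK : P ≤ K := by
      have h4 : closure {y | ∃ k : ℕ, ∃ x ∈ X, y = σ^[k] x} ≤ K := by
        rw [closure_le]
        rintro _ ⟨k, x, hx, rfl⟩
        refine ⟨?_, hL k x (h2 x hx)⟩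
        rw [hX]
        exact Subgroup.subset_closure ⟨k, x, hx, rfl⟩
      rwa [← hX] at h4
    exact fun p hp => (hPK hp).2
  have hconn : ∀ e ∈ E, Relation.ReflTransGen r 1 e := by
    rintro _ ⟨p, hp, k, e, he, rfl⟩
    have := hmul p hp (hL k e he)
    rw [mul_one] at this
    exact (hK p hp).trans this
  -- finitely many orbits
  choose kk hkk using hcof
  set K0 := L0.sup kk with hK0
  set L1 : Finset M := insert 1 ((Finset.range K0 ×ˢ L0).image (fun q => σ^[q.1] q.2)) with hL1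
  have hL1E : ∀ l ∈ L1, l ∈ E := by
    intro l hl
    rcases Finset.mem_insert.1 hl with rfl | hl
    · exact h1E
    · obtain ⟨⟨k, e⟩, hq, rfl⟩ := Finset.mem_image.1 hl
      exact hLE k e (Finset.mem_product.1 hq).2
  have hcov : ∀ e ∈ E, ∃ p ∈ P, ∃ l ∈ L1, e = p * l := by
    rintro _ ⟨p, hp, k, e, he, rfl⟩
    by_cases hk : k < K0
    · exact ⟨p, hp, _, Finset.mem_insert_of_mem (Finset.mem_image.2 ⟨(k, e),
        Finset.mem_product.2 ⟨Finset.mem_range.2 hk, he⟩, rfl⟩), rfl⟩
    · refine ⟨p * σ^[k] e, P.mul_mem hp (σ_iter_mem hσP (hkk e) ?_), 1,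
        Finset.mem_insert_self _ _, by rw [mul_one]⟩
      have := Finset.le_sup (f := kk) he
      omega
  let s : Setoid L1 :=
    { r := fun l l' => ∃ p ∈ P, p * (l : M) = l'
      iseqv := by
        refine ⟨fun l => ⟨1, P.one_mem, by simp⟩, ?_, ?_⟩
        · rintro l l' ⟨p, hp, hl⟩
          exact ⟨p⁻¹, P.inv_mem hp, by rw [← hl]; group⟩
        · rintro l l' l'' ⟨p, hp, hl⟩ ⟨q, hq, hl'⟩
          exact ⟨q * p, P.mul_mem hq hp, by rw [← hl', ← hl]; group⟩ }
  refine ⟨E, L1, {l | (Quotient.mk s l).out = l}, fun l => ((l : L1) : M), ?_⟩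
  exact
  { nf := h.nf
    σH := h.σH
    σP := hσP
    SP := by
      intro x hx
      rw [hS]
      exact Subgroup.mem_sup_right (Subgroup.subset_closure hx)
    gen := by
      conv_lhs => rw [hS]
    PE := hPE
    σE := hσE
    one := h1E
    conn := fun e he => Relation.ReflTransGen.mono (r := r)
      (p := fun x y => y ∈ E ∧ ∃ i, x⁻¹ * y ∈ H i) (fun a b hab => hab.2) 1 e (hconn e he)
    nJE := fun j => hL1E _ (j : L1).2
    cov := by
      intro e he
      obtain ⟨p, hp, l, hl, rfl⟩ := hcov e he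
      have h4 : s.r (Quotient.mk s ⟨l, hl⟩).out ⟨l, hl⟩ := Quotient.mk_out (s := s) ⟨l, hl⟩
      obtain ⟨q, hq, hq'⟩ := h4
      refine ⟨p * q, P.mul_mem hp hq, ⟨(Quotient.mk s ⟨l, hl⟩).out, ?_⟩, ?_⟩
      · show (Quotient.mk s (Quotient.mk s ⟨l, hl⟩).out).out = (Quotient.mk s ⟨l, hl⟩).out
        rw [Quotient.out_eq]
      · show p * l = p * q * ((Quotient.mk s ⟨l, hl⟩).out : M)
        rw [mul_assoc, hq']
    inj := by
      rintro ⟨j, hj⟩ ⟨j', hj'⟩ p hp hjj
      have h4 : Quotient.mk s j = Quotient.mk s j' := Quotient.sound ⟨p, hp, hjj⟩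
      apply Subtype.ext
      show j = j'
      rw [← (hj : (Quotient.mk s j).out = j), ← (hj' : (Quotient.mk s j').out = j'), h4] }

/-- The Grushko theorem for an internal free product with an automorphism. -/
theorem FreeFam.grushko [Fintype ι] (h : FreeFam σ H)
    (hX : P = closure {y | ∃ k : ℕ, ∃ x ∈ X, y = σ^[k] x})
    (hcof : ∀ m, ∃ k : ℕ, σ^[k] m ∈ P)
    (hS : P = P.map σ.toMonoidHom ⊔ closure (S : Set M)) :
    ∃ e : ι → ℕ, ∑ i, e i ≤ S.card ∧ ∀ i, ∃ Xi Si : Finset M, Si.card ≤ e i ∧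
      (∀ x ∈ Xi, x ∈ H i) ∧ (∀ x ∈ Si, x ∈ H i) ∧
      P ⊓ H i = closure {y | ∃ k : ℕ, ∃ x ∈ Xi, y = σ^[k] x} ∧
      P ⊓ H i = (P ⊓ H i).map σ.toMonoidHom ⊔ closure (Si : Set M) := by
  classical
  rcases isEmpty_or_nonempty ι with hι | hι
  · exact ⟨fun _ => 0, by simp, fun i => (hι.false i).elim⟩
  obtain ⟨E, L, J, nJ, hc⟩ := h.exists_core hX hcof hS
  have : Fintype J := Fintype.ofFinite J
  obtain ⟨ρ, ψ, g, F, f1, f2, f3, f4, f5, f6, f7, f8, f9, f10⟩ := hc.relative
  refine ⟨fun i => ∑ w, (F i w).card, f10, fun i => ?_⟩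
  -- the root
  obtain ⟨p1, hp1, j1, h1⟩ := hc.cov 1 hc.one
  obtain ⟨κ, hκ, hκ'⟩ := f2 i j1
  have hd0H : p1 * κ * nJ (ρ i j1) ∈ H i := by
    have : p1 * κ * nJ (ρ i j1) = (p1 * nJ j1) * ((nJ j1)⁻¹ * κ * nJ (ρ i j1)) := by group
    rw [this, ← h1, one_mul]
    exact hκ'
  obtain ⟨S', hS1, hS2, hS3⟩ := dyn hc.σP (hc.σH i) (f3 i) (f4 i) (f5 i) (f6 i) (f7 i) (f8 i)
    (f9 i) (P.mul_mem hp1 hκ) (f1 i j1) hd0H (fun v => hcof (nJ v))
  obtain ⟨π, hπ1, hπ2, hπ3⟩ := h.retr i
  have hπk : ∀ (k : ℕ) m, π (σ^[k] m) = σ^[k] (π m) := by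
    intro k m
    induction k with
    | zero => rfl
    | succ k ih => rw [Function.iterate_succ_apply', Function.iterate_succ_apply', hπ3, ih]
  choose kk hkk using hcof
  set k0 := X.sup (fun x => kk (π x)) with hk0
  have hk : ∀ x ∈ X, σ^[k0] (π x) ∈ P ⊓ H i := by
    intro x hx
    refine ⟨σ_iter_mem hc.σP (hkk (π x)) (Finset.le_sup (f := fun x => kk (π x)) hx), ?_⟩
    exact σ_iter_H h.σH i k0 (hπ1 x)
  have hσK : ∀ y ∈ P ⊓ H i, σ y ∈ P ⊓ H i := fun y hy => ⟨hc.σP y hy.1, h.σH i y hy.2⟩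
  have hσKk : ∀ (k : ℕ), ∀ y ∈ P ⊓ H i, σ^[k] y ∈ P ⊓ H i := by
    intro k y hy
    induction k with
    | zero => exact hy
    | succ k ih =>
      rw [Function.iterate_succ_apply']
      exact hσK _ ih
  have hSeq : P ⊓ H i = (P ⊓ H i).map σ.toMonoidHom ⊔ closure (S' : Set M) := by
    apply le_antisymm hS3
    refine sup_le ?_ ?_
    · rintro _ ⟨y, hy, rfl⟩
      exact hσK y hy
    · rw [closure_le]
      exact fun f hf => hS2 f hf
  set Xi : Finset M := S' ∪ X.image (fun x => σ^[k0] (π x)) with hXi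
  refine ⟨Xi, S', hS1, ?_, fun x hx => (hS2 x hx).2, ?_, hSeq⟩
  · intro x hx
    rcases Finset.mem_union.1 hx with hx | hx
    · exact (hS2 x hx).2
    · obtain ⟨y, hy, rfl⟩ := Finset.mem_image.1 hx
      exact (hk y hy).2
  · set C : Subgroup M := closure {y | ∃ k : ℕ, ∃ x ∈ Xi, y = σ^[k] x} with hC
    have hσC : ∀ y ∈ C, σ y ∈ C := by
      have : C ≤ C.comap σ.toMonoidHom := by
        conv_lhs => rw [hC]
        rw [closure_le]
        rintro _ ⟨k, x, hx, rfl⟩
        apply Subgroup.subset_closure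
        refine ⟨k + 1, x, hx, ?_⟩
        rw [Function.iterate_succ_apply']
        rfl
      exact this
    apply le_antisymm
    · -- `P ⊓ H i ≤ C`
      have h2 : ∀ y ∈ P, σ^[k0] (π y) ∈ C := by
        let T : Subgroup M :=
          { carrier := {y | σ^[k0] (π y) ∈ C}
            mul_mem' := by
              intro a b ha hb
              show σ^[k0] (π (a * b)) ∈ C
              rw [map_mul, iterate_map_mul]
              exact C.mul_mem ha hb
            one_mem' := by
              show σ^[k0] (π 1) ∈ C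
              rw [map_one, iterate_map_one]
              exact C.one_mem
            inv_mem' := by
              intro a ha
              show σ^[k0] (π a⁻¹) ∈ C
              rw [map_inv, iterate_map_inv]
              exact C.inv_mem ha }
        have : P ≤ T := by
          have h3 : closure {y | ∃ k : ℕ, ∃ x ∈ X, y = σ^[k] x} ≤ T := by
            rw [closure_le]
            rintro _ ⟨k, x, hx, rfl⟩
            show σ^[k0] (π (σ^[k] x)) ∈ C
            rw [hπk, ← Function.iterate_add_apply, Nat.add_comm, Function.iterate_add_apply]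
            apply Subgroup.subset_closure
            exact ⟨k, _, Finset.mem_union_right _ (Finset.mem_image_of_mem _ hx), rfl⟩
          rwa [← hX] at h3
        exact this
      have h4 : ∀ k : ℕ, P ⊓ H i ≤ closure {y | ∃ z ∈ P ⊓ H i, y = σ^[k] z} ⊔ C := by
        intro k
        induction k with
        | zero =>
          intro y hy
          exact Subgroup.mem_sup_left (Subgroup.subset_closure ⟨y, hy, rfl⟩)
        | succ k ih =>
          refine ih.trans (sup_le ?_ le_sup_right)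
          rw [closure_le]
          rintro _ ⟨z, hz, rfl⟩
          rw [hSeq] at hz
          obtain ⟨W, hW⟩ : ∃ W, W = closure {y | ∃ z ∈ P ⊓ H i, y = σ^[k + 1] z} ⊔ C := ⟨_, rfl⟩
          rw [← hW]
          have h5 : (P ⊓ H i).map σ.toMonoidHom ⊔ closure (S' : Set M) ≤
              { carrier := {z | σ^[k] z ∈ W}
                mul_mem' := by
                  intro a b ha hb
                  show σ^[k] (a * b) ∈ W
                  rw [iterate_map_mul]
                  exact Subgroup.mul_mem _ ha hb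
                one_mem' := by
                  show σ^[k] 1 ∈ W
                  rw [iterate_map_one]
                  exact Subgroup.one_mem _
                inv_mem' := by
                  intro a ha
                  show σ^[k] a⁻¹ ∈ W
                  rw [iterate_map_inv]
                  exact Subgroup.inv_mem _ ha : Subgroup M } := by
            refine sup_le ?_ ?_
            · rintro _ ⟨y, hy, rfl⟩
              show σ^[k] (σ y) ∈ W
              rw [hW]
              exact Subgroup.mem_sup_left (Subgroup.subset_closure ⟨y, hy, rfl⟩)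
            · rw [closure_le]
              intro f hf
              show σ^[k] f ∈ W
              rw [hW]
              exact Subgroup.mem_sup_right (Subgroup.subset_closure
                ⟨k, f, Finset.mem_union_left _ hf, rfl⟩)
          exact h5 hz
      refine (h4 k0).trans (sup_le ?_ (le_refl _))
      rw [closure_le]
      rintro _ ⟨z, hz, rfl⟩
      have := h2 z hz.1
      rwa [hπ2 z hz.2] at this
    · rw [hC, closure_le]
      rintro _ ⟨k, x, hx, rfl⟩
      apply hσKk
      rcases Finset.mem_union.1 hx with hx | hx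
      · exact hS2 x hx
      · obtain ⟨y, hy, rfl⟩ := Finset.mem_image.1 hx
        exact hk y hy

end Pool.Agent.H84.MN
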