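import Pool.Agent.H84.MN.Base

/-!
# Reading off the stabilisers from the folded graph
-/

set_option autoImplicit false
set_option linter.unusedSectionVars false

namespace Pool.Agent.H84.MN

open Subgroup

variable {M : Type*} [Group M] {ι : Type*}
variable {σ : M ≃* M} {H : ι → Subgroup M} {P : Subgroup M} {S : Finset M} {E : Set M}
  {J : Type*} {nJ : J → M} {Λ : Type*}

/-- The old representatives. -/
def VV (Λ : Type*) (ρ : J → J) : Set (J ⊕ Λ) := {l | ∃ v, ρ v = v ∧ l = Sum.inl v}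

/-- The old stabilisers. -/
def QQ (Λ : Type*) (σ : M ≃* M) (P H : Subgroup M) (nJ : J → M) : J ⊕ Λ → Subgroup M :=
  Sum.elim (fun v => (St P H (nJ v)).map σ.toMonoidHom) (fun _ => ⊥)

theorem QQ_le (h : Core σ H P S E nJ) {n : J ⊕ Λ → M} (hnl : ∀ j, n (Sum.inl j) = σ (nJ j))
    (i : ι) (ρ : J → J) :
    ∀ v ∈ VV Λ ρ, QQ Λ σ P (H i) nJ v ≤ St P (H i) (n v) := by
  rintro _ ⟨v, -, rfl⟩
  rintro _ ⟨y, ⟨h1, h2⟩, rfl⟩
  refine ⟨h.σP y h1, ?_⟩
  have := h.σH i _ h2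
  rw [hnl]
  simpa using this

theorem extract [Fintype Λ] [Fintype J] (h : Core σ H P S E nJ) {n : J ⊕ Λ → M}
    (hnl : ∀ j, n (Sum.inl j) = σ (nJ j)) (hnE : ∀ w, n w ∈ E) (i : ι)
    {ρ : J → J} {κ : J → M} (hρ : ∀ j, ρ (ρ j) = ρ j) (hκ : ∀ j, κ j ∈ P)
    (hκH : ∀ j, (nJ j)⁻¹ * κ j * nJ (ρ j) ∈ H i)
    (hρeq : ∀ j j', ∀ p ∈ P, (nJ j)⁻¹ * p * nJ j' ∈ H i → ρ j = ρ j')
    (D : Dat P (H i) n)
    (hfull : ∀ u v : P × (J ⊕ Λ), (pt n u)⁻¹ * pt n v ∈ H i →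
      D.rel (VV Λ ρ) (QQ Λ σ P (H i) nJ) u v)
    (hen : ∀ j, ∃ u : P × (J ⊕ Λ), pt n u = nJ j) [DecidableEq J] :
    ∃ (ψ : J → J) (g : J → M) (F : J → Finset M), (∀ j, ρ (ψ j) = ψ j) ∧ (∀ j, g j ∈ P) ∧
      (∀ v, (σ (nJ v))⁻¹ * g v * nJ (ψ v) ∈ H i) ∧
      (∀ w, ∀ f ∈ F w, f ∈ St P (H i) (nJ w)) ∧ (∀ w, ρ w ≠ w → F w = ∅) ∧
      (∀ w, ρ w = w → St P (H i) (nJ w) ≤ closure ((F w : Set M) ∪
        {y | ∃ v, ρ v = v ∧ ψ v = w ∧
          g v * y * (g v)⁻¹ ∈ (St P (H i) (nJ v)).map σ.toMonoidHom})) ∧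
      ((∑ w, (F w).card : ℕ) : ℤ) - ((Finset.univ.image ρ).card : ℤ) ≤ D.cost := by
  classical
  have h1 : ∀ w, ∃ v, ρ v = v ∧ ∃ δ ∈ P, (n w)⁻¹ * δ * nJ v ∈ H i := by
    intro w
    obtain ⟨p, hp, j, hj⟩ := h.cov _ (hnE w)
    refine ⟨ρ j, hρ j, p * κ j, P.mul_mem hp (hκ j), ?_⟩
    have : (n w)⁻¹ * (p * κ j) * nJ (ρ j) = (nJ j)⁻¹ * κ j * nJ (ρ j) := by
      rw [hj]
      group
    rw [this]
    exact hκH j
  choose θ hθ δ hδ hδH using h1
  -- injectivity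
  have hinj : ∀ w w', D.a w = w → D.a w' = w' → θ w = θ w' → w = w' := by
    intro w w' hw hw' hww
    have h2 := hfull (1, w) (⟨δ w * (δ w')⁻¹, P.mul_mem (hδ w) (P.inv_mem (hδ w'))⟩, w') (by
      simp only [pt, OneMemClass.coe_one, one_mul]
      have h3 := hδH w
      have h4 := hδH w'
      rw [← hww] at h4
      have : (n w)⁻¹ * (δ w * (δ w')⁻¹ * n w') = ((n w)⁻¹ * δ w * nJ (θ w)) *
          ((n w')⁻¹ * δ w' * nJ (θ w))⁻¹ := by group
      rw [this]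
      exact (H i).mul_mem h3 ((H i).inv_mem h4))
    obtain ⟨h5, -⟩ := h2
    rwa [hw, hw'] at h5
  have hsurj : ∀ v, ρ v = v → ∃ w, D.a w = w ∧ θ w = v := by
    intro v hv
    obtain ⟨⟨b, l⟩, hu⟩ := hen v
    refine ⟨D.a l, D.idem l, ?_⟩
    have h2 := D.βH l
    have h3 := hδH (D.a l)
    have h4 := hρeq v (θ (D.a l)) (b * D.β l * δ (D.a l))
      (P.mul_mem (P.mul_mem b.2 (D.βB l)) (hδ _)) (by
        simp only [pt] at hu
        rw [← hu]
        have : ((b : M) * n l)⁻¹ * ((b : M) * D.β l * δ (D.a l)) * nJ (θ (D.a l)) =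
          ((n l)⁻¹ * D.β l * n (D.a l)) * ((n (D.a l))⁻¹ * δ (D.a l) * nJ (θ (D.a l))) := by group
        rw [this]
        exact (H i).mul_mem h2 h3)
    rw [hv, hθ] at h4
    exact h4.symm
  have h5 : ∀ v, ∃ w, ρ v = v → D.a w = w ∧ θ w = v := by
    intro v
    by_cases hv : ρ v = v
    · obtain ⟨w, hw⟩ := hsurj v hv
      exact ⟨w, fun _ => hw⟩
    · exact ⟨Sum.inl v, fun h => absurd h hv⟩
  choose θ' hθ' using h5
  have hbound := fun v => (D.St_le hfull (w := v))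
  refine ⟨fun v => θ (D.a (Sum.inl v)), fun v => D.β (Sum.inl v) * δ (D.a (Sum.inl v)),
    fun v => if ρ v = v then (D.F (θ' v)).image (fun f => (δ (θ' v))⁻¹ * f * δ (θ' v)) else ∅,
    fun j => hθ _, fun j => P.mul_mem (D.βB _) (hδ _), ?_, ?_, fun w hw => if_neg hw, ?_, ?_⟩
  · intro v
    have h2 := D.βH (Sum.inl v)
    have h3 := hδH (D.a (Sum.inl v))
    rw [hnl v] at h2
    have : (σ (nJ v))⁻¹ * (D.β (Sum.inl v) * δ (D.a (Sum.inl v))) * nJ (θ (D.a (Sum.inl v))) =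
      ((σ (nJ v))⁻¹ * D.β (Sum.inl v) * n (D.a (Sum.inl v))) *
        ((n (D.a (Sum.inl v)))⁻¹ * δ (D.a (Sum.inl v)) * nJ (θ (D.a (Sum.inl v)))) := by group
    rw [this]
    exact (H i).mul_mem h2 h3
  · intro w f hf
    dsimp only at hf
    split_ifs at hf with hw
    · rw [Finset.mem_image] at hf
      obtain ⟨f, hf, rfl⟩ := hf
      obtain ⟨h2, h3⟩ := D.FB _ f hf
      obtain ⟨h4, h5⟩ := hθ' w hw
      have h6 := hδH (θ' w)
      rw [h5] at h6
      refine ⟨P.mul_mem (P.mul_mem (P.inv_mem (hδ _)) h2) (hδ _), ?_⟩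
      have : (nJ w)⁻¹ * ((δ (θ' w))⁻¹ * f * δ (θ' w)) * nJ w =
        ((n (θ' w))⁻¹ * δ (θ' w) * nJ w)⁻¹ * ((n (θ' w))⁻¹ * f * n (θ' w)) *
          ((n (θ' w))⁻¹ * δ (θ' w) * nJ w) := by group
      rw [this]
      exact (H i).mul_mem ((H i).mul_mem ((H i).inv_mem h6) h3) h6
    · simp at hf
  · intro w hw y hy
    obtain ⟨h4, h5⟩ := hθ' w hw
    have h6 := hδH (θ' w)
    rw [h5] at h6
    -- conjugate into the stabiliser of `n (θ' w)`
    have h7 : δ (θ' w) * y * (δ (θ' w))⁻¹ ∈ St P (H i) (n (θ' w)) := by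
      refine ⟨P.mul_mem (P.mul_mem (hδ _) hy.1) (P.inv_mem (hδ _)), ?_⟩
      have : (n (θ' w))⁻¹ * (δ (θ' w) * y * (δ (θ' w))⁻¹) * n (θ' w) =
        ((n (θ' w))⁻¹ * δ (θ' w) * nJ w) * ((nJ w)⁻¹ * y * nJ w) *
          ((n (θ' w))⁻¹ * δ (θ' w) * nJ w)⁻¹ := by group
      rw [this]
      exact (H i).mul_mem ((H i).mul_mem h6 hy.2) ((H i).inv_mem h6)
    have h8 := hbound (θ' w) h4 h7
    have h9 : D.S (VV Λ ρ) (QQ Λ σ P (H i) nJ) (θ' w) ≤ (closure
        (((if ρ w = w then (D.F (θ' w)).image (fun f => (δ (θ' w))⁻¹ * f * δ (θ' w)) else ∅ :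
          Finset M) : Set M) ∪
        {y | ∃ v, ρ v = v ∧ θ (D.a (Sum.inl v)) = w ∧
          D.β (Sum.inl v) * δ (D.a (Sum.inl v)) * y * (D.β (Sum.inl v) * δ (D.a (Sum.inl v)))⁻¹ ∈
            (St P (H i) (nJ v)).map σ.toMonoidHom})).comap
        (MulAut.conj (δ (θ' w))⁻¹).toMonoidHom := by
      have hc : ∀ z, (MulAut.conj (δ (θ' w))⁻¹).toMonoidHom z =
          (δ (θ' w))⁻¹ * z * δ (θ' w) := by
        intro z
        show (δ (θ' w))⁻¹ * z * ((δ (θ' w))⁻¹)⁻¹ = _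
        rw [inv_inv]
      rw [Dat.S, closure_le]
      rintro z (hz | ⟨v, ⟨v0, hv0, rfl⟩, hv', hz⟩)
      · rw [SetLike.mem_coe, Subgroup.mem_comap, hc]
        apply Subgroup.subset_closure
        left
        rw [if_pos hw]
        exact Finset.mem_coe.2 (Finset.mem_image_of_mem _ hz)
      · rw [SetLike.mem_coe, Subgroup.mem_comap, hc]
        apply Subgroup.subset_closure
        right
        refine ⟨v0, hv0, by rw [hv', h5], ?_⟩
        rw [hv']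
        have : D.β (Sum.inl v0) * δ (θ' w) * ((δ (θ' w))⁻¹ * z * δ (θ' w)) *
          (D.β (Sum.inl v0) * δ (θ' w))⁻¹ = D.β (Sum.inl v0) * z * (D.β (Sum.inl v0))⁻¹ := by group
        rw [this]
        exact hz
    have h10 := h9 h8
    have h11 : (MulAut.conj (δ (θ' w))⁻¹).toMonoidHom (δ (θ' w) * y * (δ (θ' w))⁻¹) = y := by
      show (δ (θ' w))⁻¹ * (δ (θ' w) * y * (δ (θ' w))⁻¹) * ((δ (θ' w))⁻¹)⁻¹ = y
      group
    rw [Subgroup.mem_comap, h11] at h10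
    exact h10
  · -- the count
    have h2 : (∑ w, (if ρ w = w then (D.F (θ' w)).image (fun f => (δ (θ' w))⁻¹ * f * δ (θ' w))
        else ∅ : Finset M).card) ≤ ∑ u, (D.F u).card := by
      calc (∑ w, (if ρ w = w then (D.F (θ' w)).image (fun f => (δ (θ' w))⁻¹ * f * δ (θ' w))
            else ∅ : Finset M).card)
          ≤ ∑ w, if ρ w = w then (D.F (θ' w)).card else 0 := by
            apply Finset.sum_le_sum
            intro w _
            split_ifs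
            · exact Finset.card_image_le
            · simp
        _ = ∑ w ∈ Finset.univ.filter (fun w => ρ w = w), (D.F (θ' w)).card := by
            rw [Finset.sum_filter]
        _ = ∑ u ∈ (Finset.univ.filter (fun w => ρ w = w)).image θ', (D.F u).card := by
            rw [Finset.sum_image]
            intro a ha b hb hab
            have ha' : ρ a = a := by simpa using ha
            have hb' : ρ b = b := by simpa using hb
            rw [← (hθ' a ha').2, ← (hθ' b hb').2, hab]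
        _ ≤ ∑ u, (D.F u).card := Finset.sum_le_sum_of_subset (Finset.subset_univ _)
    have h3 : (Finset.univ.image D.a).card ≤ (Finset.univ.image ρ).card := by
      apply Finset.card_le_card_of_injOn θ
      · intro w _
        rw [Finset.mem_coe, Finset.mem_image]
        exact ⟨θ w, Finset.mem_univ _, hθ w⟩
      · intro w hw w' hw' hww
        rw [Finset.mem_coe, Finset.mem_image] at hw hw'
        obtain ⟨l, -, rfl⟩ := hw
        obtain ⟨l', -, rfl⟩ := hw'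
        exact hinj _ _ (D.idem l) (D.idem l') hww
    rw [D.cost_eq]
    have h4 : (((∑ w, (if ρ w = w then (D.F (θ' w)).image (fun f => (δ (θ' w))⁻¹ * f * δ (θ' w))
        else ∅ : Finset M).card) : ℕ) : ℤ) ≤ ((∑ u, (D.F u).card : ℕ) : ℤ) := by exact_mod_cast h2
    have h5 : ((Finset.univ.image D.a).card : ℤ) ≤ ((Finset.univ.image ρ).card : ℤ) := by
      exact_mod_cast h3
    linarith

end Pool.Agent.H84.MN
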