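import Pool.Agent.H84.MN.GDef
import Pool.Agent.H84.MN.Circ3

/-!
# The two forms of circular decompositions
-/

set_option autoImplicit false

namespace Pool.Agent.H84.MN

open Subgroup Monoid

variable {G : Type*} [Group G] {χ : G →* Multiplicative ℤ} {t : G}

theorem conjN_iter (k : ℕ) (x : χ.ker) :
    (((MulAut.conjNormal t : χ.ker ≃* χ.ker)^[k] x : χ.ker) : G) = t ^ k * x * (t ^ k)⁻¹ := by
  induction k with
  | zero => simp
  | succ k ih =>
    rw [Function.iterate_succ_apply', MulAut.conjNormal_apply, ih, pow_succ']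
    group

theorem conjN_symm_iter (k : ℕ) (x : χ.ker) :
    (((MulAut.conjNormal t : χ.ker ≃* χ.ker).symm^[k] x : χ.ker) : G) =
      (t ^ k)⁻¹ * x * t ^ k := by
  induction k with
  | zero => simp
  | succ k ih =>
    rw [Function.iterate_succ_apply', MulAut.conjNormal_symm_apply, ih, pow_succ']
    group

theorem map_conjN (A : Subgroup χ.ker) :
    (A.map (MulAut.conjNormal t : χ.ker ≃* χ.ker).toMonoidHom).map χ.ker.subtype =
      (A.map χ.ker.subtype).map (MulAut.conj t).toMonoidHom := by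
  rw [Subgroup.map_map, Subgroup.map_map]
  refine congrArg (fun f => Subgroup.map f A) ?_
  ext x
  exact MulAut.conjNormal_apply t x

theorem circDec_of_hasCirc (ht : χ t = Multiplicative.ofAdd 1) {m₁ m₃ : ℕ}
    (h : HasCirc (MulAut.conjNormal t : χ.ker ≃* χ.ker) m₁ m₃) : CircDec χ t m₁ m₃ := by
  classical
  obtain ⟨A, W, ⟨X, hX⟩, ⟨Y, hY⟩, h1, h2, h3, ⟨S, hS, hS'⟩, T, hT, hT'⟩ := h
  refine ⟨A.map χ.ker.subtype, W.map χ.ker.subtype, ⟨X.image χ.ker.subtype, ?_⟩,
    ⟨Y.image χ.ker.subtype, ?_⟩, Subgroup.map_mono h1, ?_, ?_, ?_,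
    ⟨S.image χ.ker.subtype, ?_, ?_⟩, ⟨T.image χ.ker.subtype, ?_, ?_⟩⟩
  · rw [Finset.coe_image, ← hX, MonoidHom.map_closure]
  · rw [Finset.coe_image, ← hY, MonoidHom.map_closure]
  · rintro _ ⟨x, -, rfl⟩
    exact x.2
  · rw [← map_conjN]
    exact Subgroup.map_mono h2
  · -- generation
    set C : Subgroup G := closure (((W.map χ.ker.subtype : Subgroup G) : Set G) ∪ {t}) with hC
    have ct : t ∈ C := Subgroup.subset_closure (Or.inr rfl)
    have cW : ∀ w ∈ W, (w : G) ∈ C := fun w hw => Subgroup.subset_closure (Or.inl ⟨w, hw, rfl⟩)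
    have c1 : (⊤ : Subgroup χ.ker) ≤ C.comap χ.ker.subtype := by
      rw [← h3, closure_le]
      rintro y ⟨k, w, hw, rfl | rfl⟩
      · show (((MulAut.conjNormal t : χ.ker ≃* χ.ker)^[k] w : χ.ker) : G) ∈ C
        rw [conjN_iter]
        exact C.mul_mem (C.mul_mem (C.pow_mem ct k) (cW w hw)) (C.inv_mem (C.pow_mem ct k))
      · show (((MulAut.conjNormal t : χ.ker ≃* χ.ker).symm^[k] w : χ.ker) : G) ∈ C
        rw [conjN_symm_iter]
        exact C.mul_mem (C.mul_mem (C.inv_mem (C.pow_mem ct k)) (cW w hw)) (C.pow_mem ct k)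
    rw [eq_top_iff]
    intro g _
    have h4 : g * (t ^ (Multiplicative.toAdd (χ g)))⁻¹ ∈ χ.ker := by
      rw [MonoidHom.mem_ker, map_mul, map_inv, map_zpow, ht, ← ofAdd_zsmul, smul_eq_mul, mul_one,
        ofAdd_toAdd, mul_inv_cancel]
    have h5 := c1 (Subgroup.mem_top ⟨_, h4⟩)
    have h6 : g = (g * (t ^ (Multiplicative.toAdd (χ g)))⁻¹) * t ^ (Multiplicative.toAdd (χ g)) := by
      group
    rw [h6]
    exact C.mul_mem h5 (C.zpow_mem ct _)
  · exact Finset.card_image_le.trans hS
  · conv_lhs => rw [hS']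
    rw [Subgroup.map_sup, MonoidHom.map_closure, Finset.coe_image]
  · exact Finset.card_image_le.trans hT
  · conv_lhs => rw [hT']
    rw [Subgroup.map_sup, MonoidHom.map_closure, Finset.coe_image, map_conjN]

theorem exists_pre (Y : Finset G) (hY : ∀ y ∈ Y, y ∈ χ.ker) :
    ∃ Z : Finset χ.ker, Z.card = Y.card ∧ (χ.ker.subtype '' (Z : Set χ.ker)) = (Y : Set G) := by
  classical
  refine ⟨Y.preimage χ.ker.subtype (Subgroup.subtype_injective _).injOn, ?_, ?_⟩
  · rw [Finset.card_preimage]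
    congr 1
    exact Finset.filter_true_of_mem fun y hy => ⟨⟨y, hY y hy⟩, rfl⟩
  · rw [Finset.coe_preimage, Set.image_preimage_eq_inter_range, Set.inter_eq_left]
    intro y hy
    exact ⟨⟨y, hY y hy⟩, rfl⟩

theorem hasCirc_of_circDec (ht : χ t = Multiplicative.ofAdd 1) {m₁ m₃ : ℕ}
    (h : CircDec χ t m₁ m₃) : HasCirc (MulAut.conjNormal t : χ.ker ≃* χ.ker) m₁ m₃ := by
  classical
  obtain ⟨A, W, ⟨X, hX⟩, ⟨Y, hY⟩, h1, hWk, h2, h3, ⟨S, hS, hS'⟩, T, hT, hT'⟩ := h
  have hinj : Function.Injective χ.ker.subtype := Subgroup.subtype_injective _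
  have hmap : ∀ B : Subgroup G, B ≤ χ.ker → (B.comap χ.ker.subtype).map χ.ker.subtype = B := by
    intro B hB
    rw [Subgroup.map_comap_eq, Subgroup.range_subtype, inf_eq_right.2 hB]
  have hAk := h1.trans hWk
  obtain ⟨X', -, hX'⟩ := exists_pre (χ := χ) X (fun x hx => hAk (by
    rw [← hX]
    exact Subgroup.subset_closure hx))
  obtain ⟨Y', -, hY'⟩ := exists_pre (χ := χ) Y (fun x hx => hWk (by
    rw [← hY]
    exact Subgroup.subset_closure hx))
  obtain ⟨S', s1, s2⟩ := exists_pre (χ := χ) S (fun x hx => hWk (by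
    rw [hS']
    exact Subgroup.mem_sup_right (Subgroup.subset_closure hx)))
  obtain ⟨T', t1, t2⟩ := exists_pre (χ := χ) T (fun x hx => hWk (by
    rw [hT']
    exact Subgroup.mem_sup_right (Subgroup.subset_closure hx)))
  refine ⟨A.comap χ.ker.subtype, W.comap χ.ker.subtype, ⟨X', ?_⟩, ⟨Y', ?_⟩,
    Subgroup.comap_mono h1, ?_, ?_, ⟨S', s1.le.trans hS, ?_⟩, ⟨T', t1.le.trans hT, ?_⟩⟩
  · apply Subgroup.map_injective hinj
    rw [MonoidHom.map_closure, hX', hX, hmap A hAk]
  · apply Subgroup.map_injective hinj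
    rw [MonoidHom.map_closure, hY', hY, hmap W hWk]
  · have h4 : ((A.comap χ.ker.subtype).map
        (MulAut.conjNormal t : χ.ker ≃* χ.ker).toMonoidHom).map χ.ker.subtype ≤
        (W.comap χ.ker.subtype).map χ.ker.subtype := by
      rw [map_conjN, hmap A hAk, hmap W hWk]
      exact h2
    exact (Subgroup.map_le_map_iff_of_injective hinj).1 h4
  · -- generation
    set C : Subgroup χ.ker := closure {y | ∃ k : ℕ, ∃ w ∈ W.comap χ.ker.subtype,
      y = (MulAut.conjNormal t : χ.ker ≃* χ.ker)^[k] w ∨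
        y = (MulAut.conjNormal t : χ.ker ≃* χ.ker).symm^[k] w} with hC
    have c1 : ∀ z ∈ C, (MulAut.conjNormal t : χ.ker ≃* χ.ker) z ∈ C := by
      have : C ≤ C.comap (MulAut.conjNormal t : χ.ker ≃* χ.ker).toMonoidHom := by
        conv_lhs => rw [hC]
        rw [closure_le]
        rintro z ⟨k, w, hw, rfl | rfl⟩
        · apply Subgroup.subset_closure
          refine ⟨k + 1, w, hw, Or.inl ?_⟩
          rw [Function.iterate_succ_apply']
          rfl
        · apply Subgroup.subset_closure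
          cases k with
          | zero => exact ⟨1, w, hw, Or.inl rfl⟩
          | succ k =>
            refine ⟨k, w, hw, Or.inr ?_⟩
            show (MulAut.conjNormal t : χ.ker ≃* χ.ker)
              ((MulAut.conjNormal t : χ.ker ≃* χ.ker).symm^[k + 1] w) = _
            rw [Function.iterate_succ_apply', MulEquiv.apply_symm_apply]
      exact this
    have c2 : ∀ z ∈ C, (MulAut.conjNormal t : χ.ker ≃* χ.ker).symm z ∈ C := by
      have : C ≤ C.comap (MulAut.conjNormal t : χ.ker ≃* χ.ker).symm.toMonoidHom := by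
        conv_lhs => rw [hC]
        rw [closure_le]
        rintro z ⟨k, w, hw, rfl | rfl⟩
        · apply Subgroup.subset_closure
          cases k with
          | zero => exact ⟨1, w, hw, Or.inr rfl⟩
          | succ k =>
            refine ⟨k, w, hw, Or.inl ?_⟩
            show (MulAut.conjNormal t : χ.ker ≃* χ.ker).symm
              ((MulAut.conjNormal t : χ.ker ≃* χ.ker)^[k + 1] w) = _
            rw [Function.iterate_succ_apply', MulEquiv.symm_apply_apply]
        · apply Subgroup.subset_closure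
          refine ⟨k + 1, w, hw, Or.inr ?_⟩
          rw [Function.iterate_succ_apply']
          rfl
      exact this
    -- conjugation by powers of `t` preserves the image of `C`
    have c3 : ∀ (a : ℤ), ∀ z ∈ C.map χ.ker.subtype, t ^ a * z * (t ^ a)⁻¹ ∈
        C.map χ.ker.subtype := by
      have p1 : ∀ z ∈ C.map χ.ker.subtype, t * z * t⁻¹ ∈ C.map χ.ker.subtype := by
        rintro _ ⟨z, hz, rfl⟩
        exact ⟨_, c1 z hz, MulAut.conjNormal_apply t z⟩
      have p2 : ∀ z ∈ C.map χ.ker.subtype, t⁻¹ * z * t ∈ C.map χ.ker.subtype := by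
        rintro _ ⟨z, hz, rfl⟩
        exact ⟨_, c2 z hz, MulAut.conjNormal_symm_apply t z⟩
      intro a
      induction a using Int.induction_on with
      | zero => intro z hz; simpa using hz
      | succ n ih =>
        intro z hz
        have h5 := p1 _ (ih z hz)
        have h6 : t * (t ^ (n : ℤ) * z * (t ^ (n : ℤ))⁻¹) * t⁻¹ =
            t ^ ((n : ℤ) + 1) * z * (t ^ ((n : ℤ) + 1))⁻¹ := by
          rw [zpow_add_one, (Commute.refl t).zpow_left n |>.eq]
          group
        rw [h6] at h5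
        exact h5
      | pred n ih =>
        intro z hz
        have h5 := p2 _ (ih z hz)
        have h6 : t⁻¹ * (t ^ (-(n : ℤ)) * z * (t ^ (-(n : ℤ)))⁻¹) * t =
            t ^ (-(n : ℤ) - 1) * z * (t ^ (-(n : ℤ) - 1))⁻¹ := by
          group
        rw [h6] at h5
        exact h5
    let K : Subgroup G :=
      { carrier := {g | ∃ z ∈ C.map χ.ker.subtype, ∃ a : ℤ, g = z * t ^ a}
        mul_mem' := by
          rintro _ _ ⟨z, hz, a, rfl⟩ ⟨w, hw, b, rfl⟩
          refine ⟨z * (t ^ a * w * (t ^ a)⁻¹), Subgroup.mul_mem _ hz (c3 a w hw), a + b, ?_⟩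
          rw [zpow_add]
          group
        one_mem' := ⟨1, Subgroup.one_mem _, 0, by simp⟩
        inv_mem' := by
          rintro _ ⟨z, hz, a, rfl⟩
          refine ⟨t ^ (-a) * z⁻¹ * (t ^ (-a))⁻¹, c3 (-a) _ (Subgroup.inv_mem _ hz), -a, ?_⟩
          group }
    have hK : (⊤ : Subgroup G) ≤ K := by
      rw [← h3, closure_le]
      rintro g (hg | hg)
      · refine ⟨g, ?_, 0, by simp⟩
        refine ⟨⟨g, hWk hg⟩, ?_, rfl⟩
        exact Subgroup.subset_closure ⟨0, ⟨g, hWk hg⟩, hg, Or.inl rfl⟩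
      · rw [Set.mem_singleton_iff] at hg
        subst hg
        exact ⟨1, Subgroup.one_mem _, 1, by simp⟩
    rw [eq_top_iff]
    intro x _
    obtain ⟨_, ⟨z, hz, rfl⟩, a, ha⟩ := hK (Subgroup.mem_top (x : G))
    have h5 : χ (x : G) = 1 := x.2
    have h6 : χ (χ.ker.subtype z) = 1 := z.2
    rw [ha, map_mul, h6, one_mul, map_zpow, ht, ← ofAdd_zsmul, smul_eq_mul, mul_one] at h5
    have h7 : a = 0 := by
      have := congrArg Multiplicative.toAdd h5
      simpa using this
    rw [h7, zpow_zero, mul_one] at ha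
    have h8 : x = z := Subtype.ext ha
    rw [h8]
    exact hz
  · apply Subgroup.map_injective hinj
    rw [Subgroup.map_sup, MonoidHom.map_closure, s2, hmap W hWk, hmap A hAk]
    exact hS'
  · apply Subgroup.map_injective hinj
    rw [Subgroup.map_sup, MonoidHom.map_closure, t2, hmap W hWk, map_conjN, hmap A hAk]
    exact hT'

theorem piMN_eq (ht : χ t = Multiplicative.ofAdd 1) : piMN χ = mnG χ t := by
  apply le_antisymm
  · rw [mnG, mn]
    refine le_iInf fun m₁ => le_iInf fun m₃ => le_iInf fun h => ?_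
    rw [piMN]
    exact (iInf_le _ t).trans ((iInf_le _ m₁).trans ((iInf_le _ m₃).trans ((iInf_le _ ht).trans
      (iInf_le _ (circDec_of_hasCirc ht h)))))
  · rw [piMN]
    refine le_iInf fun t' => le_iInf fun m₁ => le_iInf fun m₃ => le_iInf fun ht' => le_iInf fun h => ?_
    rw [mnG_indep χ (ht.trans ht'.symm), mnG]
    exact mn_le (hasCirc_of_circDec ht' h)

theorem piMN_amalgam {ι : Type*} [Fintype ι] {G : ι → Type*} [∀ i, Group (G i)]
    (χ : ∀ i, G i →* Multiplicative ℤ) (t : ∀ i, G i)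
    (ht : ∀ i, χ i (t i) = Multiplicative.ofAdd 1)
    (X : PushoutI (fun i => zpowersHom (G i) (t i)) →* Multiplicative ℤ)
    (hX : ∀ i g, X (PushoutI.of i g) = χ i g)
    (hX' : ∀ a, X (PushoutI.base _ a) = a) :
    piMN X = ∑ i, piMN (χ i) := by
  have h1 : X = χA t χ ht := by
    apply PushoutI.hom_ext
    · intro i
      ext g
      exact congrArg Multiplicative.toAdd ((hX i g).trans (χA_of t χ ht i g).symm)
    · refine MonoidHom.ext fun a => ?_
      exact (hX' a).trans (χA_base t χ ht a).symm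
  rw [h1, piMN_eq (t := tA t) (χA_base t χ ht _), mnG_amalgam]
  exact Finset.sum_congr rfl fun i _ => (piMN_eq (ht i)).symm

end Pool.Agent.H84.MN
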