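import Pool.Agent.H84.MN.NF
import Pool.Agent.H84.MN.Dat

/-!
# Folding
-/

set_option autoImplicit false
set_option linter.unusedSectionVars false

namespace Pool.Agent.H84.MN

open Subgroup

variable {M : Type*} [Group M] {ι : Type*} [Fintype ι] {B : Subgroup M} {H : ι → Subgroup M}
  {J : Type*} [Fintype J] {n : J → M} {V : ι → Set J} {Q : ι → J → Subgroup M}

/-- The family of relations. -/
def R (V : ι → Set J) (Q : ι → J → Subgroup M) (D : ∀ i, Dat B (H i) n) (i : ι) (x y : B × J) :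
    Prop := (D i).rel (V i) (Q i) x y

theorem pt_smul (c : B) (x : B × J) : pt n (c * x.1, x.2) = (c : M) * pt n x := by
  simp only [pt, Subgroup.coe_mul]
  group

theorem R_equiv (D : ∀ i, Dat B (H i) n) (i : ι) : Equivalence (R V Q D i) := (D i).rel_equiv

theorem R_smul (D : ∀ i, Dat B (H i) n) (i : ι) (c : B) {x y : B × J} (h : R V Q D i x y) :
    R V Q D i (c * x.1, x.2) (c * y.1, y.2) := (D i).rel_smul c h

/-- Element nodes in the same orbit. -/
def oset (V : ι → Set J) (Q : ι → J → Subgroup M) (D : ∀ i, Dat B (H i) n) : Setoid J where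
  r j j' := ∃ b : B, (b : M) * n j = n j' ∧ ∀ i, R V Q D i (b, j) (1, j')
  iseqv := by
    refine ⟨fun j => ⟨1, by simp, fun i => (R_equiv D i).refl _⟩, ?_, ?_⟩
    · rintro j j' ⟨b, h1, h2⟩
      refine ⟨b⁻¹, ?_, fun i => ?_⟩
      · rw [← h1]
        simp
      · have := R_smul D i b⁻¹ (h2 i)
        simp only [inv_mul_cancel, mul_one] at this
        exact (R_equiv D i).symm this
    · rintro j j' j'' ⟨b, h1, h2⟩ ⟨b', h3, h4⟩
      refine ⟨b' * b, ?_, fun i => ?_⟩
      · rw [← h3, ← h1]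
        simp [mul_assoc]
      · have := R_smul D i b' (h2 i)
        simp only [mul_one] at this
        exact (R_equiv D i).trans this (h4 i)

/-- The number of orbits of element nodes. -/
noncomputable def orb (V : ι → Set J) (Q : ι → J → Subgroup M) (D : ∀ i, Dat B (H i) n) : ℕ :=
  Nat.card (Quotient (oset V Q D))

/-- The relations grow. -/
def Grow (V : ι → Set J) (Q : ι → J → Subgroup M) (D D' : ∀ i, Dat B (H i) n) : Prop :=
  ∀ i x y, R V Q D i x y → R V Q D' i x y

theorem Grow.refl (D : ∀ i, Dat B (H i) n) : Grow V Q D D := fun _ _ _ h => h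

theorem Grow.trans {D D' D'' : ∀ i, Dat B (H i) n} (h : Grow V Q D D') (h' : Grow V Q D' D'') :
    Grow V Q D D'' := fun i x y hxy => h' i x y (h i x y hxy)

theorem Grow.oset_le {D D' : ∀ i, Dat B (H i) n} (h : Grow V Q D D') {j j' : J}
    (hj : (oset V Q D).r j j') : (oset V Q D').r j j' := by
  obtain ⟨b, h1, h2⟩ := hj
  exact ⟨b, h1, fun i => h i _ _ (h2 i)⟩

/-- The map of the sets of orbits. -/
def Grow.map {D D' : ∀ i, Dat B (H i) n} (h : Grow V Q D D') :
    Quotient (oset V Q D) → Quotient (oset V Q D') :=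
  Quotient.map' id fun _ _ hj => h.oset_le hj

theorem Grow.map_surjective {D D' : ∀ i, Dat B (H i) n} (h : Grow V Q D D') :
    Function.Surjective h.map := by
  intro y
  induction y using Quotient.inductionOn with
  | h j => exact ⟨Quotient.mk _ j, rfl⟩

theorem Grow.orb_le {D D' : ∀ i, Dat B (H i) n} (h : Grow V Q D D') : orb V Q D' ≤ orb V Q D :=
  Nat.card_le_card_of_surjective h.map h.map_surjective

theorem Grow.orb_lt {D D' : ∀ i, Dat B (H i) n} (h : Grow V Q D D') {x y : B × J}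
    (hxy : pt n x = pt n y) (h1 : ¬ ∀ i, R V Q D i x y) (h2 : ∀ i, R V Q D' i x y) :
    orb V Q D' < orb V Q D := by
  classical
  refine lt_of_le_of_ne h.orb_le fun heq => h1 ?_
  have hbij : Function.Injective h.map := by
    have : Finite (Quotient (oset V Q D)) := Quotient.finite _
    have : Finite (Quotient (oset V Q D')) := Quotient.finite _
    have : Fintype (Quotient (oset V Q D)) := Fintype.ofFinite _
    have : Fintype (Quotient (oset V Q D')) := Fintype.ofFinite _
    refine ((Fintype.bijective_iff_surjective_and_card _).2 ⟨h.map_surjective, ?_⟩).1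
    rw [← Nat.card_eq_fintype_card, ← Nat.card_eq_fintype_card]
    exact heq.symm
  have h3 : h.map (Quotient.mk _ x.2) = h.map (Quotient.mk _ y.2) := by
    apply Quotient.sound (s := oset V Q D')
    refine ⟨y.1⁻¹ * x.1, ?_, fun i => ?_⟩
    · simp only [pt] at hxy
      simp only [Subgroup.coe_mul, Subgroup.coe_inv, id]
      rw [mul_assoc, hxy]
      group
    · have := R_smul D' i y.1⁻¹ (h2 i)
      simpa using this
  obtain ⟨b, h4, h5⟩ := Quotient.exact (hbij h3)
  intro i
  have h6 : b = y.1⁻¹ * x.1 := by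
    apply Subtype.ext
    simp only [pt] at hxy
    simp only [Subgroup.coe_mul, Subgroup.coe_inv]
    have : (b : M) = n y.2 * (n x.2)⁻¹ := by
      rw [← h4]
      group
    rw [this, eq_comm]
    have h7 : (x.1 : M) = (y.1 : M) * n y.2 * (n x.2)⁻¹ := by
      rw [← hxy]
      group
    rw [h7]
    group
  have h8 := R_smul D i y.1 (h5 i)
  rw [h6] at h8
  simpa using h8

/-- The potential. -/
noncomputable def pot (V : ι → Set J) (Q : ι → J → Subgroup M) (D : ∀ i, Dat B (H i) n) : ℤ :=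
  ∑ i, (D i).cost + ((Fintype.card ι : ℤ) - 1) * (orb V Q D : ℤ)

theorem addMany (D : ∀ i, Dat B (H i) n) (T : Finset ι) {x y : B × J}
    (hxy : ∀ i ∈ T, (pt n x)⁻¹ * pt n y ∈ H i) :
    ∃ D' : ∀ i, Dat B (H i) n, Grow V Q D D' ∧ (∀ i ∈ T, R V Q D' i x y) ∧
      ∑ i, (D' i).cost ≤ ∑ i, (D i).cost + (T.card : ℤ) := by
  classical
  have h1 : ∀ i, ∃ D' : Dat B (H i) n, (∀ u v, R V Q D i u v → D'.rel (V i) (Q i) u v) ∧
      (i ∈ T → D'.rel (V i) (Q i) x y) ∧ D'.cost ≤ (D i).cost + if i ∈ T then 1 else 0 := by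
    intro i
    by_cases hi : i ∈ T
    · obtain ⟨D', h2, h3, h4⟩ := (D i).addPair (V := V i) (Q := Q i) x y (hxy i hi)
      exact ⟨D', h2, fun _ => h3, by rw [if_pos hi]; exact h4⟩
    · exact ⟨D i, fun _ _ h => h, fun h => absurd h hi, by rw [if_neg hi, add_zero]⟩
  choose D' h2 h3 h4 using h1
  refine ⟨D', fun i u v h => h2 i u v h, fun i hi => h3 i hi, ?_⟩
  calc ∑ i, (D' i).cost ≤ ∑ i, ((D i).cost + if i ∈ T then 1 else 0) :=
        Finset.sum_le_sum fun i _ => h4 i
    _ = ∑ i, (D i).cost + (T.card : ℤ) := by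
        rw [Finset.sum_add_distrib]
        congr 1
        simp

theorem pair_step (D : ∀ i, Dat B (H i) n) (i : ι) {x y : B × J}
    (hxy : (pt n x)⁻¹ * pt n y ∈ H i) :
    ∃ D' : ∀ i, Dat B (H i) n, Grow V Q D D' ∧ R V Q D' i x y ∧ pot V Q D' ≤ pot V Q D + 1 := by
  classical
  obtain ⟨D', h1, h2, h3⟩ := addMany (V := V) (Q := Q) D {i} (x := x) (y := y) (by
    intro k hk
    rw [Finset.mem_singleton] at hk
    rw [hk]
    exact hxy)
  refine ⟨D', h1, h2 i (Finset.mem_singleton_self i), ?_⟩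
  have h4 := h1.orb_le
  have h5 : (1 : ℤ) ≤ Fintype.card ι := by
    have : 0 < Fintype.card ι := Fintype.card_pos_iff.2 ⟨i⟩
    exact_mod_cast this
  have h6 : ((Fintype.card ι : ℤ) - 1) * (orb V Q D' : ℤ) ≤
      ((Fintype.card ι : ℤ) - 1) * (orb V Q D : ℤ) :=
    mul_le_mul_of_nonneg_left (by exact_mod_cast h4) (by linarith)
  rw [Finset.card_singleton] at h3
  simp only [pot]
  push_cast at h3
  linarith

theorem glue_step (D : ∀ i, Dat B (H i) n) {x y : B × J} (hxy : pt n x = pt n y) :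
    ∃ D' : ∀ i, Dat B (H i) n, Grow V Q D D' ∧ (∀ i, R V Q D' i x y) ∧
      pot V Q D' ≤ pot V Q D + 1 := by
  classical
  by_cases h : ∀ i, R V Q D i x y
  · exact ⟨D, Grow.refl D, h, by linarith⟩
  obtain ⟨D', h1, h2, h3⟩ := addMany (V := V) (Q := Q) D Finset.univ (x := x) (y := y) (by
    intro k _
    rw [hxy]
    simp)
  have h2' : ∀ i, R V Q D' i x y := fun i => h2 i (Finset.mem_univ i)
  refine ⟨D', h1, h2', ?_⟩
  have h4 := h1.orb_lt hxy h h2'
  have h5 : (1 : ℤ) ≤ Fintype.card ι := by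
    obtain ⟨i, -⟩ := not_forall.1 h
    have : 0 < Fintype.card ι := Fintype.card_pos_iff.2 ⟨i⟩
    exact_mod_cast this
  have h6 : ((Fintype.card ι : ℤ) - 1) * (orb V Q D' : ℤ) ≤
      ((Fintype.card ι : ℤ) - 1) * ((orb V Q D : ℤ) - 1) :=
    mul_le_mul_of_nonneg_left (by
      have : (orb V Q D' : ℤ) < orb V Q D := by exact_mod_cast h4
      linarith) (by linarith)
  rw [Finset.card_univ] at h3
  simp only [pot]
  linarith

theorem fold_step (D : ∀ i, Dat B (H i) n) {i : ι} {x y : B × J} (hi : R V Q D i x y)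
    (hxy : pt n x = pt n y) (h : ¬ ∀ i, R V Q D i x y) :
    ∃ D' : ∀ i, Dat B (H i) n, Grow V Q D D' ∧ orb V Q D' < orb V Q D ∧
      pot V Q D' ≤ pot V Q D := by
  classical
  obtain ⟨D', h1, h2, h3⟩ := addMany (V := V) (Q := Q) D (Finset.univ.erase i) (x := x) (y := y) (by
    intro k _
    rw [hxy]
    simp)
  have h2' : ∀ k, R V Q D' k x y := by
    intro k
    by_cases hk : k = i
    · subst hk
      exact h1 _ _ _ hi
    · exact h2 k (Finset.mem_erase.2 ⟨hk, Finset.mem_univ _⟩)
  have h4 := h1.orb_lt hxy h h2'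
  refine ⟨D', h1, h4, ?_⟩
  have h0 : 0 < Fintype.card ι := Fintype.card_pos_iff.2 ⟨i⟩
  have h5 : (1 : ℤ) ≤ Fintype.card ι := by exact_mod_cast h0
  have h6 : ((Fintype.card ι : ℤ) - 1) * (orb V Q D' : ℤ) ≤
      ((Fintype.card ι : ℤ) - 1) * ((orb V Q D : ℤ) - 1) :=
    mul_le_mul_of_nonneg_left (by
      have : (orb V Q D' : ℤ) < orb V Q D := by exact_mod_cast h4
      linarith) (by linarith)
  have h7 : ((Finset.univ.erase i).card : ℤ) = (Fintype.card ι : ℤ) - 1 := by
    rw [Finset.card_erase_of_mem (Finset.mem_univ _), Finset.card_univ]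
    push_cast [h0]
    rfl
  rw [h7] at h3
  simp only [pot]
  linarith

/-- All element nodes are connected. -/
def Conn (V : ι → Set J) (Q : ι → J → Subgroup M) (D : ∀ i, Dat B (H i) n) : Prop :=
  ∀ x y, Relation.ReflTransGen (fun x y => ∃ i, R V Q D i x y) x y

theorem Conn.grow {D D' : ∀ i, Dat B (H i) n} (hD : Conn V Q D) (h : Grow V Q D D') :
    Conn V Q D' := fun x y =>
  Relation.ReflTransGen.mono (r := fun x y => ∃ i, R V Q D i x y)
    (p := fun x y => ∃ i, R V Q D' i x y) (fun _ _ hi => hi.imp fun i hi => h i _ _ hi) x y (hD x y)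

/-- Stallings folding: a connected graph can be folded without raising the potential. -/
theorem fold_all (hH : UniqNF H) (hQ : ∀ i, ∀ v ∈ V i, Q i v ≤ St B (H i) (n v)) :
    ∀ (t : ℕ) (D : ∀ i, Dat B (H i) n), orb V Q D ≤ t → Conn V Q D →
    ∃ D' : ∀ i, Dat B (H i) n, Grow V Q D D' ∧ pot V Q D' ≤ pot V Q D ∧
      ∀ i x y, (pt n x)⁻¹ * pt n y ∈ H i → R V Q D' i x y := by
  intro t
  induction t with
  | zero =>
    intro D ht hD
    have h0 : orb V Q D = 0 := Nat.le_zero.1 ht
    have : Finite (Quotient (oset V Q D)) := Quotient.finite _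
    have h1 : IsEmpty (Quotient (oset V Q D)) := by
      rcases Nat.card_eq_zero.1 h0 with h | h
      · exact h
      · exact absurd this (not_finite_iff_infinite.2 h)
    refine ⟨D, Grow.refl D, le_refl _, fun i x y _ => ?_⟩
    exact (h1.false (Quotient.mk _ x.2)).elim
  | succ t ih =>
    intro D ht hD
    by_cases hf : ∀ i x y, R V Q D i x y → pt n x = pt n y → ∀ k, R V Q D k x y
    · refine ⟨D, Grow.refl D, le_refl _, fun i x y hi => ?_⟩
      have h := folded_full (p := pt n) (r := R V Q D)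
        (q := fun x y => pt n x = pt n y ∧ ∀ i, R V Q D i x y) hH (R_equiv D)
        (fun i x y h => (D i).rel_pt (hQ i) h) (fun x y => Iff.rfl)
        (fun i x y h h' => ⟨h', hf i x y h h'⟩) (hD x y)
      exact h.2 i hi
    · push Not at hf
      obtain ⟨i, x, y, h1, h2, k, h3⟩ := hf
      obtain ⟨D', h4, h5, h6⟩ := fold_step D h1 h2 (fun h => h3 (h k))
      obtain ⟨D'', h7, h8, h9⟩ := ih D' (by omega) (hD.grow h4)
      exact ⟨D'', h4.trans h7, h8.trans h6, h9⟩

/-- A lower bound for the number of orbits. -/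
theorem card_le_orb {K : Type*} (D : ∀ i, Dat B (H i) n) (f : K → J)
    (hf : ∀ k k', ∀ b ∈ B, b * n (f k) = n (f k') → k = k') : Nat.card K ≤ orb V Q D := by
  have : Finite (Quotient (oset V Q D)) := Quotient.finite _
  refine Nat.card_le_card_of_injective (fun k => Quotient.mk (oset V Q D) (f k)) ?_
  intro k k' h
  obtain ⟨b, h1, -⟩ := Quotient.exact h
  exact hf k k' b b.2 h1

end Pool.Agent.H84.MN
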