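import Mathlib

/-!
# Circular decompositions of a group with an epimorphism to `ℤ`
-/

set_option autoImplicit false

namespace Pool.Agent.H84.MN

/-- A circular decomposition of `(G, χ)` with meridian `t` and numbers `m₁`, `m₃`: finitely
generated subgroups `A ≤ W ≤ ker χ` with `t A t⁻¹ ≤ W` such that `G` is generated by `W` and `t`,
`W` is generated by `A` and at most `m₁` elements, and `W` is generated by `t A t⁻¹` and at most
`m₃` elements. -/
def CircDec {G : Type*} [Group G] (χ : G →* Multiplicative ℤ) (t : G) (m₁ m₃ : ℕ) : Prop :=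
  ∃ A W : Subgroup G, A.FG ∧ W.FG ∧ A ≤ W ∧ W ≤ χ.ker ∧
    A.map (MulAut.conj t).toMonoidHom ≤ W ∧
    Subgroup.closure ((W : Set G) ∪ {t}) = ⊤ ∧
    (∃ S : Finset G, S.card ≤ m₁ ∧ W = A ⊔ Subgroup.closure (S : Set G)) ∧
    ∃ S : Finset G, S.card ≤ m₃ ∧
      W = A.map (MulAut.conj t).toMonoidHom ⊔ Subgroup.closure (S : Set G)

/-- The least value of `2 (m₁ + m₃)` over all circular decompositions of `(G, χ)` with all possible
meridians `t`, `χ t = 1`; it is `⊤` if there is none. -/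
noncomputable def piMN {G : Type*} [Group G] (χ : G →* Multiplicative ℤ) : ℕ∞ :=
  ⨅ (t : G) (m₁ : ℕ) (m₃ : ℕ) (_ : χ t = Multiplicative.ofAdd 1) (_ : CircDec χ t m₁ m₃),
    ((2 * (m₁ + m₃) : ℕ) : ℕ∞)

end Pool.Agent.H84.MN
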