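import Pool.Agent.H84.MN.Extract

/-!
# The initial graph and the relative Grushko theorem
-/

set_option autoImplicit false
set_option linter.unusedSectionVars false

namespace Pool.Agent.H84.MN

open Subgroup

variable {M : Type*} [Group M] {ι : Type*}
variable {σ : M ≃* M} {H : ι → Subgroup M} {P : Subgroup M} {S : Finset M} {E : Set M}
  {J : Type*} {nJ : J → M} {Λ : Type*}

/-- The data of the graph `P ×_{σP} σE` with isolated additional nodes. -/
def dat0 (h : Core σ H P S E nJ) {n : J ⊕ Λ → M} (hnl : ∀ j, n (Sum.inl j) = σ (nJ j))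
    (i : ι) {ρ : J → J} {κ : J → M} (hρ : ∀ j, ρ (ρ j) = ρ j) (hκ : ∀ j, κ j ∈ P)
    (hκH : ∀ j, (nJ j)⁻¹ * κ j * nJ (ρ j) ∈ H i) : Dat P (H i) n where
  a := Sum.elim (fun j => Sum.inl (ρ j)) Sum.inr
  β := Sum.elim (fun j => σ (κ j)) (fun _ => 1)
  F := fun _ => ∅
  idem := by
    rintro (j | l)
    · simp [hρ]
    · rfl
  βB := by
    rintro (j | l)
    · exact h.σP _ (hκ j)
    · exact P.one_mem
  βH := by
    rintro (j | l)
    · have := h.σH i _ (hκH j)
      simp only [Sum.elim_inl, hnl]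
      simpa using this
    · simp
  FB := by
    intro w f hf
    simp at hf

section dat0

variable (h : Core σ H P S E nJ) {n : J ⊕ Λ → M} (hnl : ∀ j, n (Sum.inl j) = σ (nJ j))
    (i : ι) {ρ : J → J} {κ : J → M} (hρ : ∀ j, ρ (ρ j) = ρ j) (hκ : ∀ j, κ j ∈ P)
    (hκH : ∀ j, (nJ j)⁻¹ * κ j * nJ (ρ j) ∈ H i)

theorem dat0_cost [Fintype J] [Fintype Λ] [DecidableEq J] :
    (dat0 h hnl i hρ hκ hκH).cost = - (((Finset.univ.image ρ).card : ℤ) + Fintype.card Λ) := by
  classical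
  have h1 : Finset.univ.image (dat0 h hnl i hρ hκ hκH).a =
      (Finset.univ.image ρ).disjSum (Finset.univ : Finset Λ) := by
    ext (j | l)
    · simp only [Finset.mem_image, Finset.mem_univ, true_and, Finset.inl_mem_disjSum]
      constructor
      · rintro ⟨(j' | l), hj⟩
        · exact ⟨j', Sum.inl_injective hj⟩
        · exact absurd hj (by simp [dat0])
      · rintro ⟨j', rfl⟩
        exact ⟨Sum.inl j', rfl⟩
    · simp only [Finset.mem_image, Finset.mem_univ, true_and, Finset.inr_mem_disjSum]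
      exact iff_of_true ⟨Sum.inr l, rfl⟩ trivial
  have h2 : (Finset.univ.image (dat0 h hnl i hρ hκ hκH).a).card =
      (Finset.univ.image ρ).card + Fintype.card Λ := by
    rw [h1, Finset.card_disjSum, Finset.card_univ]
  have h3 : (dat0 h hnl i hρ hκ hκH).cost =
      ((∑ w, ((dat0 h hnl i hρ hκ hκH).F w).card : ℕ) : ℤ) -
        ((Finset.univ.image (dat0 h hnl i hρ hκ hκH).a).card : ℤ) :=
    (dat0 h hnl i hρ hκ hκH).cost_eq
  rw [h3, h2]
  have h4 : ∑ w, ((dat0 h hnl i hρ hκ hκH).F w).card = 0 := by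
    apply Finset.sum_eq_zero
    intro w _
    rfl
  rw [h4]
  push_cast
  ring

theorem dat0_rel (hκ1 : ∀ j, κ (ρ j) = 1)
    (hρeq : ∀ j j', ∀ p ∈ P, (nJ j)⁻¹ * p * nJ j' ∈ H i → ρ j = ρ j')
    {p p' : M} (hp : p ∈ P) (hp' : p' ∈ P) {j j' : J}
    (hj : (p * nJ j)⁻¹ * (p' * nJ j') ∈ H i) :
    (dat0 h hnl i hρ hκ hκH).rel (VV Λ ρ) (QQ Λ σ P (H i) nJ)
      (⟨σ p, h.σP p hp⟩, Sum.inl j) (⟨σ p', h.σP p' hp'⟩, Sum.inl j') := by
  have h1 : ρ j = ρ j' := by
    apply hρeq j j' (p⁻¹ * p') (P.mul_mem (P.inv_mem hp) hp')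
    have : (nJ j)⁻¹ * (p⁻¹ * p') * nJ j' = (p * nJ j)⁻¹ * (p' * nJ j') := by group
    rw [this]
    exact hj
  refine ⟨congrArg Sum.inl h1, ?_⟩
  show (σ p * σ (κ j))⁻¹ * (σ p' * σ (κ j')) ∈ _
  set z := (p * κ j)⁻¹ * (p' * κ j') with hz
  have h2 : (σ p * σ (κ j))⁻¹ * (σ p' * σ (κ j')) = σ z := by
    rw [hz]
    simp
  rw [h2]
  apply Subgroup.subset_closure
  right
  refine ⟨Sum.inl (ρ j), ⟨ρ j, hρ j, rfl⟩, ?_, ?_⟩
  · show Sum.inl (ρ (ρ j)) = Sum.inl (ρ j)
    rw [hρ]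
  · show σ (κ (ρ j)) * σ z * (σ (κ (ρ j)))⁻¹ ∈ (St P (H i) (nJ (ρ j))).map σ.toMonoidHom
    rw [hκ1]
    simp only [map_one, one_mul, inv_one, mul_one]
    refine ⟨z, ⟨?_, ?_⟩, rfl⟩
    · exact P.mul_mem (P.inv_mem (P.mul_mem hp (hκ j))) (P.mul_mem hp' (hκ j'))
    · have h3 := hκH j
      have h4 := hκH j'
      rw [← h1] at h4
      have : (nJ (ρ j))⁻¹ * z * nJ (ρ j) = ((nJ j)⁻¹ * κ j * nJ (ρ j))⁻¹ *
          ((p * nJ j)⁻¹ * (p' * nJ j')) * ((nJ j')⁻¹ * κ j' * nJ (ρ j)) := by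
        rw [hz]
        group
      rw [this]
      exact (H i).mul_mem ((H i).mul_mem ((H i).inv_mem h3) hj) h4

end dat0

/-- The connectedness argument. -/
theorem conn_of [Fintype ι] [Nonempty ι] [Fintype J] [Fintype Λ]
    (h : Core σ H P S E nJ) {n : J ⊕ Λ → M}
    {V : ι → Set (J ⊕ Λ)} {Q : ι → J ⊕ Λ → Subgroup M} (D : ∀ i, Dat P (H i) n)
    (hbase : ∀ i (p p' : M) (hp : p ∈ P) (hp' : p' ∈ P) (j j' : J),
      (p * nJ j)⁻¹ * (p' * nJ j') ∈ H i → R V Q D i
      (⟨σ p, h.σP p hp⟩, Sum.inl j) (⟨σ p', h.σP p' hp'⟩, Sum.inl j'))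
    {p1 : M} (hp1 : p1 ∈ P) {j1 : J} (h1 : p1 * nJ j1 = 1)
    (hΛ : ∀ l : Λ, Relation.ReflTransGen (fun x y => ∃ i, R V Q D i x y)
      (⟨σ p1, h.σP p1 hp1⟩, Sum.inl j1) (1, Sum.inr l))
    (hS : ∀ s (hs : s ∈ S), Relation.ReflTransGen (fun x y => ∃ i, R V Q D i x y)
      (⟨σ p1, h.σP p1 hp1⟩, Sum.inl j1)
      ((⟨s, h.SP s hs⟩ : P) * ⟨σ p1, h.σP p1 hp1⟩, Sum.inl j1)) : Conn V Q D := by
  classical
  set r : P × (J ⊕ Λ) → P × (J ⊕ Λ) → Prop := fun x y => ∃ i, R V Q D i x y with hr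
  set x1 : P × (J ⊕ Λ) := (⟨σ p1, h.σP p1 hp1⟩, Sum.inl j1) with hx1
  have hsymm : ∀ {x y}, Relation.ReflTransGen r x y → Relation.ReflTransGen r y x := by
    intro x y hxy
    induction hxy with
    | refl => exact Relation.ReflTransGen.refl
    | tail _ h2 ih =>
      obtain ⟨i, hi⟩ := h2
      exact Relation.ReflTransGen.head ⟨i, (R_equiv D i).symm hi⟩ ih
  have hsmul : ∀ (c : P) {x y}, Relation.ReflTransGen r x y →
      Relation.ReflTransGen r (c * x.1, x.2) (c * y.1, y.2) := by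
    intro c x y hxy
    induction hxy with
    | refl => exact Relation.ReflTransGen.refl
    | tail _ h2 ih =>
      obtain ⟨i, hi⟩ := h2
      exact Relation.ReflTransGen.tail ih ⟨i, R_smul D i c hi⟩
  -- the nodes of `σE`
  have hc1 : ∀ e ∈ E, ∀ (p : M) (hp : p ∈ P) (j : J), e = p * nJ j →
      Relation.ReflTransGen r x1 (⟨σ p, h.σP p hp⟩, Sum.inl j) := by
    intro e he
    have h2 := h.conn e he
    clear he
    have h3 : e ∈ E ∧ ∀ (p : M) (hp : p ∈ P) (j : J), e = p * nJ j →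
        Relation.ReflTransGen r x1 (⟨σ p, h.σP p hp⟩, Sum.inl j) := by
      induction h2 with
      | refl =>
        refine ⟨h.one, fun p hp j hj => ?_⟩
        obtain ⟨i⟩ := (inferInstance : Nonempty ι)
        refine Relation.ReflTransGen.single ⟨i, hbase i p1 p hp1 hp j1 j ?_⟩
        rw [h1, ← hj]
        simp
      | @tail a b _ h4 ih =>
        obtain ⟨h5, i, h6⟩ := h4
        refine ⟨h5, fun p hp j hj => ?_⟩
        obtain ⟨q, hq, k, hk⟩ := h.cov a ih.1
        refine Relation.ReflTransGen.tail (ih.2 q hq k hk) ⟨i, hbase i q p hq hp k j ?_⟩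
        rw [← hk, ← hj]
        exact h6
    exact h3.2
  -- the stabiliser of the component
  let K : Subgroup M :=
    { carrier := {m | ∃ hm : m ∈ P, Relation.ReflTransGen r x1 ((⟨m, hm⟩ : P) * x1.1, x1.2)}
      mul_mem' := by
        rintro a b ⟨ha, ha'⟩ ⟨hb, hb'⟩
        refine ⟨P.mul_mem ha hb, ha'.trans ?_⟩
        have := hsmul ⟨a, ha⟩ hb'
        simp only at this
        rw [← mul_assoc] at this
        exact this
      one_mem' := ⟨P.one_mem, by
        have : ((⟨1, P.one_mem⟩ : P) * x1.1, x1.2) = x1 := by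
          ext
          · simp
          · rfl
        rw [this]⟩
      inv_mem' := by
        rintro a ⟨ha, ha'⟩
        refine ⟨P.inv_mem ha, ?_⟩
        have := hsmul ⟨a⁻¹, P.inv_mem ha⟩ ha'
        simp only at this
        rw [← mul_assoc] at this
        have e : (⟨a⁻¹, P.inv_mem ha⟩ : P) * ⟨a, ha⟩ = 1 := by
          ext
          simp
        rw [e, one_mul] at this
        exact hsymm this }
  have hK : P ≤ K := by
    refine h.gen.trans (sup_le ?_ ?_)
    · rintro _ ⟨p, hp, rfl⟩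
      refine ⟨h.σP p hp, ?_⟩
      have h2 := hc1 p (by have := h.PE p hp 1 h.one; rwa [mul_one] at this) (p * p1)
        (P.mul_mem hp hp1) j1 (by rw [mul_assoc, h1, mul_one])
      have e : (⟨σ p, h.σP p hp⟩ : P) * x1.1 = ⟨σ (p * p1), h.σP _ (P.mul_mem hp hp1)⟩ := by
        ext
        simp [hx1]
      show Relation.ReflTransGen r x1 ((⟨σ p, h.σP p hp⟩ : P) * x1.1, x1.2)
      rw [e]
      exact h2
    · rw [closure_le]
      intro s hs
      exact ⟨h.SP s hs, hS s hs⟩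
  have hx : ∀ x, Relation.ReflTransGen r x1 x := by
    rintro ⟨b, l⟩
    obtain ⟨hb, hb'⟩ := hK b.2
    have h2 : Relation.ReflTransGen r x1 ((1 : P), l) := by
      rcases l with j | l
      · have h3 := hc1 (nJ j) (h.nJE j) 1 P.one_mem j (by rw [one_mul])
        have e : (⟨σ 1, h.σP 1 P.one_mem⟩ : P) = 1 := by
          ext
          simp
        rw [e] at h3
        exact h3
      · exact hΛ l
    have h3 := hsmul b h2
    simp only [mul_one] at h3
    exact hb'.trans h3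
  intro x y
  exact (hsymm (hx x)).trans (hx y)

end Pool.Agent.H84.MN
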