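import Mathlib

/-!
# Reduced words and locally injective paths
-/

set_option autoImplicit false

namespace Pool.Agent.H84.MN

variable {M ι : Type*} [Group M]

/-- Reduced words with letters in the subgroups `H i`. -/
def Red (H : ι → Subgroup M) (l : List (ι × M)) : Prop :=
  (∀ q ∈ l, q.2 ∈ H q.1 ∧ q.2 ≠ 1) ∧ l.IsChain (fun a b => a.1 ≠ b.1)

/-- The value of a word. -/
def lprod (l : List (ι × M)) : M := (l.map Prod.snd).prod

/-- The normal form theorem for free products. -/
def UniqNF (H : ι → Subgroup M) : Prop :=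
  ∀ l l' : List (ι × M), Red H l → Red H l' → lprod l = lprod l' → l = l'

theorem lprod_nil : lprod ([] : List (ι × M)) = 1 := by simp [lprod]

theorem lprod_cons (q : ι × M) (l : List (ι × M)) : lprod (q :: l) = q.2 * lprod l := by
  simp [lprod]

theorem Red.nil (H : ι → Subgroup M) : Red H [] := ⟨by simp, by simp⟩

theorem Red.single {H : ι → Subgroup M} {i : ι} {m : M} (h : m ∈ H i) (h1 : m ≠ 1) :
    Red H [(i, m)] := ⟨by simp [h, h1], by simp⟩

theorem Red.tail {H : ι → Subgroup M} {q : ι × M} {l : List (ι × M)} (h : Red H (q :: l)) :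
    Red H l := ⟨fun x hx => h.1 x (List.mem_cons_of_mem _ hx), h.2.tail⟩

/-- The path follows the word. -/
def Follow {X : Type*} (p : X → M) (r : ι → X → X → Prop) (q : X → X → Prop) :
    X → List (ι × M) → X → Prop
  | x, [], y => q x y
  | x, (i, m) :: l, y => ∃ z, r i x z ∧ p x * m = p z ∧ Follow p r q z l y

variable {X : Type*} {p : X → M} {r : ι → X → X → Prop} {q : X → X → Prop} {H : ι → Subgroup M}

theorem Follow.left (hq : ∀ x y, q x y ↔ p x = p y ∧ ∀ i, r i x y) (hr : ∀ i, Equivalence (r i))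
    {x x' y : X} {l : List (ι × M)} (h : q x x') (hf : Follow p r q x' l y) :
    Follow p r q x l y := by
  have hqt : ∀ a b c, q a b → q b c → q a c := by
    intro a b c h1 h2
    rw [hq] at h1 h2 ⊢
    exact ⟨h1.1.trans h2.1, fun i => (hr i).trans (h1.2 i) (h2.2 i)⟩
  cases l with
  | nil => exact hqt _ _ _ h hf
  | cons a l =>
    obtain ⟨i, m⟩ := a
    obtain ⟨z, h1, h2, h3⟩ := hf
    have h4 := (hq _ _).1 h
    exact ⟨z, (hr i).trans (h4.2 i) h1, by rw [h4.1, h2], h3⟩

theorem follow_exists (hr : ∀ i, Equivalence (r i))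
    (hrp : ∀ i x y, r i x y → (p x)⁻¹ * p y ∈ H i)
    (hq : ∀ x y, q x y ↔ p x = p y ∧ ∀ i, r i x y)
    (hf : ∀ i x y, r i x y → p x = p y → q x y) {x y : X}
    (h : Relation.ReflTransGen (fun x y => ∃ i, r i x y) x y) :
    ∃ l, Red H l ∧ Follow p r q x l y ∧ lprod l = (p x)⁻¹ * p y := by
  induction h using Relation.ReflTransGen.head_induction_on with
  | refl =>
    exact ⟨[], Red.nil H, (hq _ _).2 ⟨rfl, fun i => (hr i).refl _⟩, by simp [lprod_nil]⟩
  | @head x z h1 _ ih =>

    obtain ⟨i, hi⟩ := h1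
    obtain ⟨l, hl, hl', hp⟩ := ih
    by_cases hxz : p x = p z
    · refine ⟨l, hl, Follow.left hq hr (hf i x z hi hxz) hl', ?_⟩
      rw [hxz, hp]
    have hne : (p x)⁻¹ * p z ≠ 1 := by
      intro h
      exact hxz (inv_mul_eq_one.1 h)
    cases l with
    | nil =>
      refine ⟨[(i, (p x)⁻¹ * p z)], Red.single (hrp i x z hi) hne, ⟨z, hi, by group, hl'⟩, ?_⟩
      rw [lprod_nil] at hp
      rw [lprod_cons, lprod_nil]
      have h5 : p z = p y := inv_mul_eq_one.1 hp.symm
      rw [← h5]
      simp
    | cons a l =>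
      obtain ⟨k, m⟩ := a
      by_cases hik : i = k
      · subst hik
        obtain ⟨z', h1, h2, h3⟩ := hl'
        have h4 : r i x z' := (hr i).trans hi h1
        have hp' : lprod l = (p z')⁻¹ * p y := by
          rw [lprod_cons] at hp
          have h5 : lprod l = m⁻¹ * ((p z)⁻¹ * p y) := by
            rw [← hp]
            group
          rw [h5, ← h2]
          group
        by_cases hxz' : p x = p z'
        · refine ⟨l, hl.tail, Follow.left hq hr (hf i x z' h4 hxz') h3, ?_⟩
          rw [hxz', hp']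
        · have hne' : (p x)⁻¹ * p z' ≠ 1 := by
            intro h
            exact hxz' (inv_mul_eq_one.1 h)
          refine ⟨(i, (p x)⁻¹ * p z') :: l, ⟨?_, ?_⟩, ⟨z', h4, by group, h3⟩, ?_⟩
          · intro q' hq'
            rcases List.mem_cons.1 hq' with rfl | hq'
            · exact ⟨hrp i x z' h4, hne'⟩
            · exact hl.1 _ (List.mem_cons_of_mem _ hq')
          · have := hl.2
            rw [List.isChain_cons] at this ⊢
            exact this
          · rw [lprod_cons, hp']
            group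
      · refine ⟨(i, (p x)⁻¹ * p z) :: (k, m) :: l, ⟨?_, ?_⟩, ⟨z, hi, by group, hl'⟩, ?_⟩
        · intro q' hq'
          rcases List.mem_cons.1 hq' with rfl | hq'
          · exact ⟨hrp i x z hi, hne⟩
          · exact hl.1 _ hq'
        · rw [List.isChain_cons_cons]
          exact ⟨hik, hl.2⟩
        · rw [lprod_cons, hp]
          group

/-- A folded connected graph is embedded. -/
theorem folded_full (hH : UniqNF H) (hr : ∀ i, Equivalence (r i))
    (hrp : ∀ i x y, r i x y → (p x)⁻¹ * p y ∈ H i)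
    (hq : ∀ x y, q x y ↔ p x = p y ∧ ∀ i, r i x y)
    (hf : ∀ i x y, r i x y → p x = p y → q x y) {x y : X}
    (h : Relation.ReflTransGen (fun x y => ∃ i, r i x y) x y) :
    (p x = p y → q x y) ∧ ∀ i, (p x)⁻¹ * p y ∈ H i → r i x y := by
  obtain ⟨l, hl, hl', hp⟩ := follow_exists hr hrp hq hf h
  have h1 : p x = p y → q x y := by
    intro hxy
    have h2 : l = [] := by
      apply hH l [] hl (Red.nil H)
      rw [hp, hxy, lprod_nil]
      simp
    subst h2
    exact hl'
  refine ⟨h1, fun i hi => ?_⟩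
  by_cases hxy : p x = p y
  · exact ((hq _ _).1 (h1 hxy)).2 i
  · have hne : (p x)⁻¹ * p y ≠ 1 := by
      intro h
      exact hxy (inv_mul_eq_one.1 h)
    have h2 : l = [(i, (p x)⁻¹ * p y)] := by
      apply hH l _ hl (Red.single hi hne)
      rw [hp, lprod_cons, lprod_nil]
      simp
    subst h2
    obtain ⟨z, h3, h4, h5⟩ := hl'
    exact (hr i).trans h3 (((hq _ _).1 h5).2 i)

end Pool.Agent.H84.MN
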