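import Pool.Agent.H84.MN.Init

/-!
# The relative Grushko theorem for `σ P ≤ P`
-/

set_option autoImplicit false
set_option linter.unusedSectionVars false

namespace Pool.Agent.H84.MN

open Subgroup

variable {M : Type*} [Group M] {ι : Type*}
variable {σ : M ≃* M} {H : ι → Subgroup M} {P : Subgroup M} {S : Finset M} {E : Set M}
  {J : Type*} {nJ : J → M}

/-- The targets of the paths. -/
def tgt (S : Finset M) (nJ : J → M) : S ⊕ J → M := Sum.elim (fun s : S => (s : M)) nJ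

/-- Additional nodes. -/
abbrev Lam (S : Finset M) (nJ : J → M) (H : ι → Subgroup M) (E : Set M)
    (q : ∀ d : S ⊕ J, Pth H E (tgt S nJ d)) : Type _ := Σ d : S ⊕ J, Fin (q d).len

/-- The nodes. -/
def nod (σ : M ≃* M) (q : ∀ d : S ⊕ J, Pth H E (tgt S nJ d)) : J ⊕ Lam S nJ H E q → M :=
  Sum.elim (fun j => σ (nJ j)) (fun l => (q l.1).x (l.2 + 1))

/-- The node number `t` of the path `d`. -/
def nd (P : Subgroup M) (q : ∀ d : S ⊕ J, Pth H E (tgt S nJ d)) (x1 : P × (J ⊕ Lam S nJ H E q))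
    (d : S ⊕ J) : ℕ → P × (J ⊕ Lam S nJ H E q)
  | 0 => x1
  | t + 1 => if h : t < (q d).len then (1, Sum.inr ⟨d, ⟨t, h⟩⟩) else x1

theorem pt_nd (q : ∀ d : S ⊕ J, Pth H E (tgt S nJ d)) (x1 : P × (J ⊕ Lam S nJ H E q))
    (hx1 : pt (nod σ q) x1 = 1) (d : S ⊕ J) {t : ℕ} (ht : t ≤ (q d).len) :
    pt (nod σ q) (nd P q x1 d t) = (q d).x t := by
  cases t with
  | zero => rw [nd, hx1, (q d).x_zero]
  | succ t =>
    rw [nd, dif_pos (by omega)]
    simp [pt, nod]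

/-- **The relative Grushko theorem.** -/
theorem Core.relative [Fintype ι] [Nonempty ι] [Fintype J] [DecidableEq J]
    (h : Core σ H P S E nJ) :
    ∃ (ρ ψ : ι → J → J) (g : ι → J → M) (F : ι → J → Finset M),
      (∀ i j, ρ i (ρ i j) = ρ i j) ∧
      (∀ i j, ∃ p ∈ P, (nJ j)⁻¹ * p * nJ (ρ i j) ∈ H i) ∧
      (∀ i j j', ∀ p ∈ P, (nJ j)⁻¹ * p * nJ j' ∈ H i → ρ i j = ρ i j') ∧
      (∀ i j, ρ i (ψ i j) = ψ i j) ∧
      (∀ i j, g i j ∈ P) ∧
      (∀ i v, (σ (nJ v))⁻¹ * g i v * nJ (ψ i v) ∈ H i) ∧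
      (∀ i w, ∀ f ∈ F i w, f ∈ St P (H i) (nJ w)) ∧ (∀ i w, ρ i w ≠ w → F i w = ∅) ∧
      (∀ i w, ρ i w = w → St P (H i) (nJ w) ≤ closure ((F i w : Set M) ∪
        {y | ∃ v, ρ i v = v ∧ ψ i v = w ∧
          g i v * y * (g i v)⁻¹ ∈ (St P (H i) (nJ v)).map σ.toMonoidHom})) ∧
      ∑ i, ∑ w, (F i w).card ≤ S.card := by
  classical
  have hp : ∀ d : S ⊕ J, Nonempty (Pth H E (tgt S nJ d)) := by
    rintro (s | j)
    · exact h.path _ (by
        have := h.PE s (h.SP s s.2) 1 h.one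
        rwa [mul_one] at this)
    · exact h.path _ (h.nJE j)
  let q : ∀ d, Pth H E (tgt S nJ d) := fun d => (hp d).some
  choose ρ κ hρ hκ hκH hκ1 hρeq using fun i => exists_reps P (H i) nJ
  have hnl : ∀ j, nod σ q (Sum.inl j) = σ (nJ j) := fun j => rfl
  have hnE : ∀ w, nod σ q w ∈ E := by
    rintro (j | l)
    · exact h.σE _ (h.nJE j)
    · exact (q l.1).mem _ l.2.2
  obtain ⟨p1, hp1, j1, h1⟩ := h.cov 1 h.one
  set x1 : P × (J ⊕ Lam S nJ H E q) := (⟨σ p1, h.σP p1 hp1⟩, Sum.inl j1) with hx1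
  have hx1p : pt (nod σ q) x1 = 1 := by
    simp only [pt, hx1, hnl]
    rw [← map_mul, ← h1, map_one]
  let V : ι → Set (J ⊕ Lam S nJ H E q) := fun i => VV _ (ρ i)
  let Q : ι → J ⊕ Lam S nJ H E q → Subgroup M := fun i => QQ _ σ P (H i) nJ
  have hQ : ∀ i, ∀ v ∈ V i, Q i v ≤ St P (H i) (nod σ q v) := fun i => QQ_le h hnl i (ρ i)
  let D0 : ∀ i, Dat P (H i) (nod σ q) := fun i => dat0 h hnl i (hρ i) (hκ i) (hκH i)
  -- attach the additional nodes
  obtain ⟨D1, g1, c1, b1⟩ := iterate_steps (V := V) (Q := Q)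
    (Finset.univ : Finset (Lam S nJ H E q))
    (fun l D => R V Q D ((q l.1).i l.2) (nd P q x1 l.1 l.2) (nd P q x1 l.1 (l.2 + 1)))
    (fun k D D' hD hk => hD _ _ _ hk)
    (fun l D => pair_step D _ (by
      rw [pt_nd q x1 hx1p l.1 (by omega), pt_nd q x1 hx1p l.1 (by omega)]
      exact (q l.1).step _ l.2.2)) D0
  -- glue
  obtain ⟨D2, g2, c2, b2⟩ := iterate_steps (V := V) (Q := Q) (Finset.univ : Finset S)
    (fun s D => ∀ i, R V Q D i (nd P q x1 (Sum.inl s) (q (Sum.inl s)).len)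
      ((⟨s, h.SP s s.2⟩ : P) * x1.1, x1.2))
    (fun k D D' hD hk i => hD _ _ _ (hk i))
    (fun s D => glue_step D (by
      rw [pt_nd q x1 hx1p (Sum.inl s) (le_refl _), pt_smul, hx1p, (q (Sum.inl s)).x_len, mul_one]
      rfl)) D1
  have hpath : ∀ d t, t ≤ (q d).len → Relation.ReflTransGen (fun x y => ∃ i, R V Q D2 i x y)
      x1 (nd P q x1 d t) := by
    intro d t
    induction t with
    | zero => exact fun _ => Relation.ReflTransGen.refl
    | succ t ih =>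
      intro ht
      exact Relation.ReflTransGen.tail (ih (by omega))
        ⟨(q d).i t, g2 _ _ _ (c1 ⟨d, ⟨t, by omega⟩⟩ (Finset.mem_univ _))⟩
  have hconn : Conn V Q D2 := by
    apply conn_of h D2 _ hp1 h1.symm
    · rintro ⟨d, t⟩
      have h2 := hpath d (t + 1) (by omega)
      rw [nd, dif_pos t.2] at h2
      exact h2
    · intro s hs
      obtain ⟨i⟩ := (inferInstance : Nonempty ι)
      exact Relation.ReflTransGen.tail (hpath (Sum.inl ⟨s, hs⟩) _ (le_refl _))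
        ⟨i, c2 ⟨s, hs⟩ (Finset.mem_univ _) i⟩
    · intro i p p' hp hp' j j' hj
      exact g2 _ _ _ (g1 _ _ _ (dat0_rel h hnl i (hρ i) (hκ i) (hκH i) (hκ1 i) (hρeq i) hp hp' hj))
  obtain ⟨D3, g3, b3, full⟩ := fold_all h.nf hQ _ D2 (le_refl _) hconn
  -- the endpoints
  have hen : ∀ j, ∃ u : P × (J ⊕ Lam S nJ H E q), pt (nod σ q) u = nJ j := fun j =>
    ⟨nd P q x1 (Sum.inr j) (q (Sum.inr j)).len, by
      rw [pt_nd q x1 hx1p _ (le_refl _), (q (Sum.inr j)).x_len]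
      rfl⟩
  choose en hen' using hen
  have hex := fun i => extract h hnl hnE i (hρ i) (hκ i) (hκH i) (hρeq i) (D3 i)
    (full i) (fun j => ⟨en j, hen' j⟩)
  choose ψ g F e1 e2 e3 e4 e4' e5 e6 using hex
  refine ⟨ρ, ψ, g, F, hρ, fun i j => ⟨κ i j, hκ i j, hκH i j⟩, hρeq, e1, e2, e3, e4, e4', e5, ?_⟩
  -- the count
  have o1 : orb V Q D0 ≤ Fintype.card J + Fintype.card (Lam S nJ H E q) := by
    have : orb V Q D0 ≤ Nat.card (J ⊕ Lam S nJ H E q) :=
      Nat.card_le_card_of_surjective (Quotient.mk _) Quotient.mk_surjective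
    rw [Nat.card_eq_fintype_card, Fintype.card_sum] at this
    exact this
  have o2 : Fintype.card J ≤ orb V Q D3 := by
    have := card_le_orb (V := V) (Q := Q) D3 (fun j => (en j).2) (by
      intro k k' b hb hk
      have h2 := hen' k
      have h3 := hen' k'
      simp only [pt] at h2 h3
      apply h.inj k k' ((en k').1 * b * ((en k).1 : M)⁻¹)
        (P.mul_mem (P.mul_mem (en k').1.2 hb) (P.inv_mem (en k).1.2))
      rw [← h3, ← hk, ← h2]
      group)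
    rwa [Nat.card_eq_fintype_card] at this
  have hι : (1 : ℤ) ≤ Fintype.card ι := by
    have : 0 < Fintype.card ι := Fintype.card_pos
    exact_mod_cast this
  have s1 : ∑ i, (((∑ w, (F i w).card : ℕ) : ℤ) - ((Finset.univ.image (ρ i)).card : ℤ)) ≤
      ∑ i, (D3 i).cost := Finset.sum_le_sum fun i _ => e6 i
  have s2 : ∑ i, (D0 i).cost =
      ∑ i, - (((Finset.univ.image (ρ i)).card : ℤ) + Fintype.card (Lam S nJ H E q)) :=
    Finset.sum_congr rfl fun i _ => dat0_cost h hnl i (hρ i) (hκ i) (hκH i)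
  have s3 : ((Fintype.card ι : ℤ) - 1) * (orb V Q D0 : ℤ) ≤
      ((Fintype.card ι : ℤ) - 1) * ((Fintype.card J : ℤ) + Fintype.card (Lam S nJ H E q)) :=
    mul_le_mul_of_nonneg_left (by exact_mod_cast o1) (by linarith)
  have s4 : ((Fintype.card ι : ℤ) - 1) * ((Fintype.card J : ℤ)) ≤
      ((Fintype.card ι : ℤ) - 1) * (orb V Q D3 : ℤ) :=
    mul_le_mul_of_nonneg_left (by exact_mod_cast o2) (by linarith)
  rw [Finset.card_univ] at b1 b2
  rw [Fintype.card_coe] at b2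
  simp only [pot] at b1 b2 b3
  rw [Finset.sum_sub_distrib] at s1
  rw [Finset.sum_neg_distrib, Finset.sum_add_distrib, Finset.sum_const, Finset.card_univ,
    nsmul_eq_mul] at s2
  have s5 : ((∑ i, ∑ w, (F i w).card : ℕ) : ℤ) ≤ (S.card : ℤ) := by
    push_cast
    push_cast at s1
    rw [s2] at b1
    nlinarith
  exact_mod_cast s5

end Pool.Agent.H84.MN
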